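import Pool.Agent.Lib.MP_cff830_lc.SDP.Base

/-!
# The Sherali-Adams SDP hierarchy for vertex cover: definitions and statements of the modules

Proofs: team store `SDP_plan.md`.
-/

set_option autoImplicit false

namespace Pool.Agent.Lib.MP_cff830_lc.SDP

open Finset MeasureTheory Real
open scoped InnerProductSpace

/-! ### Functions -/

/-- An auxiliary function, about `4`. -/
noncomputable def sF (r : ℝ) : ℝ := (1 + r) * (1 + r ^ 2) ^ 2 / (2 * r ^ 2)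

/-- The coefficient of the linear part. -/
noncomputable def lamF (r : ℝ) : ℝ := r / (r + sF r * (1 - r))

/-- The coefficient of the even part. -/
noncomputable def beF (r : ℝ) : ℝ := sF r * (1 - r) / (r + sF r * (1 - r))

/-- The tensor function; its minimum on `[-1, 1]` is attained at `-r`. -/
noncomputable def Pf (r x : ℝ) : ℝ := lamF r * x + beF r * ((1 - r ^ 2) / (1 - r ^ 2 * x ^ 2))

/-- The threshold. -/
noncomputable def tF (r : ℝ) : ℝ := √((1 + Pf r (-r)) / 2)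

/-- The probability that two unit vectors with inner product `z ≥ 2 * t ^ 2 - 1` both have inner
product larger than `t` with a random point of the unit ball of dimension `2 * n`. -/
noncomputable def pairF (n : ℕ) (t z : ℝ) : ℝ :=
  1 / π * ∫ v in (arccos z / 2)..(arccos t), (1 - t ^ 2 / cos v ^ 2) ^ n

/-! ### Part A: power series -/

/-- (A1) binomial series -/
def StBin : Prop :=
  (∀ (y : ℝ → ℝ) (c : ℝ), BN y c → c < 1 → BN (fun x => (√(1 + y x))⁻¹) (√(1 - c))⁻¹) ∧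
  (∀ (y : ℝ → ℝ) (c : ℝ), BN y c → c < 1 → BN (fun x => √(1 + y x)) 2) ∧
  (∀ (y : ℝ → ℝ) (c : ℝ), BN y c → c < 1 → BN (fun x => (1 + y x)⁻¹) (1 - c)⁻¹) ∧
  (∀ P : ℝ → ℝ, NN P 1 → BN (fun x => √(1 - P x)) 2)

/-- (A2) the series of the arcsine -/
def StAsin : Prop := ∀ P : ℝ → ℝ, NN P 1 → NN (fun x => arcsin (P x)) (π / 2)

/-- (A3) the tensor function -/
def StPf : Prop := ∀ r : ℝ, 39 / 40 ≤ r → r < 1 →
  NN (Pf r) 1 ∧ (∀ x : ℝ, |x| ≤ 1 → Pf r (-r) ≤ Pf r x) ∧ 0 < tF r ∧ tF r ≤ 2 * √(1 - r) ∧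
    BN (fun x => (√(1 + Pf r x))⁻¹) (6 / tF r)

/-- (A4) the integral as a polynomial in the tangent -/
def StTan : Prop := ∀ (n : ℕ) (t : ℝ), 0 < t → t < 1 → ∃ α : ℕ → ℝ,
  (∀ l, |α l| ≤ (n.choose (l + 1) : ℝ) * t ^ (2 * l + 2)) ∧
  ∀ θ : ℝ, 0 ≤ θ → θ ≤ arccos t → ∫ v in θ..(arccos t), (1 - t ^ 2 / cos v ^ 2) ^ n =
    (∫ v in (0 : ℝ)..(arccos t), (1 - t ^ 2 / cos v ^ 2) ^ n) - θ -
      ∑ l ∈ range n, α l * tan θ ^ (2 * l + 1)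

/-- (A5) bounds for the marginal probability -/
def StPlo : Prop := ∀ (n : ℕ) (t : ℝ), 0 < t → t < 1 →
  1 / 2 - (n + 2) * t ≤ pairF n t 1 ∧ pairF n t 1 ≤ 1 / 2

/-- (A6) the kernel is almost a power series with non-negative coefficients -/
def StKer : Prop := ∀ (n : ℕ) (r : ℝ), 39 / 40 ≤ r → r < 1 →
  ∃ (g e : ℝ → ℝ) (c η : ℝ), NN g c ∧ NN e η ∧ η ≤ tF r * 145 ^ n ∧
    ∀ x : ℝ, |x| ≤ 1 → pairF n (tF r) (Pf r x) = pairF n (tF r) 1 - 1 / 4 + g x - e x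

/-- (A7) the repair -/
def StFix : Prop := ∀ (h g e : ℝ → ℝ) (h₀ c η : ℝ), NN g c → NN e η → 0 < η → η < h₀ →
  (∀ x : ℝ, |x| ≤ 1 → h x = h₀ + g x - e x) → ∃ (w : ℝ → ℝ) (c' : ℝ), NN w 1 ∧
    NN (fun x => (1 - 4 * η / (h₀ + 2 * η)) * h x +
      η / (h₀ + 2 * η) * (h x * (1 + w x)) - (1 - 3 * η / (h₀ + 2 * η)) * h₀) c'

/-! ### Part B: the cube -/

/-- The normalised inner product of two points of the cube. -/
noncomputable def rho {m : ℕ} (x y : Fin m → Bool) : ℝ := 1 - 2 * (hammingDist x y : ℝ) / m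

/-- Positive semidefinite kernels. -/
def PSD {V : Type} [Fintype V] (K : V → V → ℝ) : Prop :=
  ∀ c : V → ℝ, 0 ≤ ∑ x, ∑ y, c x * c y * K x y

/-- (B1) kernels -/
def StPsd : Prop := ∀ (m : ℕ) (f : ℝ → ℝ) (c : ℝ), 1 ≤ m → NN f c →
  PSD fun x y : Fin m → Bool => f (rho x y)

/-- (B2) random sets -/
def StSign : Prop := ∀ (m : ℕ) (w : ℝ → ℝ), 1 ≤ m → NN w 1 →
  ∃ ν : Finset (Fin m → Bool) → ℝ, (∀ R, 0 ≤ ν R) ∧ ∑ R, ν R = 1 ∧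
    ∀ x y, ∑ R, (if x ∈ R ∧ y ∈ R then ν R else 0) = (1 + w (rho x y)) / 4

/-- (B3) the theorem of Frankl and Wilson -/
def StFW : Prop := ∀ (m p : ℕ), p.Prime → p ≠ 2 → m < 4 * p → ∀ A : Finset (Fin m → Bool),
  (∀ x ∈ A, ∀ y ∈ A, hammingDist x y ≠ 2 * p) → A.card ≤ 2 * ∑ i ∈ range p, m.choose i

/-- (B4) tail of the binomial distribution -/
def StCnt : Prop := ∀ (ε : ℝ) (p j : ℕ), 1 ≤ j → 2 * ((2 * p + j : ℕ) : ℝ) ≤ ε * (j : ℝ) ^ 2 →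
  2 * ∑ i ∈ range p, ((2 * p + j).choose i : ℝ) ≤ ε * 2 ^ (2 * p + j)

/-- (B5) choice of the parameters -/
def StPar : Prop := ∀ ε : ℝ, 0 < ε → ε < 1 → ∃ C : ℕ, ∀ k : ℕ, 1 ≤ k → ∃ p j : ℕ,
  p.Prime ∧ p ≠ 2 ∧ 1 ≤ j ∧ (j : ℝ) / p ≤ (ε / (256 * 145 ^ (k + 1))) ^ 2 ∧
    2 * ((2 * p + j : ℕ) : ℝ) ≤ ε * (j : ℝ) ^ 2 ∧ 2 * p + j ≤ 2 ^ (C * k)

/-! ### Part C: local distributions -/

/-- Consistent probability distributions on the subsets of the sets of at most `k` elements. -/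
structure IsLoc {V : Type} [DecidableEq V] (k : ℕ) (μ : Finset V → Finset V → ℝ) : Prop where
  nonneg : ∀ S U, 0 ≤ μ S U
  total : ∀ S, S.card ≤ k → ∑ U ∈ S.powerset, μ S U = 1
  cons : ∀ S T, S ⊆ T → T.card ≤ k → ∀ U, U ⊆ S →
    μ S U = ∑ W ∈ T.powerset with W ∩ S = U, μ T W

/-- (C1) mixtures -/
def StMix : Prop := ∀ (V : Type) [Fintype V] [DecidableEq V] (k : ℕ)
  (μ : Finset V → Finset V → ℝ) (ν : Finset V → ℝ) (δ δ₀ : ℝ), 2 ≤ k → IsLoc k μ →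
  (∀ R, 0 ≤ ν R) → ∑ R, ν R = 1 → 0 ≤ δ → δ ≤ 1 → 0 ≤ δ₀ → δ₀ ≤ 1 →
  ∃ μ' : Finset V → Finset V → ℝ, IsLoc k μ' ∧
    (∀ S, S.card ≤ k → ∀ U, U ⊆ S → μ' S U ≠ 0 → U = ∅ ∨ ∃ W, W ⊆ S ∧ U ⊆ W ∧ μ S W ≠ 0) ∧
    ∀ x y, μ' {x, y} {x, y} = (1 - δ₀) * ((1 - δ) * μ {x, y} {x, y} +
      δ * (μ {x, y} {x, y} * ∑ R, if x ∈ R ∧ y ∈ R then ν R else 0))

/-- The space of dimension `2 * j + 2`. -/
abbrev E (j : ℕ) : Type := EuclideanSpace ℝ (Fin 2 ⊕ Fin (2 * j))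

/-- The uniform probability distribution on the unit ball. -/
noncomputable def pr (j : ℕ) (A : Set (E j)) : ℝ :=
  (volume (A ∩ Metric.ball (0 : E j) 1)).toReal / (volume (Metric.ball (0 : E j) 1)).toReal

/-- (C2) the distribution of the first two coordinates -/
def StPlane : Prop := ∀ (j : ℕ) (Ω : Set (ℝ × ℝ)), MeasurableSet Ω →
  pr j {u | (u (Sum.inl 0), u (Sum.inl 1)) ∈ Ω} =
    (j + 1) / π * ∫ z in Ω ∩ {z : ℝ × ℝ | z.1 ^ 2 + z.2 ^ 2 < 1}, (1 - z.1 ^ 2 - z.2 ^ 2) ^ j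

/-- (C3) polar coordinates -/
def StPolar : Prop := ∀ (j : ℕ) (t θ : ℝ), 0 < t → t < 1 → 0 ≤ θ → θ ≤ arccos t →
  (j + 1) / π * ∫ z in {z : ℝ × ℝ | t < cos θ * z.1 + sin θ * z.2 ∧
      t < cos θ * z.1 - sin θ * z.2} ∩ {z : ℝ × ℝ | z.1 ^ 2 + z.2 ^ 2 < 1},
        (1 - z.1 ^ 2 - z.2 ^ 2) ^ j =
    1 / π * ∫ v in θ..(arccos t), (1 - t ^ 2 / cos v ^ 2) ^ (j + 1)

/-- (C4) rotations -/
def StRot : Prop := ∀ j : ℕ,
  (∀ (ι : Type) (a b : ι → E j), (∀ x y, ⟪a x, a y⟫_ℝ = ⟪b x, b y⟫_ℝ) →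
    ∃ O : E j ≃ₗᵢ[ℝ] E j, ∀ x, O (a x) = b x) ∧
  ∀ (O : E j ≃ₗᵢ[ℝ] E j) (A : Set (E j)), pr j (O ⁻¹' A) = pr j A

/-- (C5) vectors with given inner products -/
def StGram : Prop := ∀ (j : ℕ) (V : Type) [Fintype V] (K : V → V → ℝ), PSD K →
  (∀ x y, K x y = K y x) → ∀ S : Finset V, S.card ≤ 2 * j + 2 →
    ∃ a : V → E j, ∀ x ∈ S, ∀ y ∈ S, ⟪a x, a y⟫_ℝ = K x y

/-- (C6) pairs of unit vectors -/
def StPair : Prop := ∀ (j : ℕ) (t : ℝ) (a b : E j), 0 < t → t < 1 → ‖a‖ = 1 → ‖b‖ = 1 →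
  -1 + 2 * t ^ 2 ≤ ⟪a, b⟫_ℝ →
    pr j {u | t < ⟪u, a⟫_ℝ ∧ t < ⟪u, b⟫_ℝ} = pairF (j + 1) t ⟪a, b⟫_ℝ

/-- (C7) local distributions from the unit ball -/
def StBall : Prop := ∀ (V : Type) [Fintype V] [DecidableEq V] (K : V → V → ℝ) (j : ℕ) (t : ℝ),
  0 < t → t < 1 → PSD K → (∀ x, K x x = 1) → (∀ x y, K x y = K y x) →
  (∀ x y, -1 + 2 * t ^ 2 ≤ K x y) → ∃ μ : Finset V → Finset V → ℝ, IsLoc (2 * j + 2) μ ∧
    (∀ S, S.card ≤ 2 * j + 2 → ∀ U, U ⊆ S → μ S U ≠ 0 → ∀ x ∈ U, ∀ y ∈ U,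
      -1 + 2 * t ^ 2 < K x y) ∧
    ∀ x y, μ {x, y} {x, y} = pairF (j + 1) t (K x y)

/-! ### The main theorem -/

/-- Solutions of level `k` of the Sherali-Adams SDP relaxation of vertex cover: `μ S U` is the
probability that the local vertex cover of the set `S` of at most `k` vertices is `U`; the matrix
of the moments of order at most two is positive semidefinite. -/
structure IsSol {V : Type} [Fintype V] [DecidableEq V] (G : SimpleGraph V) (k : ℕ)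
    (μ : Finset V → Finset V → ℝ) : Prop where
  nonneg : ∀ S U, 0 ≤ μ S U
  total : ∀ S, S.card ≤ k → ∑ U ∈ S.powerset, μ S U = 1
  consistent : ∀ S T, S ⊆ T → T.card ≤ k → ∀ U, U ⊆ S →
    μ S U = ∑ W ∈ T.powerset with W ∩ S = U, μ T W
  cover : ∀ S, S.card ≤ k → ∀ U, U ⊆ S → μ S U ≠ 0 → ∀ x ∈ S, ∀ y ∈ S, G.Adj x y →
    x ∈ U ∨ y ∈ U
  psd : ∀ (c₀ : ℝ) (c : V → ℝ), 0 ≤ c₀ ^ 2 + 2 * c₀ * ∑ x, c x * μ {x} {x} +
    ∑ x, ∑ y, c x * c y * μ {x, y} {x, y}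

/-- The main theorem. -/
def StTop : Prop := ∀ ε : ℝ, 0 < ε → ∃ C : ℕ, ∀ k : ℕ, 1 ≤ k →
  ∃ (V : Type) (_ : Fintype V) (_ : DecidableEq V) (G : SimpleGraph V),
    0 < Fintype.card V ∧ Fintype.card V ≤ 2 ^ (2 ^ (C * k)) ∧
    (∀ U : Finset V, (∀ x y, G.Adj x y → x ∈ U ∨ y ∈ U) →
      (1 - ε) * (Fintype.card V : ℝ) ≤ (U.card : ℝ)) ∧
    ∃ μ : Finset V → Finset V → ℝ, IsSol G k μ ∧
      ∑ x, μ {x} {x} ≤ (1 / 2 + ε) * (Fintype.card V : ℝ)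

end Pool.Agent.Lib.MP_cff830_lc.SDP
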