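import Pool.Agent.Lib.MP_cff830_lc.SDP.Stmts

/-!
# A2 : the series of the arcsine
-/

set_option autoImplicit false

namespace Pool.Agent.Lib.MP_cff830_lc.SDP

namespace AsinAux

open Set Filter Topology

/-- The coefficients of `(1 - y) ^ (-1 / 2)`. -/
noncomputable def d (n : ℕ) : ℝ := Ring.choose ((1 / 2 : ℝ) + n - 1) n

theorem d_nonneg (n : ℕ) : 0 ≤ d n := by
  have h1 := Ring.factorial_nsmul_multichoose_eq_ascPochhammer (1 / 2 : ℝ) n
  rw [Polynomial.ascPochhammer_smeval_eq_eval] at h1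
  have h2 : 0 < (ascPochhammer ℝ n).eval (1 / 2 : ℝ) := ascPochhammer_pos n _ (by norm_num)
  rw [← h1, nsmul_eq_mul] at h2
  have h3 : (0 : ℝ) < n.factorial := by exact_mod_cast n.factorial_pos
  rw [d, ← Ring.multichoose_eq]
  exact ((mul_pos_iff_of_pos_left h3).mp h2).le

theorem hasSum_d (y : ℝ) (hy : |y| < 1) : HasSum (fun n => d n * y ^ n) (1 / √(1 - y)) := by
  have hy' : ‖y‖₊ < 1 := by
    rw [← NNReal.coe_lt_coe]
    simpa using hy
  have h := (Real.one_div_one_sub_rpow_hasFPowerSeriesOnBall_zero (1 / 2)).hasSum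
    (y := y) (by simpa [enorm_eq_nnnorm] using hy')
  rw [zero_add, ← Real.sqrt_eq_rpow] at h
  refine h.congr_fun fun n => ?_
  simp [d, mul_comm]

/-- The coefficients of the arcsine. -/
noncomputable def a (n : ℕ) : ℝ := d n / (2 * n + 1)

theorem a_nonneg (n : ℕ) : 0 ≤ a n := div_nonneg (d_nonneg n) (by positivity)

theorem hasSum_sq (z : ℝ) (hz : |z| < 1) :
    HasSum (fun n => d n * z ^ (2 * n)) (1 / √(1 - z ^ 2)) := by
  have h1 : |z ^ 2| < 1 := by
    rw [abs_pow]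
    exact pow_lt_one₀ (abs_nonneg z) hz two_ne_zero
  refine (hasSum_d (z ^ 2) h1).congr_fun fun n => ?_
  rw [pow_mul]

theorem hasDeriv (ρ : ℝ) (hρ0 : 0 < ρ) (hρ : ρ < 1) (z : ℝ) (hz : z ∈ Ioo (-ρ) ρ) :
    HasDerivAt (fun z => ∑' n, a n * z ^ (2 * n + 1)) (∑' n, d n * z ^ (2 * n)) z := by
  have hsum : Summable fun n => d n * ρ ^ (2 * n) :=
    (hasSum_sq ρ (by rw [abs_of_pos hρ0]; exact hρ)).summable
  refine hasDerivAt_tsum_of_isPreconnected (𝕜 := ℝ) (F := ℝ) (g := fun n z => a n * z ^ (2 * n + 1))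
    (g' := fun n z => d n * z ^ (2 * n)) hsum isOpen_Ioo isPreconnected_Ioo ?_ ?_
    (y₀ := 0) ⟨by linarith, hρ0⟩ ?_ hz
  · intro n y _
    have h1 := (hasDerivAt_pow (2 * n + 1) y).const_mul (a n)
    refine h1.congr_deriv ?_
    rw [Nat.add_sub_cancel, a]
    push_cast
    have : (2 * (n : ℝ) + 1) ≠ 0 := by positivity
    field_simp
  · intro n y hy
    rw [norm_mul, Real.norm_of_nonneg (d_nonneg n), norm_pow, Real.norm_eq_abs]
    have : |y| ≤ ρ := (abs_lt.mpr hy).le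
    have h0 := d_nonneg n
    gcongr
  · refine summable_zero.congr fun n => ?_
    simp

theorem eq_arcsin (z : ℝ) (hz : z ∈ Ioo (-1 : ℝ) 1) :
    ∑' n, a n * z ^ (2 * n + 1) = Real.arcsin z := by
  have hz' : |z| < 1 := abs_lt.mpr hz
  obtain ⟨ρ, h1, h2⟩ := exists_between hz'
  have hρ0 : 0 < ρ := lt_of_le_of_lt (abs_nonneg z) h1
  have hsub : ∀ y ∈ Ioo (-ρ) ρ, |y| < 1 := fun y hy => (abs_lt.mpr hy).trans h2
  have key := IsOpen.eqOn_of_deriv_eq (𝕜 := ℝ) (s := Ioo (-ρ) ρ)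
    (f := fun z : ℝ => ∑' n, a n * z ^ (2 * n + 1)) (g := Real.arcsin) (x := 0)
    isOpen_Ioo isPreconnected_Ioo
    (fun y hy => (hasDeriv ρ hρ0 h2 y hy).differentiableAt.differentiableWithinAt)
    (fun y hy => by
      have h3 := hsub y hy
      have h4 := abs_lt.mp h3
      exact (Real.hasDerivAt_arcsin h4.1.ne' h4.2.ne).differentiableAt.differentiableWithinAt)
    (fun y hy => by
      have h3 := hsub y hy
      have h4 := abs_lt.mp h3
      rw [(hasDeriv ρ hρ0 h2 y hy).deriv, (Real.hasDerivAt_arcsin h4.1.ne' h4.2.ne).deriv,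
        (hasSum_sq y h3).tsum_eq])
    ⟨by linarith, hρ0⟩ (by simp)
  exact key (abs_lt.mp h1)

theorem summ (z : ℝ) (hz : |z| < 1) : Summable fun n => a n * z ^ (2 * n + 1) := by
  have h1 : Summable fun n => d n * |z| ^ (2 * n) :=
    (hasSum_sq |z| (by rwa [abs_abs])).summable
  refine Summable.of_norm_bounded h1 fun n => ?_
  rw [norm_mul, Real.norm_of_nonneg (a_nonneg n), norm_pow, Real.norm_eq_abs, a, pow_succ,
    ← mul_assoc]
  have h0 := d_nonneg n
  have h2 : d n / (2 * (n : ℝ) + 1) ≤ d n := div_le_self h0 (by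
    have : (0 : ℝ) ≤ n := Nat.cast_nonneg n
    linarith)
  calc d n / (2 * (n : ℝ) + 1) * |z| ^ (2 * n) * |z|
      ≤ d n / (2 * (n : ℝ) + 1) * |z| ^ (2 * n) := mul_le_of_le_one_right (by positivity) hz.le
    _ ≤ d n * |z| ^ (2 * n) := by gcongr

theorem summable_a : Summable a := by
  refine summable_of_sum_range_le (c := Real.pi / 2) a_nonneg fun N => ?_
  have hcont : Tendsto (fun z : ℝ => ∑ n ∈ Finset.range N, a n * z ^ (2 * n + 1)) (𝓝[<] 1)
      (𝓝 (∑ n ∈ Finset.range N, a n)) := by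
    have h : Continuous fun z : ℝ => ∑ n ∈ Finset.range N, a n * z ^ (2 * n + 1) := by fun_prop
    have h1 := (h.tendsto 1).mono_left (nhdsWithin_le_nhds (s := Iio 1))
    simpa using h1
  refine le_of_tendsto hcont ?_
  have hmem : Ioo (0 : ℝ) 1 ∈ 𝓝[<] (1 : ℝ) := Ioo_mem_nhdsLT one_pos
  filter_upwards [hmem] with z hz
  have hz' : |z| < 1 := by rw [abs_of_pos hz.1]; exact hz.2
  calc ∑ n ∈ Finset.range N, a n * z ^ (2 * n + 1) ≤ ∑' n, a n * z ^ (2 * n + 1) :=
        (summ z hz').sum_le_tsum _ fun n _ => mul_nonneg (a_nonneg n) (pow_nonneg hz.1.le _)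
    _ = Real.arcsin z := eq_arcsin z ⟨by linarith [hz.1], hz.2⟩
    _ ≤ Real.pi / 2 := Real.arcsin_le_pi_div_two z

theorem eq_arcsin' (z : ℝ) (hz : |z| ≤ 1) :
    ∑' n, a n * z ^ (2 * n + 1) = Real.arcsin z := by
  have hc : ContinuousOn (fun z : ℝ => ∑' n, a n * z ^ (2 * n + 1)) (Icc (-1) 1) := by
    refine continuousOn_tsum (fun n => by fun_prop) summable_a fun n y hy => ?_
    rw [norm_mul, Real.norm_of_nonneg (a_nonneg n), norm_pow, Real.norm_eq_abs]
    exact mul_le_of_le_one_right (a_nonneg n) (pow_le_one₀ (abs_nonneg y) (abs_le.mpr hy))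
  have key : EqOn (fun z : ℝ => ∑' n, a n * z ^ (2 * n + 1)) Real.arcsin (Icc (-1) 1) := by
    refine EqOn.of_subset_closure (s := Ioo (-1) 1) (fun z hz => eq_arcsin z hz) hc
      Real.continuous_arcsin.continuousOn Ioo_subset_Icc_self ?_
    rw [closure_Ioo (by norm_num)]
  exact key (abs_le.mp hz)

end AsinAux

open AsinAux in
/-- A2 -/
theorem stAsin : StAsin := by
  intro P hP
  have h1 : ∀ n : ℕ, NN (fun x => a n * P x ^ (2 * n + 1)) (a n * 1 ^ (2 * n + 1)) := fun n =>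
    (hP.pow (2 * n + 1)).smul (a_nonneg n)
  have h2 : Summable fun n : ℕ => a n * (1 : ℝ) ^ (2 * n + 1) := by
    simpa using summable_a
  have h3 := NN.tsum h1 h2
  rw [eq_arcsin' 1 (by norm_num), Real.arcsin_one] at h3
  exact h3.congr fun x hx => (eq_arcsin' (P x) (hP.abs_le hx)).symm

end Pool.Agent.Lib.MP_cff830_lc.SDP
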