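import Mathlib
import Pool.Agent.Lib.MP_cff830_lc.SDP.Stmts

/-!
# C7: consistent local distributions from the unit ball
-/

set_option autoImplicit false

namespace Pool.Agent.Lib.MP_cff830_lc.SDP

open Finset MeasureTheory Real
open scoped InnerProductSpace

namespace BallAux

variable {V : Type} [DecidableEq V] {j : ℕ}

/-- The event that the random subset of `S` is `U`. -/
def cell (t : ℝ) (a : V → E j) (S U : Finset V) : Set (E j) :=
  {u | ∀ x ∈ S, (t < ⟪u, a x⟫_ℝ ↔ x ∈ U)}

theorem pr_nonneg (A : Set (E j)) : 0 ≤ pr j A :=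
  div_nonneg ENNReal.toReal_nonneg ENNReal.toReal_nonneg

theorem vol_ball_pos : 0 < (volume (Metric.ball (0 : E j) 1)).toReal := by
  refine ENNReal.toReal_pos ?_ ?_
  · exact (Metric.measure_ball_pos volume (0 : E j) one_pos).ne'
  · exact measure_ball_lt_top.ne

theorem pr_univ : pr j Set.univ = 1 := by
  unfold pr
  rw [Set.univ_inter]
  exact div_self vol_ball_pos.ne'

theorem measurableSet_cell (t : ℝ) (a : V → E j) (S U : Finset V) :
    MeasurableSet (cell t a S U) := by
  have h1 : cell t a S U = ⋂ x ∈ S, {u : E j | (t < ⟪u, a x⟫_ℝ ↔ x ∈ U)} := by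
    ext u
    simp [cell]
  rw [h1]
  refine Finset.measurableSet_biInter S fun x _ => ?_
  have hm : MeasurableSet {u : E j | t < ⟪u, a x⟫_ℝ} := by
    have hc : Continuous fun u : E j => ⟪u, a x⟫_ℝ := continuous_id.inner continuous_const
    exact (isOpen_lt continuous_const hc).measurableSet
  by_cases hx : x ∈ U
  · have h2 : {u : E j | (t < ⟪u, a x⟫_ℝ ↔ x ∈ U)} = {u : E j | t < ⟪u, a x⟫_ℝ} := by
      ext u
      simp [hx]
    rw [h2]
    exact hm
  · have h2 : {u : E j | (t < ⟪u, a x⟫_ℝ ↔ x ∈ U)} = {u : E j | t < ⟪u, a x⟫_ℝ}ᶜ := by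
      ext u
      simp [hx]
    rw [h2]
    exact hm.compl

theorem pr_cell_sum (t : ℝ) (a : V → E j) {S T U : Finset V} (hST : S ⊆ T) (hU : U ⊆ S) :
    pr j (cell t a S U) = ∑ W ∈ T.powerset with W ∩ S = U, pr j (cell t a T W) := by
  have h1 : cell t a S U ∩ Metric.ball (0 : E j) 1 =
      ⋃ W ∈ T.powerset.filter (fun W => W ∩ S = U), cell t a T W ∩ Metric.ball (0 : E j) 1 := by
    ext u
    simp only [Set.mem_inter_iff, Set.mem_iUnion, Finset.mem_filter, Finset.mem_powerset,
      exists_prop]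
    constructor
    · rintro ⟨hu, hb⟩
      refine ⟨T.filter (fun x => t < ⟪u, a x⟫_ℝ), ⟨Finset.filter_subset _ _, ?_⟩, ?_, hb⟩
      · ext x
        simp only [Finset.mem_inter, Finset.mem_filter]
        constructor
        · rintro ⟨⟨_, h2⟩, h3⟩
          exact (hu x h3).mp h2
        · intro h2
          exact ⟨⟨hST (hU h2), (hu x (hU h2)).mpr h2⟩, hU h2⟩
      · intro x hx
        simp [hx]
    · rintro ⟨W, ⟨hW, hWS⟩, hu, hb⟩
      refine ⟨?_, hb⟩
      intro x hx
      rw [hu x (hST hx), ← hWS]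
      simp [hx]
  have h2 : volume (cell t a S U ∩ Metric.ball (0 : E j) 1) =
      ∑ W ∈ T.powerset with W ∩ S = U, volume (cell t a T W ∩ Metric.ball (0 : E j) 1) := by
    rw [h1]
    refine measure_biUnion_finset ?_ ?_
    · intro W hW W' hW' hne
      rw [Finset.mem_coe, Finset.mem_filter, Finset.mem_powerset] at hW hW'
      refine Set.disjoint_left.mpr ?_
      rintro u ⟨hu, -⟩ ⟨hu', -⟩
      apply hne
      ext x
      constructor
      · intro hx
        exact (hu' x (hW.1 hx)).mp ((hu x (hW.1 hx)).mpr hx)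
      · intro hx
        exact (hu x (hW'.1 hx)).mp ((hu' x (hW'.1 hx)).mpr hx)
    · intro W _
      exact (measurableSet_cell t a T W).inter Metric.isOpen_ball.measurableSet
  have h3 : (volume (cell t a S U ∩ Metric.ball (0 : E j) 1)).toReal =
      ∑ W ∈ T.powerset with W ∩ S = U,
        (volume (cell t a T W ∩ Metric.ball (0 : E j) 1)).toReal := by
    rw [h2]
    refine ENNReal.toReal_sum fun W _ => ?_
    exact ((measure_mono Set.inter_subset_right).trans_lt measure_ball_lt_top).ne
  unfold pr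
  rw [h3, Finset.sum_div]

omit [DecidableEq V] in
theorem pr_cell_rot (hR : StRot) (t : ℝ) (a b : V → E j) (S U : Finset V)
    (h : ∀ x ∈ S, ∀ y ∈ S, ⟪a x, a y⟫_ℝ = ⟪b x, b y⟫_ℝ) :
    pr j (cell t a S U) = pr j (cell t b S U) := by
  obtain ⟨O, hO⟩ := (hR j).1 {x // x ∈ S} (fun x => a x.1) (fun x => b x.1)
    (fun x y => h x.1 x.2 y.1 y.2)
  have h1 : cell t a S U = O ⁻¹' (cell t b S U) := by
    ext u
    simp only [cell, Set.mem_ofPred_eq, Set.mem_preimage]
    refine forall_congr' fun x => ?_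
    refine forall_congr' fun hx => ?_
    have h2 : ⟪O u, b x⟫_ℝ = ⟪u, a x⟫_ℝ := by
      have h3 : O (a x) = b x := hO ⟨x, hx⟩
      rw [← h3]
      exact O.inner_map_map u (a x)
    rw [h2]
  rw [h1]
  exact (hR j).2 O _

end BallAux

open BallAux in
theorem stBall (hR : StRot) (hG : StGram) (hP : StPair) : StBall := by
  intro V _ _ K j t ht0 ht1 hpsd hdiag hsymm hK
  have hch : ∀ S : Finset V, ∃ a : V → E j, S.card ≤ 2 * j + 2 →
      ∀ x ∈ S, ∀ y ∈ S, ⟪a x, a y⟫_ℝ = K x y := by
    intro S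
    by_cases hS : S.card ≤ 2 * j + 2
    · obtain ⟨a, ha⟩ := hG j V K hpsd hsymm S hS
      exact ⟨a, fun _ => ha⟩
    · exact ⟨fun _ => 0, fun h => absurd h hS⟩
  choose a ha using hch
  let μ : Finset V → Finset V → ℝ := fun S U => pr j (cell t (a S) S U)
  refine ⟨μ, ⟨?_, ?_, ?_⟩, ?_, ?_⟩
  · intro S U
    exact pr_nonneg _
  · intro S hS
    have h1 := pr_cell_sum t (a S) (Finset.empty_subset S) (Finset.Subset.refl ∅)
    have h2 : cell t (a S) ∅ ∅ = Set.univ := by
      ext u
      simp [cell]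
    rw [h2, pr_univ] at h1
    rw [h1]
    refine Finset.sum_congr ?_ fun _ _ => rfl
    ext W
    simp
  · intro S T hST hT U hU
    have hS : S.card ≤ 2 * j + 2 := (Finset.card_le_card hST).trans hT
    have h1 : μ S U = pr j (cell t (a T) S U) := by
      refine pr_cell_rot hR t (a S) (a T) S U fun x hx y hy => ?_
      rw [ha S hS x hx y hy, ha T hT x (hST hx) y (hST hy)]
    rw [h1]
    exact pr_cell_sum t (a T) hST hU
  · intro S hS U hU hne x hx y hy
    by_contra hcon
    have hcon' : K x y ≤ -1 + 2 * t ^ 2 := not_lt.mp hcon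
    -- the event is not empty
    have h1 : (cell t (a S) S U ∩ Metric.ball (0 : E j) 1).Nonempty := by
      by_contra h0
      rw [Set.not_nonempty_iff_eq_empty] at h0
      apply hne
      change pr j (cell t (a S) S U) = 0
      unfold pr
      rw [h0]
      simp
    obtain ⟨u, hu, hb⟩ := h1
    have hux := (hu x (hU hx)).mpr hx
    have huy := (hu y (hU hy)).mpr hy
    have hnorm : ‖u‖ < 1 := by simpa using hb
    have hxx := ha S hS x (hU hx) x (hU hx)
    have hyy := ha S hS y (hU hy) y (hU hy)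
    have hxy := ha S hS x (hU hx) y (hU hy)
    rw [hdiag x, real_inner_self_eq_norm_sq] at hxx
    rw [hdiag y, real_inner_self_eq_norm_sq] at hyy
    have h2 : ‖a S x + a S y‖ ^ 2 ≤ (2 * t) ^ 2 := by
      rw [norm_add_sq_real, hxx, hyy, hxy]
      nlinarith
    have h3 : ‖a S x + a S y‖ ≤ 2 * t := by
      refine le_of_sq_le_sq ?_ (by positivity)
      exact h2
    have h4 : ⟪u, a S x + a S y⟫_ℝ ≤ ‖u‖ * ‖a S x + a S y‖ := real_inner_le_norm _ _
    rw [inner_add_right] at h4
    have h5 : ‖u‖ * ‖a S x + a S y‖ ≤ 1 * (2 * t) :=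
      mul_le_mul hnorm.le h3 (norm_nonneg _) zero_le_one
    linarith
  · intro x y
    have hc : ({x, y} : Finset V).card ≤ 2 * j + 2 := by
      have := Finset.card_le_two (a := x) (b := y)
      omega
    have hx : x ∈ ({x, y} : Finset V) := by simp
    have hy : y ∈ ({x, y} : Finset V) := by simp
    have hxx := ha {x, y} hc x hx x hx
    have hyy := ha {x, y} hc y hy y hy
    have hxy := ha {x, y} hc x hx y hy
    have hnx : ‖a {x, y} x‖ = 1 := by
      rw [hdiag x, real_inner_self_eq_norm_sq] at hxx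
      exact (pow_eq_one_iff_of_nonneg (norm_nonneg _) two_ne_zero).mp hxx
    have hny : ‖a {x, y} y‖ = 1 := by
      rw [hdiag y, real_inner_self_eq_norm_sq] at hyy
      exact (pow_eq_one_iff_of_nonneg (norm_nonneg _) two_ne_zero).mp hyy
    have h1 := hP j t (a {x, y} x) (a {x, y} y) ht0 ht1 hnx hny (by rw [hxy]; exact hK x y)
    rw [hxy] at h1
    rw [← h1]
    change pr j (cell t (a {x, y}) {x, y} {x, y}) = _
    congr 1
    ext u
    simp [cell]

end Pool.Agent.Lib.MP_cff830_lc.SDP
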