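import Pool.Agent.Lib.MP_cff830_lc.SDP.Stmts

/-!
(B3) the theorem of Frankl and Wilson for Hamming distance `2 * p`.
-/

set_option autoImplicit false

namespace Pool.Agent.Lib.MP_cff830_lc.SDP

open Finset

namespace FWAux

variable {m : ℕ}

/-- A truth value as a number. -/
def bb (R : Type) [CommRing R] (b : Bool) : R := if b = true then 1 else 0

/-- Monomials. -/
def mon (R : Type) [CommRing R] (I : Finset (Fin m)) (y : Fin m → Bool) : R :=
  ∏ i ∈ I, bb R (y i)

theorem bb_mul_self (R : Type) [CommRing R] (b : Bool) : bb R b * bb R b = bb R b := by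
  unfold bb
  split_ifs <;> simp

theorem mon_mul_bb (R : Type) [CommRing R] (I : Finset (Fin m)) (i : Fin m) (y : Fin m → Bool) :
    mon R I y * bb R (y i) = mon R (insert i I) y := by
  unfold mon
  by_cases h : i ∈ I
  · rw [Finset.insert_eq_of_mem h, ← Finset.mul_prod_erase I _ h]
    rw [mul_right_comm, bb_mul_self]
  · rw [Finset.prod_insert h, mul_comm]

theorem dist_eq (R : Type) [CommRing R] (x y : Fin m → Bool) :
    (hammingDist x y : R) = ∑ i, (bb R (x i) + (1 - 2 * bb R (x i)) * bb R (y i)) := by
  have h : ∀ i, bb R (x i) + (1 - 2 * bb R (x i)) * bb R (y i) = if x i ≠ y i then 1 else 0 := by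
    intro i
    unfold bb
    cases x i <;> cases y i <;> norm_num
  rw [Finset.sum_congr rfl fun i _ => h i, Finset.sum_boole]
  rfl

section field

variable (R : Type) [Field R]

/-- Polynomials of degree at most `d`. -/
def P (m d : ℕ) : Submodule R ((Fin m → Bool) → R) :=
  Submodule.span R (mon R '' {I : Finset (Fin m) | I.card ≤ d})

variable {R}

theorem P_mono {d d' : ℕ} (h : d ≤ d') : P R m d ≤ P R m d' :=
  Submodule.span_mono (Set.image_mono fun _ hI => le_trans hI h)

theorem P_mul {d : ℕ} {f : (Fin m → Bool) → R} (hf : f ∈ P R m d) (i : Fin m) :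
    (fun y => f y * bb R (y i)) ∈ P R m (d + 1) := by
  let L : ((Fin m → Bool) → R) →ₗ[R] ((Fin m → Bool) → R) :=
    { toFun := fun f y => f y * bb R (y i)
      map_add' := fun f g => by funext y; simp [add_mul]
      map_smul' := fun c f => by funext y; simp [mul_assoc] }
  have h1 : P R m d ≤ (P R m (d + 1)).comap L := by
    refine Submodule.span_le.2 ?_
    rintro _ ⟨I, hI, rfl⟩
    have hI' : I.card ≤ d := hI
    refine Submodule.subset_span ⟨insert i I, ?_, ?_⟩
    · show (insert i I).card ≤ d + 1
      exact (Finset.card_insert_le i I).trans (by omega)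
    · funext y
      exact (mon_mul_bb R I i y).symm
  exact h1 hf

theorem P_lin {d : ℕ} {f : (Fin m → Bool) → R} (hf : f ∈ P R m d) (α : R) (β : Fin m → R) :
    (fun y => f y * (α + ∑ i, β i * bb R (y i))) ∈ P R m (d + 1) := by
  have h1 : (fun y => f y * (α + ∑ i, β i * bb R (y i))) =
      α • f + ∑ i, β i • fun y => f y * bb R (y i) := by
    funext y
    simp only [Pi.add_apply, Pi.smul_apply, Finset.sum_apply, smul_eq_mul]
    rw [mul_add, Finset.mul_sum]
    congr 1
    · ring
    · exact Finset.sum_congr rfl fun i _ => by ring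
  rw [h1]
  exact Submodule.add_mem _ (Submodule.smul_mem _ _ (P_mono (Nat.le_succ d) hf))
    (Submodule.sum_mem _ fun i _ => Submodule.smul_mem _ _ (P_mul hf i))

theorem P_prod (x : Fin m → Bool) (n : ℕ) :
    (fun y => ∏ c ∈ range n, ((hammingDist x y : R) - (c + 1))) ∈ P R m n := by
  induction n with
  | zero =>
    refine Submodule.subset_span ⟨∅, by simp, ?_⟩
    funext y
    simp [mon]
  | succ n ih =>
    have h1 := P_lin ih (∑ i, bb R (x i) - (n + 1)) (fun i => 1 - 2 * bb R (x i))
    convert h1 using 1
    funext y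
    rw [prod_range_succ, dist_eq R x y, Finset.sum_add_distrib]
    congr 1
    ring

theorem P_finrank (d : ℕ) : Module.finrank R (P R m d) ≤ ∑ i ∈ range (d + 1), m.choose i := by
  classical
  set s : Finset (Finset (Fin m)) := univ.filter fun I => I.card ≤ d with hs
  have h1 : (mon R '' {I : Finset (Fin m) | I.card ≤ d} : Set ((Fin m → Bool) → R)) =
      ((s.image (mon R) : Finset ((Fin m → Bool) → R)) : Set ((Fin m → Bool) → R)) := by
    ext f
    simp [hs]
  have h2 : s.card = ∑ i ∈ range (d + 1), m.choose i := by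
    rw [Finset.card_eq_sum_card_fiberwise (f := Finset.card) (t := range (d + 1))]
    · refine Finset.sum_congr rfl fun i hi => ?_
      have h3 : (s.filter fun I => I.card = i) = (univ : Finset (Fin m)).powersetCard i := by
        ext I
        simp only [hs, mem_filter, mem_univ, true_and, mem_powersetCard, subset_univ]
        constructor
        · exact fun h => h.2
        · intro h
          exact ⟨by rw [h]; exact Nat.lt_succ_iff.1 (mem_range.1 hi), h⟩
      rw [h3, card_powersetCard, card_univ, Fintype.card_fin]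
    · intro I hI
      have : I.card ≤ d := (mem_filter.1 (Finset.mem_coe.1 hI)).2
      exact Finset.mem_coe.2 (mem_range.2 (Nat.lt_succ_iff.2 this))
  unfold P
  rw [h1, ← h2]
  exact (finrank_span_finset_le_card _).trans Finset.card_image_le

end field

/-- One parity class. -/
theorem class_bound {p : ℕ} [Fact p.Prime] (B : Finset (Fin m → Bool))
    (hB : ∀ x ∈ B, ∀ y ∈ B, x ≠ y → ¬ p ∣ hammingDist x y) :
    B.card ≤ ∑ i ∈ range p, m.choose i := by
  have hp : p.Prime := Fact.out
  set f : B → ((Fin m → Bool) → ZMod p) := fun x y =>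
    ∏ c ∈ range (p - 1), ((hammingDist x.1 y : ZMod p) - (c + 1)) with hf
  have hdiag : ∀ x : B, f x x.1 ≠ 0 := by
    intro x
    rw [hf]
    simp only [hammingDist_self, Nat.cast_zero, zero_sub]
    rw [prod_ne_zero_iff]
    intro c hc h0
    rw [neg_eq_zero] at h0
    have h1 : ((c + 1 : ℕ) : ZMod p) = 0 := by push_cast; exact h0
    rw [ZMod.natCast_eq_zero_iff] at h1
    have h2 := Nat.le_of_dvd (Nat.succ_pos c) h1
    have h3 := mem_range.1 hc
    omega
  have hoff : ∀ x y : B, x ≠ y → f x y.1 = 0 := by
    intro x y hxy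
    have h1 := hB x.1 x.2 y.1 y.2 fun h => hxy (Subtype.ext h)
    set d := hammingDist x.1 y.1 with hd
    have h2 : d % p ≠ 0 := fun h => h1 (Nat.dvd_of_mod_eq_zero h)
    have h3 : d % p < p := Nat.mod_lt _ hp.pos
    rw [hf]
    refine prod_eq_zero (i := d % p - 1) (mem_range.2 (by omega)) ?_
    rw [← hd]
    have h4 : ((d % p - 1 : ℕ) : ZMod p) + 1 = ((d % p : ℕ) : ZMod p) := by
      have : d % p = (d % p - 1) + 1 := by omega
      conv_rhs => rw [this]
      push_cast
      rfl
    rw [h4, ZMod.natCast_mod, sub_self]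
  have hli : LinearIndependent (ZMod p) f := by
    rw [Fintype.linearIndependent_iff]
    intro g hg x
    have h1 := congrFun hg x.1
    simp only [Finset.sum_apply, Pi.smul_apply, smul_eq_mul, Pi.zero_apply] at h1
    rw [Finset.sum_eq_single x (fun y _ hy => by rw [hoff y x hy, mul_zero])
      (fun h => absurd (mem_univ _) h)] at h1
    exact (mul_eq_zero.1 h1).resolve_right (hdiag x)
  have h1 := finrank_span_eq_card hli
  rw [Fintype.card_coe] at h1
  have h2 : Submodule.span (ZMod p) (Set.range f) ≤ P (ZMod p) m (p - 1) := by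
    refine Submodule.span_le.2 ?_
    rintro _ ⟨x, rfl⟩
    exact P_prod x.1 (p - 1)
  have h3 := Submodule.finrank_mono h2
  have h4 := P_finrank (R := ZMod p) (m := m) (p - 1)
  rw [Nat.sub_add_cancel hp.one_le] at h4
  rw [← h1]
  exact h3.trans h4

end FWAux

open FWAux in
theorem stFW : StFW := by
  classical
  intro m p hp hp2 hm A hA
  have : Fact p.Prime := ⟨hp⟩
  have hodd : p % 2 = 1 := hp.eq_two_or_odd.resolve_left hp2
  -- parity of the number of ones
  set par : (Fin m → Bool) → ZMod 2 := fun x => ∑ i, bb (ZMod 2) (x i) with hpar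
  have h2 : (2 : ZMod 2) = 0 := by decide
  have hdist : ∀ x y : Fin m → Bool, (hammingDist x y : ZMod 2) = par x + par y := by
    intro x y
    rw [dist_eq (ZMod 2) x y, hpar]
    simp only [h2, zero_mul, sub_zero, one_mul]
    rw [Finset.sum_add_distrib]
  have key : ∀ B ⊆ A, (∀ x ∈ B, ∀ y ∈ B, par x = par y) →
      B.card ≤ ∑ i ∈ range p, m.choose i := by
    intro B hBA hB
    refine class_bound B fun x hx y hy hxy hdvd => ?_
    have h3 := hdist x y
    rw [hB x hx y hy, ← two_mul, h2, zero_mul, ZMod.natCast_eq_zero_iff] at h3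
    have h4 : hammingDist x y ≤ m := by
      have := hammingDist_le_card_fintype (x := x) (y := y)
      rwa [Fintype.card_fin] at this
    have h5 : 0 < hammingDist x y := hammingDist_pos.2 hxy
    obtain ⟨c, hc⟩ := hdvd
    have h6 : c < 4 := by
      by_contra h
      have : p * 4 ≤ p * c := Nat.mul_le_mul_left p (by omega)
      omega
    have h7 := hA x (hBA hx) y (hBA hy)
    obtain ⟨e, he⟩ := h3
    interval_cases c
    · omega
    · omega
    · omega
    · omega
  have h3 : A.card = (A.filter fun x => par x = 0).card + (A.filter fun x => ¬ par x = 0).card :=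
    (Finset.card_filter_add_card_filter_not _).symm
  have h4 := key (A.filter fun x => par x = 0) (filter_subset _ _) (by
    intro x hx y hy
    rw [(mem_filter.1 hx).2, (mem_filter.1 hy).2])
  have h5 := key (A.filter fun x => ¬ par x = 0) (filter_subset _ _) (by
    intro x hx y hy
    have h6 : ∀ z : ZMod 2, ¬ z = 0 → z = 1 := by decide
    rw [h6 _ (mem_filter.1 hx).2, h6 _ (mem_filter.1 hy).2])
  omega

end Pool.Agent.Lib.MP_cff830_lc.SDP
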