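import Pool.Agent.Lib.MP_cff830_lc.SDP.Stmts

/-!
(A7) the repair by a fixed point in power series.
-/

set_option autoImplicit false

namespace Pool.Agent.Lib.MP_cff830_lc.SDP

open Finset

namespace FixAux

theorem tsum_geo {q : ℝ} (hq : |q| < 1) : ∑' j : ℕ, q ^ (j + 1) = q / (1 - q) := by
  have h1 : ∑' j : ℕ, q ^ (j + 1) = ∑' j : ℕ, q * q ^ j := tsum_congr fun j => pow_succ' q j
  rw [h1, tsum_mul_left, tsum_geometric_of_abs_lt_one hq, div_eq_mul_inv]

theorem summable_geo {q : ℝ} (hq : |q| < 1) : Summable fun j : ℕ => q ^ (j + 1) := by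
  have h1 := (summable_geometric_of_abs_lt_one hq).mul_left q
  exact h1.congr fun j => (pow_succ' q j).symm

end FixAux

open FixAux in
theorem stFix : StFix := by
  intro h g e h₀ c η hg he hη hηh hh
  have h0 : 0 < h₀ := hη.trans hηh
  have hA : 0 < h₀ - η := sub_pos.2 hηh
  have hD : 0 < h₀ + 2 * η := by linarith
  have hq : |h₀⁻¹ * η| < 1 := by
    rw [abs_of_nonneg (by positivity), inv_mul_lt_one₀ h0]
    exact hηh
  set A := (h₀ - η) / η with hAdef
  have hA0 : 0 ≤ A := by positivity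
  set w : ℝ → ℝ := fun x => A * ∑' j : ℕ, (h₀⁻¹ * e x) ^ (j + 1) with hw
  have hNw : NN w 1 := by
    have h1 : NN w (A * ∑' j : ℕ, (h₀⁻¹ * η) ^ (j + 1)) :=
      (NN.tsum (fun j => (he.smul (inv_nonneg.2 h0.le)).pow (j + 1)) (summable_geo hq)).smul hA0
    have h2 : A * ∑' j : ℕ, (h₀⁻¹ * η) ^ (j + 1) = 1 := by
      rw [tsum_geo hq, hAdef]
      have h3 : h₀ - η ≠ 0 := hA.ne'
      have h4 : 1 - h₀⁻¹ * η ≠ 0 := by
        rw [show 1 - h₀⁻¹ * η = (h₀ - η) / h₀ by field_simp]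
        positivity
      field_simp
    rwa [h2] at h1
  refine ⟨w, _, hNw, ((hg.smul (s := 1 - 3 * η / (h₀ + 2 * η)) ?_).add
    ((hg.mul hNw).smul (s := η / (h₀ + 2 * η)) (by positivity))).congr fun x hx => ?_⟩
  · rw [show 1 - 3 * η / (h₀ + 2 * η) = (h₀ - η) / (h₀ + 2 * η) by field_simp; ring]
    positivity
  · have hex := he.abs_le hx
    have hqx : |h₀⁻¹ * e x| < 1 := by
      rw [abs_mul, abs_of_pos (inv_pos.2 h0), inv_mul_lt_one₀ h0]
      exact hex.trans_lt hηh
    have hwx : w x = A * (h₀⁻¹ * e x / (1 - h₀⁻¹ * e x)) := by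
      rw [hw]
      simp only
      rw [tsum_geo hqx]
    have h5 : 0 < h₀ - e x := by
      have := (abs_le.1 hex).2
      linarith
    have h6 : (h₀ - e x) * w x = A * e x := by
      rw [hwx]
      have h7 : 1 - h₀⁻¹ * e x ≠ 0 := by
        rw [show 1 - h₀⁻¹ * e x = (h₀ - e x) / h₀ by field_simp]
        positivity
      have h8 : h₀ - e x ≠ 0 := h5.ne'
      field_simp
    have h9 : η * A = h₀ - η := by
      rw [hAdef]
      field_simp
    rw [hh x hx]
    field_simp
    linear_combination η * h6 + e x * h9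

end Pool.Agent.Lib.MP_cff830_lc.SDP
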