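import Pool.Agent.Lib.MP_cff830_lc.SDP.Stmts

/-!
(C5) vectors with given inner products.
-/

set_option autoImplicit false

namespace Pool.Agent.Lib.MP_cff830_lc.SDP

open Finset MeasureTheory Real
open scoped InnerProductSpace

namespace GramAux

open scoped MatrixOrder in
/-- A square root of a positive semidefinite real matrix. -/
lemma exists_sqrt {ι : Type} [Fintype ι] [DecidableEq ι] {M : Matrix ι ι ℝ} (hM : M.PosSemidef) :
    ∃ X : Matrix ι ι ℝ, ∀ x y, ∑ i, X i x * X i y = M x y := by
  obtain ⟨X, hX, -, hXX⟩ := CFC.exists_sqrt_of_isSelfAdjoint_of_quasispectrumRestricts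
    hM.isHermitian (QuasispectrumRestricts.nnreal_of_nonneg hM.nonneg)
  refine ⟨X, fun x y => ?_⟩
  rw [← hXX, Matrix.mul_apply]
  refine Finset.sum_congr rfl fun i _ => ?_
  have h1 : X.conjTranspose = X := hX.star_eq
  have h2 : X i x = X x i := by
    have := congrFun (congrFun h1 i) x
    rw [Matrix.conjTranspose_apply] at this
    simpa using this.symm
  rw [h2]

end GramAux

open GramAux in
theorem stGram : StGram := by
  intro j V _ K hK hsym S hS
  classical
  set M : Matrix S S ℝ := fun x y => K x y with hMdef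
  have hM : M.PosSemidef := by
    refine Matrix.PosSemidef.of_dotProduct_mulVec_nonneg ?_ ?_
    · ext x y
      rw [Matrix.conjTranspose_apply]
      simp [hMdef, hsym]
    · intro c
      have h1 := hK fun x => if h : x ∈ S then c ⟨x, h⟩ else 0
      have h2 : ∀ f : V → ℝ, (∀ x, x ∉ S → f x = 0) → ∑ x, f x = ∑ x : S, f x := by
        intro f hf
        rw [Finset.sum_coe_sort S f]
        exact (Finset.sum_subset (Finset.subset_univ S) fun x _ hx => hf x hx).symm
      have h3 : (∑ x, ∑ y, (if h : x ∈ S then c ⟨x, h⟩ else 0) *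
          (if h : y ∈ S then c ⟨y, h⟩ else 0) * K x y) = star c ⬝ᵥ (M.mulVec c) := by
        rw [h2 _ (fun x hx => by simp [hx])]
        unfold dotProduct Matrix.mulVec dotProduct
        refine Finset.sum_congr rfl fun x _ => ?_
        rw [h2 _ (fun y hy => by simp [hy]), Finset.mul_sum]
        refine Finset.sum_congr rfl fun y _ => ?_
        simp only [Finset.coe_mem, dif_pos, Subtype.coe_eta, Pi.star_apply, star_trivial, hMdef]
        ring
      rw [← h3]
      exact h1
  obtain ⟨X, hX⟩ := exists_sqrt hM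
  have hcard : Fintype.card S ≤ Fintype.card (Fin 2 ⊕ Fin (2 * j)) := by
    simp only [Fintype.card_coe, Fintype.card_sum, Fintype.card_fin]
    omega
  obtain ⟨f⟩ := Function.Embedding.nonempty_of_card_le hcard
  have ho : Orthonormal ℝ fun i : S => EuclideanSpace.basisFun (Fin 2 ⊕ Fin (2 * j)) ℝ (f i) :=
    (EuclideanSpace.basisFun (Fin 2 ⊕ Fin (2 * j)) ℝ).orthonormal.comp f f.injective
  refine ⟨fun x => if h : x ∈ S then
    ∑ i : S, X i ⟨x, h⟩ • EuclideanSpace.basisFun (Fin 2 ⊕ Fin (2 * j)) ℝ (f i) else 0, ?_⟩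
  intro x hx y hy
  simp only [hx, hy, dif_pos]
  rw [ho.inner_sum]
  have := hX ⟨x, hx⟩ ⟨y, hy⟩
  simpa [hMdef] using this

end Pool.Agent.Lib.MP_cff830_lc.SDP
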