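import Pool.Agent.Lib.MP_cff830_lc.SDP.Stmts

/-!
# (A6) the kernel is almost a power series with non-negative coefficients
-/

set_option autoImplicit false

namespace Pool.Agent.Lib.MP_cff830_lc.SDP

open Finset MeasureTheory Real

namespace KerAux

theorem tan_half {z : ℝ} (h1 : -1 ≤ z) (h2 : z ≤ 1) :
    tan (arccos z / 2) = √(1 - z) * (√(1 + z))⁻¹ := by
  have hc : cos (arccos z / 2) = √((1 + z) / 2) := by
    rw [Real.cos_half (by linarith [Real.arccos_nonneg z, Real.pi_pos]) (Real.arccos_le_pi z),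
      Real.cos_arccos h1 h2]
  have hs : sin (arccos z / 2) = √((1 - z) / 2) := by
    rw [Real.sin_half_eq_sqrt (Real.arccos_nonneg z)
      (by linarith [Real.arccos_le_pi z, Real.pi_pos]), Real.cos_arccos h1 h2]
  rw [Real.tan_eq_sin_div_cos, hc, hs, Real.sqrt_div (by linarith), Real.sqrt_div (by linarith)]
  have : √(2 : ℝ) ≠ 0 := by positivity
  rw [div_div_div_cancel_right₀ this, div_eq_mul_inv]

theorem arccos_half_le {t z : ℝ} (h0 : 0 ≤ t) (h1 : t ≤ 1) (hz : 2 * t ^ 2 - 1 ≤ z) :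
    arccos z / 2 ≤ arccos t := by
  have h2 : arccos (2 * t ^ 2 - 1) = 2 * arccos t := by
    have h3 : cos (2 * arccos t) = 2 * t ^ 2 - 1 := by
      rw [Real.cos_two_mul, Real.cos_arccos (by linarith) h1]
    rw [← h3]
    refine Real.arccos_cos (by linarith [Real.arccos_nonneg t]) ?_
    have := Real.arccos_le_pi_div_two.2 h0
    linarith
  have h3 := Real.arccos_le_arccos hz
  linarith

theorem binom_sum (n : ℕ) : ∑ l ∈ range n, (n.choose (l + 1) : ℝ) * 144 ^ (l + 1) ≤ 145 ^ n := by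
  have h1 := add_pow (144 : ℝ) 1 n
  norm_num at h1
  rw [Finset.sum_range_succ'] at h1
  rw [h1]
  have h2 : ∑ l ∈ range n, (n.choose (l + 1) : ℝ) * 144 ^ (l + 1) =
      ∑ k ∈ range n, (144 : ℝ) ^ (k + 1) * (n.choose (k + 1) : ℝ) :=
    Finset.sum_congr rfl fun l _ => mul_comm _ _
  rw [h2]
  have : (0 : ℝ) ≤ 144 ^ 0 * (n.choose 0 : ℝ) := by positivity
  linarith

end KerAux

open KerAux in
theorem stKer (hB : StBin) (hA : StAsin) (hP : StPf) (hT : StTan) : StKer := by
  intro n r hr hr1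
  obtain ⟨hN, hmin, ht0, htle, hinv⟩ := hP r hr hr1
  set t := tF r with ht
  have ht1 : t < 1 := by
    have h1 : √(1 - r) < 1 / 2 := by
      rw [Real.sqrt_lt' (by norm_num)]
      norm_num
      linarith
    linarith
  have htsq : 2 * t ^ 2 - 1 = Pf r (-r) := by
    have h1 : 0 ≤ (1 + Pf r (-r)) / 2 := by
      by_contra h
      have : t = 0 := by
        rw [ht]; unfold tF
        exact Real.sqrt_eq_zero_of_nonpos (by linarith)
      linarith
    have h2 : t ^ 2 = (1 + Pf r (-r)) / 2 := by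
      rw [ht]; unfold tF
      exact Real.sq_sqrt h1
    rw [h2]; ring
  obtain ⟨α, hα, hint⟩ := hT n t ht0 ht1
  have hQ : BN (fun x => √(1 - Pf r x) * (√(1 + Pf r x))⁻¹) (12 / t) := by
    refine ((hB.2.2.2 (Pf r) hN).mul hinv).mono (le_of_eq ?_)
    ring
  have hS : BN (fun x => ∑ l ∈ range n, (1 / π * α l) *
      (√(1 - Pf r x) * (√(1 + Pf r x))⁻¹) ^ (2 * l + 1)) (t * 145 ^ n) := by
    refine (BN.sum (range n) (C := fun l => |1 / π * α l| * (12 / t) ^ (2 * l + 1))
      fun l _ => (hQ.pow (2 * l + 1)).smul (1 / π * α l)).mono ?_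
    have h1 : ∀ l ∈ range n, |1 / π * α l| * (12 / t) ^ (2 * l + 1) ≤
        t * ((n.choose (l + 1) : ℝ) * 144 ^ (l + 1)) := by
      intro l _
      have hpi : 1 / π ≤ 1 := by
        rw [div_le_one Real.pi_pos]
        linarith [Real.pi_gt_three]
      have h2 : |1 / π * α l| ≤ (n.choose (l + 1) : ℝ) * t ^ (2 * l + 2) := by
        rw [abs_mul, abs_of_pos (by positivity : (0 : ℝ) < 1 / π)]
        calc 1 / π * |α l| ≤ 1 * |α l| := by gcongr
          _ ≤ _ := by rw [one_mul]; exact hα l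
      calc |1 / π * α l| * (12 / t) ^ (2 * l + 1)
          ≤ ((n.choose (l + 1) : ℝ) * t ^ (2 * l + 2)) * (12 / t) ^ (2 * l + 1) := by gcongr
        _ = t * ((n.choose (l + 1) : ℝ) * 12 ^ (2 * l + 1)) := by
          rw [div_pow]
          have : t ^ (2 * l + 2) = t * t ^ (2 * l + 1) := by ring
          rw [this]
          field_simp
        _ ≤ t * ((n.choose (l + 1) : ℝ) * 144 ^ (l + 1)) := by
          have : (12 : ℝ) ^ (2 * l + 1) ≤ 144 ^ (l + 1) := by
            have h3 : (144 : ℝ) ^ (l + 1) = 12 ^ (2 * l + 2) := by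
              rw [show (144 : ℝ) = 12 ^ 2 by norm_num, ← pow_mul]
              congr 1
            rw [h3]
            exact pow_le_pow_right₀ (by norm_num) (by omega)
          gcongr
    refine (Finset.sum_le_sum h1).trans ?_
    rw [← Finset.mul_sum]
    gcongr
    exact binom_sum n
  obtain ⟨G, H, c₁, c₂, hG, hH, hc, hGH⟩ := hS
  have hH0 := hH.nonneg
  refine ⟨fun x => 1 / (2 * π) * arcsin (Pf r x) + H x, G, 1 / (2 * π) * (π / 2) + c₂, c₁,
    ((hA (Pf r) hN).smul (by positivity)).add hH, hG, by linarith, fun x hx => ?_⟩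
  have hz := abs_le.1 (hN.abs_le hx)
  have hz1 : 2 * t ^ 2 - 1 ≤ Pf r x := by rw [htsq]; exact hmin x hx
  have hθ0 : 0 ≤ arccos (Pf r x) / 2 := by linarith [Real.arccos_nonneg (Pf r x)]
  have hθ1 := arccos_half_le ht0.le ht1.le hz1
  have e1 := hint _ hθ0 hθ1
  have e2 := hGH x hx
  have e3 : pairF n t 1 = 1 / π * ∫ v in (0 : ℝ)..(arccos t), (1 - t ^ 2 / cos v ^ 2) ^ n := by
    unfold pairF
    rw [Real.arccos_one, zero_div]
  have e4 : arccos (Pf r x) = π / 2 - arcsin (Pf r x) := rfl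
  unfold pairF at e3 ⊢
  rw [e1, e3, tan_half hz.1 hz.2]
  have e5 : 1 / π * ∑ l ∈ range n, α l * (√(1 - Pf r x) * (√(1 + Pf r x))⁻¹) ^ (2 * l + 1) =
      G x - H x := by
    rw [← e2, Finset.mul_sum]
    exact Finset.sum_congr rfl fun l _ => by ring
  rw [mul_sub, mul_sub, e5, e4]
  have hpi : π ≠ 0 := Real.pi_ne_zero
  field_simp
  ring

end Pool.Agent.Lib.MP_cff830_lc.SDP
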