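import Pool.Agent.Lib.MP_cff830_lc.SDP.Stmts

/-! (A5) bounds for the marginal probability. -/

set_option autoImplicit false

namespace Pool.Agent.Lib.MP_cff830_lc.SDP

open Finset MeasureTheory Real

namespace Plo

theorem cos_ge {t v : ℝ} (ht : 0 < t) (ht1 : t < 1) (hv : v ∈ Set.Icc 0 (arccos t)) :
    t ≤ cos v := by
  have h1 : cos (arccos t) = t := cos_arccos (by linarith) ht1.le
  rw [← h1]
  exact cos_le_cos_of_nonneg_of_le_pi hv.1 (arccos_le_pi t) hv.2

theorem ratio {t v : ℝ} (ht : 0 < t) (ht1 : t < 1) (hv : v ∈ Set.Icc 0 (arccos t)) :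
    0 ≤ t ^ 2 / cos v ^ 2 ∧ t ^ 2 / cos v ^ 2 ≤ 1 := by
  have h1 := cos_ge ht ht1 hv
  have h2 : 0 < cos v := lt_of_lt_of_le ht h1
  refine ⟨by positivity, ?_⟩
  rw [div_le_one (by positivity)]
  exact pow_le_pow_left₀ ht.le h1 2

theorem cont {t : ℝ} (ht : 0 < t) (ht1 : t < 1) :
    ContinuousOn (fun v => t ^ 2 / cos v ^ 2) (Set.Icc 0 (arccos t)) := by
  refine ContinuousOn.div continuousOn_const (continuous_cos.pow 2).continuousOn fun v hv => ?_
  have h1 := cos_ge ht ht1 hv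
  have h2 : 0 < cos v := lt_of_lt_of_le ht h1
  positivity

theorem int_inv {t : ℝ} (ht : 0 < t) (ht1 : t < 1) :
    ∫ v in (0 : ℝ)..(arccos t), t ^ 2 / cos v ^ 2 = t ^ 2 * (√(1 - t ^ 2) / t) := by
  have h0 : Set.uIcc 0 (arccos t) = Set.Icc 0 (arccos t) := Set.uIcc_of_le (arccos_nonneg t)
  have h1 : ∀ v ∈ Set.uIcc 0 (arccos t),
      HasDerivAt (fun v => t ^ 2 * tan v) (t ^ 2 / cos v ^ 2) v := by
    intro v hv
    rw [h0] at hv
    have h2 : cos v ≠ 0 := (lt_of_lt_of_le ht (cos_ge ht ht1 hv)).ne'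
    have h3 := (hasDerivAt_tan h2).const_mul (t ^ 2)
    rwa [mul_one_div] at h3
  rw [intervalIntegral.integral_eq_sub_of_hasDerivAt h1]
  · rw [tan_zero, mul_zero, sub_zero, tan_arccos]
  · apply ContinuousOn.intervalIntegrable
    rw [h0]
    exact cont ht ht1

end Plo

theorem stPlo : StPlo := by
  intro n t ht ht1
  have hpi := pi_pos
  have hT0 : 0 ≤ arccos t := arccos_nonneg t
  have hT1 : arccos t ≤ π / 2 := arccos_le_pi_div_two.2 ht.le
  have hc := Plo.cont ht ht1
  have hu : Set.uIcc 0 (arccos t) = Set.Icc 0 (arccos t) := Set.uIcc_of_le hT0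
  have hi : IntervalIntegrable (fun v => (1 - t ^ 2 / cos v ^ 2) ^ n) volume 0 (arccos t) := by
    apply ContinuousOn.intervalIntegrable
    rw [hu]
    exact (continuousOn_const.sub hc).pow n
  have hi' : IntervalIntegrable (fun v => 1 - n * (t ^ 2 / cos v ^ 2)) volume 0 (arccos t) := by
    apply ContinuousOn.intervalIntegrable
    rw [hu]
    exact continuousOn_const.sub (continuousOn_const.mul hc)
  have hi2 : IntervalIntegrable (fun v => t ^ 2 / cos v ^ 2) volume 0 (arccos t) := by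
    apply ContinuousOn.intervalIntegrable
    rw [hu]
    exact hc
  unfold pairF
  rw [arccos_one, zero_div]
  constructor
  · have h1 : ∫ v in (0 : ℝ)..(arccos t), (1 - n * (t ^ 2 / cos v ^ 2)) ≤
        ∫ v in (0 : ℝ)..(arccos t), (1 - t ^ 2 / cos v ^ 2) ^ n := by
      refine intervalIntegral.integral_mono_on hT0 hi' hi fun v hv => ?_
      obtain ⟨h2, h3⟩ := Plo.ratio ht ht1 hv
      have h4 := one_add_mul_le_pow (a := -(t ^ 2 / cos v ^ 2)) (by linarith) n
      calc 1 - n * (t ^ 2 / cos v ^ 2) = 1 + n * -(t ^ 2 / cos v ^ 2) := by ring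
        _ ≤ (1 + -(t ^ 2 / cos v ^ 2)) ^ n := h4
        _ = (1 - t ^ 2 / cos v ^ 2) ^ n := by rw [sub_eq_add_neg]
    have h2 : ∫ v in (0 : ℝ)..(arccos t), (1 - n * (t ^ 2 / cos v ^ 2)) =
        arccos t - n * (t ^ 2 * (√(1 - t ^ 2) / t)) := by
      rw [intervalIntegral.integral_sub intervalIntegrable_const (hi2.const_mul _),
        intervalIntegral.integral_const_mul, Plo.int_inv ht ht1]
      simp
    have h3 : √(1 - t ^ 2) ≤ 1 := by
      rw [Real.sqrt_le_one]
      nlinarith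
    have h4 : t ^ 2 * (√(1 - t ^ 2) / t) ≤ t := by
      have : t ^ 2 * (√(1 - t ^ 2) / t) = t * √(1 - t ^ 2) := by
        field_simp
      rw [this]
      exact mul_le_of_le_one_right ht.le h3
    have h5 : arcsin t ≤ 2 * t := by
      have h6 := mul_le_sin (arcsin_nonneg.2 ht.le) (arcsin_le_pi_div_two t)
      rw [sin_arcsin (by linarith) ht1.le] at h6
      have h7 : arcsin t ≤ π / 2 * t := by
        have := mul_le_mul_of_nonneg_left h6 (by positivity : 0 ≤ π / 2)
        have h8 : π / 2 * (2 / π * arcsin t) = arcsin t := by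
          field_simp
        rwa [h8] at this
      have h9 := pi_le_four
      nlinarith
    have h6 : arccos t = π / 2 - arcsin t := rfl
    have h7 : (n : ℝ) * (t ^ 2 * (√(1 - t ^ 2) / t)) ≤ n * t :=
      mul_le_mul_of_nonneg_left h4 (Nat.cast_nonneg n)
    have h8 : π / 2 - (n + 2) * t ≤ ∫ v in (0 : ℝ)..(arccos t), (1 - t ^ 2 / cos v ^ 2) ^ n := by
      rw [h2] at h1
      linarith
    have h9 : 1 / π * (π / 2 - (n + 2) * t) ≤
        1 / π * ∫ v in (0 : ℝ)..(arccos t), (1 - t ^ 2 / cos v ^ 2) ^ n :=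
      mul_le_mul_of_nonneg_left h8 (by positivity)
    refine le_trans ?_ h9
    have h10 : 1 / π * (π / 2 - (n + 2) * t) = 1 / 2 - (n + 2) * t * (1 / π) := by
      field_simp
    rw [h10]
    have h11 : 1 / π ≤ 1 := by
      rw [div_le_one hpi]
      linarith [pi_gt_three]
    have h12 : (n + 2) * t * (1 / π) ≤ (n + 2) * t := mul_le_of_le_one_right (by positivity) h11
    linarith
  · have h1 : ∫ v in (0 : ℝ)..(arccos t), (1 - t ^ 2 / cos v ^ 2) ^ n ≤
        ∫ v in (0 : ℝ)..(arccos t), (1 : ℝ) := by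
      refine intervalIntegral.integral_mono_on hT0 hi intervalIntegrable_const fun v hv => ?_
      obtain ⟨h2, h3⟩ := Plo.ratio ht ht1 hv
      exact pow_le_one₀ (by linarith) (by linarith)
    rw [intervalIntegral.integral_const, smul_eq_mul, mul_one, sub_zero] at h1
    have h2 : 1 / π * ∫ v in (0 : ℝ)..(arccos t), (1 - t ^ 2 / cos v ^ 2) ^ n ≤ 1 / π * (π / 2) :=
      mul_le_mul_of_nonneg_left (h1.trans hT1) (by positivity)
    refine h2.trans (le_of_eq ?_)
    field_simp

end Pool.Agent.Lib.MP_cff830_lc.SDP
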