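import Pool.Agent.Lib.MP_cff830_lc.SDP.Stmts

/-!
# The Sherali-Adams SDP hierarchy for vertex cover: assembly
-/

set_option autoImplicit false

namespace Pool.Agent.Lib.MP_cff830_lc.SDP

open Finset Real

namespace TopAux

section

variable {V : Type} [DecidableEq V]

/-- The family of the complements. -/
noncomputable def comp (μ : Finset V → Finset V → ℝ) (S U : Finset V) : ℝ :=
  if U ⊆ S then μ S (S \ U) else 0

lemma sum_comp (S : Finset V) (f : Finset V → ℝ) :
    ∑ U ∈ S.powerset, f (S \ U) = ∑ U ∈ S.powerset, f U := by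
  refine Finset.sum_nbij' (fun U => S \ U) (fun U => S \ U) ?_ ?_ ?_ ?_ ?_
  · exact fun U _ => Finset.mem_powerset.mpr Finset.sdiff_subset
  · exact fun U _ => Finset.mem_powerset.mpr Finset.sdiff_subset
  · intro U hU
    exact Finset.sdiff_sdiff_eq_self (Finset.mem_powerset.mp hU)
  · intro U hU
    exact Finset.sdiff_sdiff_eq_self (Finset.mem_powerset.mp hU)
  · intro U _
    rfl

lemma comp_total {k : ℕ} {μ : Finset V → Finset V → ℝ} (h : IsLoc k μ) (S : Finset V)
    (hS : S.card ≤ k) : ∑ U ∈ S.powerset, comp μ S U = 1 := by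
  rw [← h.total S hS, ← sum_comp S (fun U => μ S U)]
  refine Finset.sum_congr rfl fun U hU => ?_
  rw [comp, if_pos (Finset.mem_powerset.mp hU)]

lemma comp_cons {k : ℕ} {μ : Finset V → Finset V → ℝ} (h : IsLoc k μ) (S T : Finset V)
    (hST : S ⊆ T) (hT : T.card ≤ k) (U : Finset V) (hU : U ⊆ S) :
    comp μ S U = ∑ W ∈ T.powerset with W ∩ S = U, comp μ T W := by
  rw [comp, if_pos hU, h.cons S T hST hT (S \ U) Finset.sdiff_subset]
  refine Finset.sum_nbij' (fun W => T \ W) (fun W => T \ W) ?_ ?_ ?_ ?_ ?_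
  · intro W hW
    obtain ⟨h1, h2⟩ := Finset.mem_filter.mp hW
    refine Finset.mem_filter.mpr ⟨Finset.mem_powerset.mpr Finset.sdiff_subset, ?_⟩
    ext x
    have h3 : x ∈ W ∩ S ↔ x ∈ S \ U := by rw [h2]
    simp only [Finset.mem_inter, Finset.mem_sdiff] at h3 ⊢
    have h4 := @hST x
    have h5 := @hU x
    tauto
  · intro W hW
    obtain ⟨h1, h2⟩ := Finset.mem_filter.mp hW
    refine Finset.mem_filter.mpr ⟨Finset.mem_powerset.mpr Finset.sdiff_subset, ?_⟩
    ext x
    have h3 : x ∈ W ∩ S ↔ x ∈ U := by rw [h2]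
    simp only [Finset.mem_inter, Finset.mem_sdiff] at h3 ⊢
    have h4 := @hST x
    have h5 := @hU x
    tauto
  · intro W hW
    exact Finset.sdiff_sdiff_eq_self (Finset.mem_powerset.mp (Finset.mem_filter.mp hW).1)
  · intro W hW
    exact Finset.sdiff_sdiff_eq_self (Finset.mem_powerset.mp (Finset.mem_filter.mp hW).1)
  · intro W hW
    rw [comp, if_pos Finset.sdiff_subset,
      Finset.sdiff_sdiff_eq_self (Finset.mem_powerset.mp (Finset.mem_filter.mp hW).1)]

lemma single_empty {k : ℕ} {μ : Finset V → Finset V → ℝ} (h : IsLoc k μ) (hk : 1 ≤ k) (x : V) :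
    μ {x} ∅ = 1 - μ {x} {x} := by
  have h1 := h.total {x} (by rw [Finset.card_singleton]; exact hk)
  rw [← insert_empty_eq x, Finset.sum_powerset_insert (Finset.notMem_empty x),
    Finset.powerset_empty, Finset.sum_singleton, Finset.sum_singleton, insert_empty_eq] at h1
  linarith

lemma pair_empty {k : ℕ} {μ : Finset V → Finset V → ℝ} (h : IsLoc k μ) (hk : 2 ≤ k) (x y : V) :
    μ {x, y} ∅ = 1 - μ {x} {x} - μ {y} {y} + μ {x, y} {x, y} := by
  by_cases hxy : x = y
  · subst hxy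
    rw [Finset.pair_eq_singleton, single_empty h (by omega) x]
    ring
  have hc : ({x, y} : Finset V).card ≤ k := by
    rw [Finset.card_pair hxy]
    exact hk
  have h1 := h.total {x, y} hc
  have h2 := h.cons {x} {x, y} (by simp) hc {x} subset_rfl
  have h3 := h.cons {y} {x, y} (by simp) hc {y} subset_rfl
  have hx : x ∉ ({y} : Finset V) := by simpa using hxy
  have key : ∀ f : Finset V → ℝ, ∑ W ∈ ({x, y} : Finset V).powerset, f W =
      f ∅ + f {y} + f {x} + f {x, y} := by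
    intro f
    rw [Finset.sum_powerset_insert hx, ← insert_empty_eq y,
      Finset.sum_powerset_insert (Finset.notMem_empty y),
      Finset.sum_powerset_insert (Finset.notMem_empty y), Finset.powerset_empty,
      Finset.sum_singleton, Finset.sum_singleton, Finset.sum_singleton, Finset.sum_singleton,
      insert_empty_eq, insert_empty_eq]
    ring
  rw [Finset.sum_filter, key] at h2 h3
  rw [key] at h1
  have e1 : ∅ ∩ ({x} : Finset V) ≠ {x} := by simp
  have e2 : ({y} : Finset V) ∩ {x} ≠ {x} := by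
    intro h5
    have : x ∈ ({y} : Finset V) ∩ {x} := by rw [h5]; simp
    simp only [Finset.mem_inter, Finset.mem_singleton] at this
    exact hxy this.1
  have e3 : ({x} : Finset V) ∩ {x} = {x} := by simp
  have e4 : ({x, y} : Finset V) ∩ {x} = {x} := by
    ext z
    simp only [Finset.mem_inter, Finset.mem_insert, Finset.mem_singleton]
    tauto
  have f1 : ∅ ∩ ({y} : Finset V) ≠ {y} := by simp
  have f2 : ({x} : Finset V) ∩ {y} ≠ {y} := by
    intro h5
    have : y ∈ ({x} : Finset V) ∩ {y} := by rw [h5]; simp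
    simp only [Finset.mem_inter, Finset.mem_singleton] at this
    exact hxy this.1.symm
  have f3 : ({y} : Finset V) ∩ {y} = {y} := by simp
  have f4 : ({x, y} : Finset V) ∩ {y} = {y} := by
    ext z
    simp only [Finset.mem_inter, Finset.mem_insert, Finset.mem_singleton]
    tauto
  rw [if_neg e1, if_neg e2, if_pos e3, if_pos e4] at h2
  rw [if_neg f1, if_pos f3, if_neg f2, if_pos f4] at h3
  linarith

end

lemma abs_rho {m : ℕ} (hm : 1 ≤ m) (x y : Fin m → Bool) : |rho x y| ≤ 1 := by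
  have hm' : (0 : ℝ) < m := by exact_mod_cast hm
  have h1 : (hammingDist x y : ℝ) ≤ m := by
    have h2 := hammingDist_le_card_fintype (x := x) (y := y)
    rw [Fintype.card_fin] at h2
    exact_mod_cast h2
  have h3 : 0 ≤ 2 * (hammingDist x y : ℝ) / m := by positivity
  have h4 : 2 * (hammingDist x y : ℝ) / m ≤ 2 := by
    rw [div_le_iff₀ hm']
    linarith
  rw [rho, abs_le]
  constructor <;> linarith

lemma rho_self {m : ℕ} (x : Fin m → Bool) : rho x x = 1 := by
  rw [rho, hammingDist_self]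
  simp

lemma rho_comm {m : ℕ} (x y : Fin m → Bool) : rho x y = rho y x := by
  rw [rho, rho, hammingDist_comm]

/-- The numbers. -/
lemma num {ε p δ δ₀ : ℝ} (h0 : 0 < ε) (h1 : ε < 1) (hp : 1 / 2 - ε / 128 ≤ p) (hp' : p ≤ 1 / 2)
    (hδ : 0 ≤ δ) (hδ' : δ ≤ ε / 3) (hδ₀ : δ₀ = ((1 / 2 - p) / p) ^ 2) :
    0 ≤ δ₀ ∧ δ₀ ≤ 1 ∧ ((1 - δ₀) * ((1 - δ / 2) * p)) ^ 2 ≤
      (1 - δ₀) * ((1 - 3 * δ / 4) * (p - 1 / 4)) ∧
    1 / 2 - ε ≤ (1 - δ₀) * ((1 - δ / 2) * p) := by
  have hp0 : 0 < p := by linarith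
  have e0 : 0 ≤ (1 / 2 - p) / p := div_nonneg (by linarith) hp0.le
  have e1 : (1 / 2 - p) / p ≤ ε / 60 := by
    rw [div_le_iff₀ hp0]
    nlinarith only [h0, h1, hp]
  have e2 : δ₀ ≤ ε / 60 := by
    rw [hδ₀]
    nlinarith only [e0, e1, h0, h1]
  have e3 : 0 ≤ δ₀ := by rw [hδ₀]; positivity
  have e4 : δ₀ * p ^ 2 = (1 / 2 - p) ^ 2 := by
    rw [hδ₀, div_pow]
    field_simp
  refine ⟨e3, by linarith, ?_, ?_⟩
  · have e5 : (1 - δ₀) * p ^ 2 = p - 1 / 4 := by
      linear_combination -e4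
    have e6 : (1 - δ / 2) ^ 2 ≤ 1 - 3 * δ / 4 := by nlinarith only [hδ, hδ', h1]
    have e7 : ((1 - δ₀) * ((1 - δ / 2) * p)) ^ 2 =
        (1 - δ₀) * ((1 - δ / 2) ^ 2 * ((1 - δ₀) * p ^ 2)) := by ring
    rw [e7, e5]
    refine mul_le_mul_of_nonneg_left ?_ (by linarith)
    exact mul_le_mul_of_nonneg_right e6 (by linarith)
  · have e8 : (1 - ε / 60) * ((1 - ε / 6) * (1 / 2 - ε / 128)) ≤
        (1 - δ₀) * ((1 - δ / 2) * p) := by
      refine mul_le_mul (by linarith) ?_ (by nlinarith only [h0, h1]) (by linarith)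
      exact mul_le_mul (by linarith) hp (by linarith) (by linarith)
    nlinarith only [e8, h0, h1, sq_nonneg ε, mul_pos h0 h0, mul_pos (mul_pos h0 h0) h0]

end TopAux

open TopAux in
theorem stTop (hPf : StPf) (hPlo : StPlo) (hKer : StKer) (hFix : StFix) (hPsd : StPsd)
    (hSign : StSign) (hFW : StFW) (hCnt : StCnt) (hPar : StPar) (hMix : StMix) (hBall : StBall) :
    StTop := by
  intro ε₁ hε₁
  set ε : ℝ := min ε₁ (1 / 2) with hε
  have h0 : 0 < ε := lt_min hε₁ (by norm_num)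
  have h1 : ε < 1 := lt_of_le_of_lt (min_le_right _ _) (by norm_num)
  have hεε : ε ≤ ε₁ := min_le_left _ _
  obtain ⟨C, hC⟩ := hPar ε h0 h1
  refine ⟨C, ?_⟩
  intro k hk
  obtain ⟨p, j', hp, hp2, hj, hjp, hcnt, hm⟩ := hC k hk
  obtain ⟨j, rfl⟩ : ∃ j, k = j + 1 := ⟨k - 1, by omega⟩
  set k := j + 1 with hkdef
  set m := 2 * p + j' with hmdef
  have hppos : 0 < p := hp.pos
  have hp' : (0 : ℝ) < p := by exact_mod_cast hppos
  have hj' : (1 : ℝ) ≤ j' := by exact_mod_cast hj
  have hm1 : 1 ≤ m := by omega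
  have hm' : (0 : ℝ) < m := by exact_mod_cast hm1
  have hmc : (m : ℝ) = 2 * p + j' := by rw [hmdef]; push_cast; ring
  -- the small quantity
  set τ : ℝ := ε / (256 * 145 ^ (k + 1)) with hτ
  have hpow : (1 : ℝ) ≤ 145 ^ (k + 1) := one_le_pow₀ (by norm_num)
  have hτ0 : 0 < τ := by rw [hτ]; positivity
  have hτ1 : τ ≤ ε / 256 := by
    rw [hτ]
    exact div_le_div_of_nonneg_left h0.le (by norm_num) (by linarith only [hpow])
  have hτ2 : τ ^ 2 ≤ 1 / 40 := by nlinarith only [hτ0, hτ1, h1]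
  have hjp1 : (j' : ℝ) / p ≤ 1 / 40 := hjp.trans hτ2
  have hjp2 : (j' : ℝ) < p := by
    have := (div_le_iff₀ hp').mp hjp1
    linarith
  have hm4 : m < 4 * p := by
    have : j' < p := by exact_mod_cast hjp2
    omega
  set r : ℝ := 4 * p / m - 1 with hr
  have hr1 : 1 - r = 2 * j' / m := by
    rw [hr, hmc]
    have : (2 * p + j' : ℝ) ≠ 0 := by positivity
    field_simp
    ring
  have hr2 : 1 - r ≤ j' / p := by
    rw [hr1, div_le_div_iff₀ hm' hp', hmc]
    nlinarith only [hj', hp']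
  have hr3 : r < 1 := by
    have : 0 < 2 * (j' : ℝ) / m := by positivity
    linarith
  have hr4 : 39 / 40 ≤ r := by linarith
  obtain ⟨hP1, hP2, ht0, ht1, -⟩ := hPf r hr4 hr3
  set t : ℝ := tF r with ht
  have htτ : t ≤ 2 * τ := by
    refine ht1.trans ?_
    refine mul_le_mul_of_nonneg_left ?_ (by norm_num)
    rw [Real.sqrt_le_left hτ0.le]
    exact hr2.trans hjp
  have ht2 : t < 1 := by linarith
  have htsq : -1 + 2 * t ^ 2 = Pf r (-r) := by
    have hnn : 0 ≤ (1 + Pf r (-r)) / 2 := by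
      by_contra hcon
      push Not at hcon
      have : tF r = 0 := Real.sqrt_eq_zero_of_nonpos hcon.le
      linarith
    rw [ht, tF, Real.sq_sqrt hnn]
    ring
  have htk : t * 145 ^ k ≤ ε / 128 := by
    have e1 : τ * 145 ^ (k + 1) = ε / 256 := by
      rw [hτ]
      field_simp
    have e2 : (145 : ℝ) ^ k ≤ 145 ^ (k + 1) := pow_le_pow_right₀ (by norm_num) (Nat.le_succ k)
    calc t * 145 ^ k ≤ 2 * τ * 145 ^ (k + 1) := mul_le_mul htτ e2 (by positivity) (by positivity)
      _ = ε / 128 := by rw [mul_assoc, e1]; ring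
  obtain ⟨g, e, c, η₀, hg, he, hη₀, hh⟩ := hKer k r hr4 hr3
  rw [← ht] at hη₀ hh
  obtain ⟨hp1, hp3⟩ := hPlo k t ht0 ht2
  set P : ℝ := pairF k t 1 with hPdef
  have hkt : ((k : ℝ) + 2) * t ≤ ε / 128 := by
    have e1 : (k : ℝ) + 2 ≤ 145 ^ k := by
      have e2 : k + 2 ≤ 145 ^ k := by
        have e3 : ∀ i : ℕ, i + 1 + 2 ≤ 145 ^ (i + 1) := by
          intro i
          induction i with
          | zero => norm_num
          | succ i ih => rw [pow_succ]; omega
        exact e3 j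
      exact_mod_cast e2
    calc ((k : ℝ) + 2) * t ≤ 145 ^ k * t := mul_le_mul_of_nonneg_right e1 ht0.le
      _ ≤ ε / 128 := by rw [mul_comm]; exact htk
  have hPlow : 1 / 2 - ε / 128 ≤ P := by linarith
  have hgt := hg.add (NN.const ht0.le)
  have het := he.add (NN.const ht0.le)
  set η : ℝ := η₀ + t with hη
  have hηpos : 0 < η := by
    have := he.nonneg
    linarith
  have hη1 : η ≤ ε / 64 := by
    have e1 : t ≤ t * 145 ^ k := le_mul_of_one_le_right ht0.le (one_le_pow₀ (by norm_num))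
    linarith
  have hηh : η < P - 1 / 4 := by linarith
  have hh' : ∀ x : ℝ, |x| ≤ 1 →
      pairF k t (Pf r x) = (P - 1 / 4) + (g x + t) - (e x + t) := by
    intro x hx
    rw [hh x hx]
    ring
  obtain ⟨w, c', hw, hF⟩ := hFix (fun x => pairF k t (Pf r x)) _ _ (P - 1 / 4) _ _ hgt het hηpos
    hηh hh'
  set D : ℝ := P - 1 / 4 + 2 * η with hD
  have hDpos : 0 < D := by linarith
  set δ : ℝ := 4 * η / D with hδ
  have hδ0 : 0 ≤ δ := by rw [hδ]; positivity
  have hδ1 : δ ≤ ε / 3 := by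
    rw [hδ, div_le_iff₀ hDpos, hD]
    nlinarith only [h0, h1, hηpos, hη1, hPlow, hp3]
  set δ₀ : ℝ := ((1 / 2 - P) / P) ^ 2 with hδ₀
  obtain ⟨hn1, hn2, hn3, hn4⟩ := num h0 h1 hPlow hp3 hδ0 hδ1 hδ₀
  obtain ⟨ν, hν0, hν1, hν2⟩ := hSign m w hm1 hw
  obtain ⟨μ, hμ, hμs, hμp⟩ := hBall (Fin m → Bool) (fun x y => Pf r (rho x y)) j t ht0 ht2
    (hPsd m _ _ hm1 hP1) (fun x => by rw [rho_self]; exact hP1.at_one)
    (fun x y => by rw [rho_comm]) (fun x y => by rw [htsq]; exact hP2 _ (abs_rho hm1 x y))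
  obtain ⟨μ', hμ', hμ's, hμ'p⟩ := hMix (Fin m → Bool) (2 * j + 2) μ ν δ δ₀ (by omega) hμ hν0 hν1
    hδ0 (by linarith) hn1 hn2
  -- the moments
  have hM : ∀ x y, μ' {x, y} {x, y} = (1 - δ₀) *
      (((1 - 4 * η / D) * pairF k t (Pf r (rho x y)) + η / D *
        (pairF k t (Pf r (rho x y)) * (1 + w (rho x y))) - (1 - 3 * η / D) * (P - 1 / 4)) +
        (1 - 3 * δ / 4) * (P - 1 / 4)) := by
    intro x y
    rw [hμ'p, hμp, hν2, hδ]
    ring
  have hq : ∀ x, μ' {x} {x} = (1 - δ₀) * ((1 - δ / 2) * P) := by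
    intro x
    have h2 := hμ'p x x
    rw [Finset.pair_eq_singleton, ← Finset.pair_eq_singleton x, hμp, hν2, rho_self, hP1.at_one,
      hw.at_one, Finset.pair_eq_singleton] at h2
    rw [h2]
    ring
  set q : ℝ := (1 - δ₀) * ((1 - δ / 2) * P) with hqdef
  -- the graph
  let G : SimpleGraph (Fin m → Bool) :=
    { Adj := fun x y => hammingDist x y = 2 * p
      symm := ⟨fun x y h => by rw [hammingDist_comm]; exact h⟩
      loopless := ⟨fun x h => by rw [hammingDist_self] at h; omega⟩ }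
  have hGadj : ∀ x y, G.Adj x y ↔ hammingDist x y = 2 * p := fun _ _ => Iff.rfl
  have hcard : Fintype.card (Fin m → Bool) = 2 ^ m := by simp
  refine ⟨Fin m → Bool, inferInstance, inferInstance, G, ?_, ?_, ?_, comp μ', ?_, ?_⟩
  · rw [hcard]
    positivity
  · rw [hcard]
    exact Nat.pow_le_pow_right (by norm_num) hm
  · intro U hU
    have h2 := hFW m p hp hp2 hm4 Uᶜ (by
      intro x hx y hy h3
      rcases hU x y h3 with h4 | h4
      · exact Finset.mem_compl.mp hx h4
      · exact Finset.mem_compl.mp hy h4)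
    have h3 := hCnt ε p j' hj hcnt
    have h4 : (Uᶜ.card : ℝ) ≤ ε * 2 ^ m := by
      refine le_trans ?_ h3
      have h5 : (Uᶜ.card : ℝ) ≤ ((2 * ∑ i ∈ range p, m.choose i : ℕ) : ℝ) := by exact_mod_cast h2
      refine h5.trans (le_of_eq ?_)
      push_cast
      rfl
    have h5 : ((U.card : ℝ)) + Uᶜ.card = 2 ^ m := by
      have h6 := Finset.card_add_card_compl U
      rw [hcard] at h6
      exact_mod_cast h6
    rw [hcard]
    push_cast
    have h7 : (0 : ℝ) < 2 ^ m := by positivity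
    nlinarith only [h4, h5, h7, hεε]
  · have hk2 : k ≤ 2 * j + 2 := by omega
    refine ⟨?_, ?_, ?_, ?_, ?_⟩
    · intro S U
      rw [comp]
      split_ifs
      · exact hμ'.nonneg _ _
      · exact le_rfl
    · exact fun S hS => comp_total hμ' S (hS.trans hk2)
    · exact fun S T hST hT U hU => comp_cons hμ' S T hST (hT.trans hk2) U hU
    · intro S hS U hU hne x hx y hy hxy
      rw [comp, if_pos hU] at hne
      by_contra hcon
      push Not at hcon
      have hx' : x ∈ S \ U := Finset.mem_sdiff.mpr ⟨hx, hcon.1⟩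
      have hy' : y ∈ S \ U := Finset.mem_sdiff.mpr ⟨hy, hcon.2⟩
      rcases hμ's S (hS.trans hk2) _ Finset.sdiff_subset hne with h2 | ⟨W, hW1, hW2, hW3⟩
      · rw [h2] at hx'
        exact Finset.notMem_empty x hx'
      · have h3 := hμs S (hS.trans hk2) W hW1 hW3 x (hW2 hx') y (hW2 hy')
        have h4 : rho x y = -r := by
          rw [rho, (hGadj x y).mp hxy, hr]
          push_cast
          ring
        rw [h4, ← htsq] at h3
        exact lt_irrefl _ h3
    · intro c₀ c₁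
      have e1 : ∀ x, comp μ' {x} {x} = 1 - q := by
        intro x
        rw [comp, if_pos subset_rfl, Finset.sdiff_self, single_empty hμ' (by omega), hq]
      have e2 : ∀ x y, comp μ' {x, y} {x, y} = 1 - 2 * q + μ' {x, y} {x, y} := by
        intro x y
        rw [comp, if_pos subset_rfl, Finset.sdiff_self, pair_empty hμ' (by omega), hq, hq]
        ring
      have hpsd := hPsd m _ _ hm1 hF c₁
      set s : ℝ := ∑ x, c₁ x with hs
      have hss : ∑ x, ∑ y, c₁ x * c₁ y = s * s := by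
        rw [hs, Finset.sum_mul_sum]
      have e3 : ∑ x, c₁ x * comp μ' {x} {x} = (1 - q) * s := by
        simp_rw [e1]
        rw [← Finset.sum_mul, hs]
        ring
      set F : (Fin m → Bool) → (Fin m → Bool) → ℝ := fun x y =>
        (1 - 4 * η / D) * pairF k t (Pf r (rho x y)) + η / D *
          (pairF k t (Pf r (rho x y)) * (1 + w (rho x y))) - (1 - 3 * η / D) * (P - 1 / 4)
        with hFdef
      have e4 : ∑ x, ∑ y, c₁ x * c₁ y * comp μ' {x, y} {x, y} =
          (1 - 2 * q + (1 - δ₀) * ((1 - 3 * δ / 4) * (P - 1 / 4))) * (s * s) +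
            (1 - δ₀) * ∑ x, ∑ y, c₁ x * c₁ y * F x y := by
        rw [← hss, Finset.mul_sum, Finset.mul_sum, ← Finset.sum_add_distrib]
        refine Finset.sum_congr rfl fun x _ => ?_
        rw [Finset.mul_sum, Finset.mul_sum, ← Finset.sum_add_distrib]
        refine Finset.sum_congr rfl fun y _ => ?_
        rw [e2, hM, hFdef]
        ring
      rw [e3, e4]
      have hpsd' : 0 ≤ ∑ x, ∑ y, c₁ x * c₁ y * F x y := hpsd
      have e5 : 0 ≤ (1 - δ₀) * ∑ x, ∑ y, c₁ x * c₁ y * F x y :=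
        mul_nonneg (by linarith) hpsd'
      have e6 : q ^ 2 * (s * s) ≤ (1 - δ₀) * ((1 - 3 * δ / 4) * (P - 1 / 4)) * (s * s) :=
        mul_le_mul_of_nonneg_right hn3 (mul_self_nonneg s)
      nlinarith only [sq_nonneg (c₀ + s - q * s), e5, e6]
  · have e1 : ∀ x, comp μ' {x} {x} = 1 - q := by
      intro x
      rw [comp, if_pos subset_rfl, Finset.sdiff_self, single_empty hμ' (by omega), hq]
    simp_rw [e1]
    rw [Finset.sum_const, Finset.card_univ, nsmul_eq_mul, mul_comm]
    refine mul_le_mul_of_nonneg_right ?_ (Nat.cast_nonneg _)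
    linarith

end Pool.Agent.Lib.MP_cff830_lc.SDP
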