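import Pool.Agent.Lib.MP_cff830_lc.SDP.Stmts

/-!
# (C1) mixtures and intersections of local distributions
-/

set_option autoImplicit false

namespace Pool.Agent.Lib.MP_cff830_lc.SDP

open Finset

namespace MixAux

variable {V : Type} [DecidableEq V] {k : ℕ}

/-- The intersection of the local random set with a fixed set. -/
noncomputable def cut (μ : Finset V → Finset V → ℝ) (R : Finset V) : Finset V → Finset V → ℝ :=
  fun S U => ∑ W ∈ S.powerset, if W ∩ R = U then μ S W else 0

theorem cut_loc {μ : Finset V → Finset V → ℝ} (h : IsLoc k μ) (R : Finset V) :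
    IsLoc k (cut μ R) where
  nonneg S U := by
    refine sum_nonneg fun W _ => ?_
    split_ifs
    · exact h.nonneg S W
    · exact le_rfl
  total S hS := by
    unfold cut
    rw [sum_comm, ← h.total S hS]
    refine sum_congr rfl fun W hW => ?_
    rw [sum_ite_eq, if_pos]
    exact mem_powerset.2 (inter_subset_left.trans (mem_powerset.1 hW))
  cons S T hST hT U _ := by
    unfold cut
    have e1 : ∑ W ∈ S.powerset, (if W ∩ R = U then μ S W else 0) =
        ∑ W' ∈ T.powerset, (if W' ∩ S ∩ R = U then μ T W' else 0) := by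
      rw [← sum_fiberwise_of_maps_to (s := T.powerset) (g := fun W' => W' ∩ S) (t := S.powerset)
        (fun W' _ => mem_powerset.2 inter_subset_right)
        (fun W' => if W' ∩ S ∩ R = U then μ T W' else 0)]
      refine sum_congr rfl fun W hW => ?_
      rw [h.cons S T hST hT W (mem_powerset.1 hW)]
      split_ifs with hc
      · refine sum_congr rfl fun W' hW' => ?_
        rw [(mem_filter.1 hW').2, if_pos hc]
      · symm
        refine sum_eq_zero fun W' hW' => ?_
        rw [(mem_filter.1 hW').2, if_neg hc]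
    have e2 : ∑ W ∈ T.powerset with W ∩ S = U,
        ∑ W' ∈ T.powerset, (if W' ∩ R = W then μ T W' else 0) =
        ∑ W' ∈ T.powerset, (if W' ∩ S ∩ R = U then μ T W' else 0) := by
      rw [sum_comm]
      refine sum_congr rfl fun W' hW' => ?_
      rw [sum_ite_eq]
      refine if_congr ?_ rfl rfl
      rw [mem_filter, mem_powerset, inter_right_comm]
      exact and_iff_right (inter_subset_left.trans (mem_powerset.1 hW'))
    rw [e1, e2]

/-- Convex combinations. -/
theorem conv_loc {μ₁ μ₂ : Finset V → Finset V → ℝ} (h₁ : IsLoc k μ₁) (h₂ : IsLoc k μ₂) {δ : ℝ}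
    (h0 : 0 ≤ δ) (h1 : δ ≤ 1) : IsLoc k (fun S U => (1 - δ) * μ₁ S U + δ * μ₂ S U) where
  nonneg S U := add_nonneg (mul_nonneg (by linarith) (h₁.nonneg S U))
    (mul_nonneg h0 (h₂.nonneg S U))
  total S hS := by
    rw [sum_add_distrib, ← mul_sum, ← mul_sum, h₁.total S hS, h₂.total S hS]
    ring
  cons S T hST hT U hU := by
    rw [sum_add_distrib, ← mul_sum, ← mul_sum, ← h₁.cons S T hST hT U hU,
      ← h₂.cons S T hST hT U hU]

/-- Mixtures. -/
theorem mix_loc {ι : Type} [Fintype ι] {μ : ι → Finset V → Finset V → ℝ} {ν : ι → ℝ}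
    (h : ∀ i, IsLoc k (μ i)) (h0 : ∀ i, 0 ≤ ν i) (h1 : ∑ i, ν i = 1) :
    IsLoc k (fun S U => ∑ i, ν i * μ i S U) where
  nonneg S U := sum_nonneg fun i _ => mul_nonneg (h0 i) ((h i).nonneg S U)
  total S hS := by
    rw [sum_comm, ← h1]
    refine sum_congr rfl fun i _ => ?_
    rw [← mul_sum, (h i).total S hS, mul_one]
  cons S T hST hT U hU := by
    rw [sum_comm]
    refine sum_congr rfl fun i _ => ?_
    rw [← mul_sum, ← (h i).cons S T hST hT U hU]

theorem cut_zero {μ : Finset V → Finset V → ℝ} {R S U : Finset V}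
    (h : ∀ W, W ⊆ S → U ⊆ W → μ S W = 0) : cut μ R S U = 0 := by
  unfold cut
  refine sum_eq_zero fun W hW => ?_
  split_ifs with hc
  · exact h W (mem_powerset.1 hW) (by rw [← hc]; exact inter_subset_left)
  · rfl

theorem cut_empty {μ : Finset V → Finset V → ℝ} {S U : Finset V} (h : U ≠ ∅) :
    cut μ ∅ S U = 0 := by
  unfold cut
  refine sum_eq_zero fun W _ => if_neg fun hc => h ?_
  rw [← hc, inter_empty]

theorem cut_self (μ : Finset V → Finset V → ℝ) (R S : Finset V) :
    cut μ R S S = if S ⊆ R then μ S S else 0 := by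
  unfold cut
  rw [sum_eq_single_of_mem S (mem_powerset_self S)]
  · refine if_congr ?_ rfl rfl
    exact inter_eq_left
  · intro W hW hWS
    refine if_neg fun hc => hWS ?_
    refine subset_antisymm (mem_powerset.1 hW) ?_
    rw [← hc]
    exact inter_subset_left

end MixAux

open MixAux in
/-- Module C1. -/
theorem stMix : StMix := by
  intro V _ _ k μ ν δ δ₀ _ hμ hν hν1 hδ hδ1 hδ₀ hδ₀1
  refine ⟨fun S U => (1 - δ₀) * ((1 - δ) * μ S U + δ * ∑ R, ν R * cut μ R S U) +
    δ₀ * cut μ ∅ S U,
    conv_loc (conv_loc hμ (mix_loc (fun R => cut_loc hμ R) hν hν1) hδ hδ1) (cut_loc hμ ∅)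
      hδ₀ hδ₀1, ?_, ?_⟩
  · intro S _ U hU hne
    by_contra hcon
    push Not at hcon
    obtain ⟨hU0, hW⟩ := hcon
    apply hne
    have e1 : ∑ R, ν R * cut μ R S U = 0 := by
      refine sum_eq_zero fun R _ => ?_
      rw [cut_zero (fun W h1 h2 => hW W h1 h2), mul_zero]
    dsimp only
    rw [e1, hW U hU (Subset.refl U), cut_empty hU0.ne_empty]
    ring
  · intro x y
    have hne : ({x, y} : Finset V) ≠ ∅ := (insert_nonempty x {y}).ne_empty
    dsimp only
    rw [cut_empty hne, mul_zero, add_zero]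
    congr 3
    rw [mul_sum]
    refine sum_congr rfl fun R _ => ?_
    rw [cut_self]
    have hiff : ({x, y} : Finset V) ⊆ R ↔ x ∈ R ∧ y ∈ R := by
      rw [insert_subset_iff, singleton_subset_iff]
    simp only [hiff]
    split_ifs
    · ring
    · simp

end Pool.Agent.Lib.MP_cff830_lc.SDP
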