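import Pool.Agent.Lib.MP_cff830_lc.SDP.Stmts

/-!
# Pairs of unit vectors
-/

set_option autoImplicit false

namespace Pool.Agent.Lib.MP_cff830_lc.SDP

open Finset MeasureTheory Real
open scoped InnerProductSpace

namespace PairAux

variable {j : ℕ}

/-- The first coordinate vector. -/
noncomputable def e0 : E j := EuclideanSpace.single (Sum.inl 0) 1

/-- The second coordinate vector. -/
noncomputable def e1 : E j := EuclideanSpace.single (Sum.inl 1) 1

theorem inner_e0 (u : E j) : ⟪u, e0⟫_ℝ = u (Sum.inl 0) := by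
  unfold e0
  rw [EuclideanSpace.inner_single_right]
  simp

theorem inner_e1 (u : E j) : ⟪u, e1⟫_ℝ = u (Sum.inl 1) := by
  unfold e1
  rw [EuclideanSpace.inner_single_right]
  simp

theorem e0_e0 : ⟪(e0 : E j), e0⟫_ℝ = 1 := by
  rw [inner_e0]
  simp [e0]

theorem e1_e1 : ⟪(e1 : E j), e1⟫_ℝ = 1 := by
  rw [inner_e1]
  simp [e1]

theorem e0_e1 : ⟪(e0 : E j), e1⟫_ℝ = 0 := by
  rw [inner_e1]
  simp [e0]

theorem e1_e0 : ⟪(e1 : E j), e0⟫_ℝ = 0 := by
  rw [inner_e0]
  simp [e1]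

end PairAux

open PairAux

theorem stPair (hP : StPlane) (hQ : StPolar) (hR : StRot) : StPair := by
  intro j t a b ht0 ht1 ha hb hab
  set z : ℝ := ⟪a, b⟫_ℝ with hz
  have hz1 : |z| ≤ 1 := by
    have := abs_real_inner_le_norm a b
    rwa [ha, hb, mul_one] at this
  obtain ⟨hzl, hzu⟩ := abs_le.1 hz1
  set θ : ℝ := arccos z / 2 with hθ
  have hθ0 : 0 ≤ θ := by
    have := arccos_nonneg z
    rw [hθ]
    linarith
  have hθ1 : θ ≤ π / 2 := by
    have := arccos_le_pi z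
    rw [hθ]
    linarith
  have hcos2 : cos (2 * θ) = z := by
    rw [hθ, mul_div_cancel₀ _ (two_ne_zero), cos_arccos hzl hzu]
  have hc0 : 0 ≤ cos θ := cos_nonneg_of_mem_Icc ⟨by linarith [pi_pos], hθ1⟩
  have hsc : sin θ ^ 2 + cos θ ^ 2 = 1 := sin_sq_add_cos_sq θ
  have hcs : cos θ ^ 2 - sin θ ^ 2 = z := by
    rw [← hcos2, cos_two_mul]
    linarith
  have hct : t ≤ cos θ := by
    have h1 : t ^ 2 ≤ cos θ ^ 2 := by nlinarith
    exact le_of_sq_le_sq h1 hc0
  have hθt : θ ≤ arccos t := by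
    have h1 := arccos_le_arccos hct
    rwa [arccos_cos hθ0 (by linarith [pi_pos])] at h1
  -- the model vectors
  set a' : E j := cos θ • e0 + sin θ • e1 with ha'
  set b' : E j := cos θ • e0 - sin θ • e1 with hb'
  have haa : ⟪a, a⟫_ℝ = 1 := by rw [real_inner_self_eq_norm_sq, ha]; norm_num
  have hbb : ⟪b, b⟫_ℝ = 1 := by rw [real_inner_self_eq_norm_sq, hb]; norm_num
  have hba : ⟪b, a⟫_ℝ = z := by rw [real_inner_comm]
  have h1 : ⟪a', a'⟫_ℝ = 1 := by
    rw [ha']
    simp only [inner_add_left, inner_add_right, inner_smul_left, inner_smul_right, e0_e0, e0_e1,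
      e1_e0, e1_e1, conj_trivial]
    linarith
  have h2 : ⟪b', b'⟫_ℝ = 1 := by
    rw [hb']
    simp only [inner_sub_left, inner_sub_right, inner_smul_left, inner_smul_right, e0_e0, e0_e1,
      e1_e0, e1_e1, conj_trivial]
    linarith
  have h3 : ⟪a', b'⟫_ℝ = z := by
    rw [ha', hb']
    simp only [inner_add_left, inner_sub_right, inner_smul_left, inner_smul_right, e0_e0, e0_e1,
      e1_e0, e1_e1, conj_trivial]
    linarith
  have h4 : ⟪b', a'⟫_ℝ = z := by rw [real_inner_comm, h3]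
  obtain ⟨O, hO⟩ := (hR j).1 Bool (fun i => if i then a else b) (fun i => if i then a' else b')
    (by
      intro x y
      cases x <;> cases y
      · show ⟪b, b⟫_ℝ = ⟪b', b'⟫_ℝ
        rw [hbb, h2]
      · show ⟪b, a⟫_ℝ = ⟪b', a'⟫_ℝ
        rw [hba, h4]
      · show ⟪a, b⟫_ℝ = ⟪a', b'⟫_ℝ
        rw [h3]
      · show ⟪a, a⟫_ℝ = ⟪a', a'⟫_ℝ
        rw [haa, h1])
  have hOa : O a = a' := hO true
  have hOb : O b = b' := hO false
  have hset : {u : E j | t < ⟪u, a⟫_ℝ ∧ t < ⟪u, b⟫_ℝ} =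
      O ⁻¹' {u : E j | (u (Sum.inl 0), u (Sum.inl 1)) ∈
        {z : ℝ × ℝ | t < cos θ * z.1 + sin θ * z.2 ∧ t < cos θ * z.1 - sin θ * z.2}} := by
    ext u
    have e2 : ⟪u, a⟫_ℝ = cos θ * (O u) (Sum.inl 0) + sin θ * (O u) (Sum.inl 1) := by
      rw [← O.inner_map_map, hOa, ha', inner_add_right, inner_smul_right, inner_smul_right,
        inner_e0, inner_e1]
    have e3 : ⟪u, b⟫_ℝ = cos θ * (O u) (Sum.inl 0) - sin θ * (O u) (Sum.inl 1) := by
      rw [← O.inner_map_map, hOb, hb', inner_sub_right, inner_smul_right, inner_smul_right,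
        inner_e0, inner_e1]
    simp only [Set.mem_ofPred_eq, Set.mem_preimage, e2, e3]
  have hmeas : MeasurableSet {z : ℝ × ℝ | t < cos θ * z.1 + sin θ * z.2 ∧
      t < cos θ * z.1 - sin θ * z.2} := by
    have m1 : Measurable fun z : ℝ × ℝ => cos θ * z.1 + sin θ * z.2 := by fun_prop
    have m2 : Measurable fun z : ℝ × ℝ => cos θ * z.1 - sin θ * z.2 := by fun_prop
    exact (measurableSet_lt measurable_const m1).inter (measurableSet_lt measurable_const m2)
  rw [hset, (hR j).2, hP j _ hmeas, hQ j t θ ht0 ht1 hθ0 hθt]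
  rfl

end Pool.Agent.Lib.MP_cff830_lc.SDP
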