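import Mathlib
import Pool.Agent.Lib.MP_cff830_lc.SDP.Stmts

/-!
# (A3) the tensor function
-/

set_option autoImplicit false

namespace Pool.Agent.Lib.MP_cff830_lc.SDP

open Finset MeasureTheory Real

namespace PfAux

variable {r : ℝ}

lemma sF_le (h1 : 39 / 40 ≤ r) (h2 : r < 1) : sF r ≤ 4 := by
  unfold sF
  rw [div_le_iff₀ (by positivity)]
  have h3 : 0 ≤ (1 - r) * (r ^ 4 + 2 * r ^ 3 + 4 * r ^ 2 - 2 * r - 1) := by
    refine mul_nonneg (by linarith) ?_
    have h4 : (39 / 40) ^ 2 ≤ r ^ 2 := by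
      exact pow_le_pow_left₀ (by norm_num) h1 2
    have h5 : (39 / 40) ^ 3 ≤ r ^ 3 := by
      exact pow_le_pow_left₀ (by norm_num) h1 3
    have h6 : (39 / 40) ^ 4 ≤ r ^ 4 := by
      exact pow_le_pow_left₀ (by norm_num) h1 4
    norm_num at h4 h5 h6
    linarith
  nlinarith [h3]

lemma le_sF (h1 : 39 / 40 ≤ r) (h2 : r < 1) : 39 / 10 ≤ sF r := by
  unfold sF
  rw [le_div_iff₀ (by positivity)]
  have h4 : (39 / 40) ^ 2 ≤ r ^ 2 := pow_le_pow_left₀ (by norm_num) h1 2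
  have h7 : (0 : ℝ) ≤ (1 - r) := by linarith
  have h8 : (0 : ℝ) ≤ r - 39 / 40 := by linarith
  -- (1 + r) (1 + r²)² ≥ (1 + r) (1 + r²) (2 r) * ...
  have h9 : 0 ≤ (r - 39 / 40) * (r ^ 4 + r ^ 3 + r ^ 2) := mul_nonneg h8 (by positivity)
  nlinarith [mul_nonneg h8 h7, mul_nonneg h8 h8, mul_nonneg (mul_nonneg h8 h8) h8,
    mul_nonneg (mul_nonneg h8 h8) (mul_nonneg h8 h8),
    mul_nonneg (mul_nonneg h8 h8) (mul_nonneg (mul_nonneg h8 h8) h8)]

/-- The relations between the parameters. -/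
structure Par (r s l b : ℝ) : Prop where
  r1 : 39 / 40 ≤ r
  r2 : r < 1
  s1 : 39 / 10 ≤ s
  s2 : s ≤ 4
  lb : l + b = 1
  br : b * r = s * (1 - r) * l
  l0 : 0 < l
  b0 : 0 < b
  lr : l ≤ r
  b1 : b ≤ 47 / 500

lemma par (h1 : 39 / 40 ≤ r) (h2 : r < 1) : Par r (sF r) (lamF r) (beF r) := by
  have hs1 := le_sF h1 h2
  have hs2 := sF_le h1 h2
  have hd : 0 < 1 - r := by linarith
  have hsd : 0 < sF r * (1 - r) := mul_pos (by linarith) hd
  have hden : 0 < r + sF r * (1 - r) := by linarith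
  refine ⟨h1, h2, hs1, hs2, ?_, ?_, ?_, ?_, ?_, ?_⟩
  · unfold lamF beF
    rw [← add_div, div_self hden.ne']
  · unfold lamF beF
    field_simp
  · exact div_pos (by linarith) hden
  · exact div_pos hsd hden
  · unfold lamF
    rw [div_le_iff₀ hden]
    nlinarith
  · unfold beF
    rw [div_le_iff₀ hden]
    nlinarith

lemma geom (h0 : 0 ≤ r) (h2 : r < 1) : NN (fun x => (1 - r ^ 2) / (1 - r ^ 2 * x ^ 2)) 1 := by
  have hr2 : r ^ 2 < 1 := by nlinarith
  have e1 : ∀ k : ℕ, NN (fun x => (r ^ 2 * x ^ 2) ^ k) ((r ^ 2) ^ k) := by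
    intro k
    have := ((NN.id.pow 2).smul (s := r ^ 2) (by positivity)).pow k
    simpa using this
  have e2 := (NN.tsum e1 (summable_geometric_of_lt_one (by positivity) hr2)).smul
    (s := 1 - r ^ 2) (by linarith)
  rw [tsum_geometric_of_lt_one (by positivity) hr2, mul_inv_cancel₀ (by linarith)] at e2
  refine e2.congr fun x hx => ?_
  have hx2 : x ^ 2 ≤ 1 := (sq_le_one_iff_abs_le_one x).mpr hx
  have h3 : r ^ 2 * x ^ 2 < 1 := by nlinarith [sq_nonneg r, sq_nonneg x]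
  rw [tsum_geometric_of_lt_one (by positivity) h3, div_eq_mul_inv]

lemma nn_Pf {s l b : ℝ} (h : Par r s l b) :
    NN (fun x => l * x + b * ((1 - r ^ 2) / (1 - r ^ 2 * x ^ 2))) 1 := by
  have h1 := (NN.id.smul h.l0.le).add ((geom (by linarith [h.r1]) h.r2).smul h.b0.le)
  have h2 : l * 1 + b * 1 = 1 := by linarith [h.lb]
  rw [h2] at h1
  exact h1

lemma min_Pf {s l b x : ℝ} (h : Par r s l b) (hl : l * (1 - r ^ 4) ^ 2 = 2 * r ^ 3 * (1 - r ^ 2) * b)
    (hx : |x| ≤ 1) :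
    l * (-r) + b * ((1 - r ^ 2) / (1 - r ^ 2 * (-r) ^ 2)) ≤
      l * x + b * ((1 - r ^ 2) / (1 - r ^ 2 * x ^ 2)) := by
  have hr0 : 0 < r := by linarith [h.r1]
  have hr2 : r ^ 2 < 1 := by nlinarith [h.r2]
  have hr4 : r ^ 4 < 1 := by nlinarith [sq_nonneg r]
  have hx2 : x ^ 2 ≤ 1 := (sq_le_one_iff_abs_le_one x).mpr hx
  have h3 : 0 < 1 - r ^ 2 * x ^ 2 := by nlinarith [sq_nonneg r, sq_nonneg x]
  have h4 : (0 : ℝ) < 1 - r ^ 4 := by linarith
  have h5 : (1 : ℝ) - r ^ 2 * (-r) ^ 2 = 1 - r ^ 4 := by ring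
  rw [h5]
  have hl' : l = 2 * r ^ 3 * (1 - r ^ 2) * b / (1 - r ^ 4) ^ 2 := by
    rw [eq_div_iff (by positivity)]
    exact hl
  have key : l * x + b * ((1 - r ^ 2) / (1 - r ^ 2 * x ^ 2)) -
      (l * (-r) + b * ((1 - r ^ 2) / (1 - r ^ 4))) =
      b * (1 - r ^ 2) * r ^ 2 * (x + r) ^ 2 * (1 + r ^ 4 - 2 * r ^ 3 * x) /
        ((1 - r ^ 4) ^ 2 * (1 - r ^ 2 * x ^ 2)) := by
    rw [hl']
    field_simp
    ring
  have h6 : 0 ≤ 1 + r ^ 4 - 2 * r ^ 3 * x := by
    have h7 : x ≤ 1 := (abs_le.mp hx).2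
    have h8 : 2 * r ^ 3 * x ≤ 2 * r ^ 3 * 1 := mul_le_mul_of_nonneg_left h7 (by positivity)
    have h9 : 0 ≤ (1 - r) * (1 + r + r ^ 2 - r ^ 3) := by
      refine mul_nonneg (by linarith [h.r2]) ?_
      nlinarith [h.r2, sq_nonneg r]
    nlinarith [h8, h9]
  have h10 : 0 ≤ b * (1 - r ^ 2) * r ^ 2 * (x + r) ^ 2 * (1 + r ^ 4 - 2 * r ^ 3 * x) /
        ((1 - r ^ 4) ^ 2 * (1 - r ^ 2 * x ^ 2)) := by
    have h11 := h.b0
    have h12 : 0 ≤ 1 - r ^ 2 := by linarith
    positivity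
  linarith

/-- The value at `-r`. -/
lemma val {s l b : ℝ} (h : Par r s l b) :
    1 + (l * (-r) + b * ((1 - r ^ 2) / (1 - r ^ 2 * (-r) ^ 2))) =
      b + l * (1 - r) + b * (1 + r ^ 2)⁻¹ := by
  have hr0 : 0 < r := by linarith [h.r1]
  have hr2 : 0 < 1 - r ^ 2 := by nlinarith [h.r2]
  have h5 : (1 : ℝ) - r ^ 2 * (-r) ^ 2 = (1 - r ^ 2) * (1 + r ^ 2) := by ring
  have h6 : (1 - r ^ 2) / (1 - r ^ 2 * (-r) ^ 2) = (1 + r ^ 2)⁻¹ := by
    rw [h5, div_mul_eq_div_div, div_self hr2.ne', one_div]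
  rw [h6]
  linear_combination (-1 : ℝ) * h.lb

lemma inv_le (h1 : 39 / 40 ≤ r) : (1 + r ^ 2)⁻¹ ≤ 513 / 1000 := by
  rw [inv_le_comm₀ (by positivity) (by norm_num)]
  nlinarith

/-- An upper bound for the value at `-r`. -/
lemma val_le {s l b : ℝ} (h : Par r s l b) :
    b + l * (1 - r) + b * (1 + r ^ 2)⁻¹ ≤ 73 / 10 * (l * (1 - r)) := by
  have h1 := inv_le h.r1
  have h2 : b ≤ 411 / 100 * (l * (1 - r)) := by
    have h3 : 0 ≤ l * (1 - r) := mul_nonneg h.l0.le (by linarith [h.r2])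
    have h4 : b * r ≤ 4 * (l * (1 - r)) := by
      rw [h.br]
      nlinarith [h.s2]
    have h5 : b * (39 / 40) ≤ b * r := mul_le_mul_of_nonneg_left h.r1 h.b0.le
    linarith
  have h6 : b * (1 + r ^ 2)⁻¹ ≤ b * (513 / 1000) := mul_le_mul_of_nonneg_left h1 h.b0.le
  have h3 : 0 ≤ l * (1 - r) := mul_nonneg h.l0.le (by linarith [h.r2])
  linarith

section

variable {s l b : ℝ}

/-- The auxiliary parameter. -/
noncomputable def pa (l r : ℝ) : ℝ := 2 * l * r / (l + r)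

/-- The auxiliary parameter. -/
noncomputable def pm (l r : ℝ) : ℝ := (l + r) ^ 2 / (4 * l * r)

/-- The auxiliary parameter. -/
noncomputable def pn (b l r : ℝ) : ℝ := b * (1 - r ^ 2) / 2 - (r - l) ^ 2 / (4 * l * r)

lemma pa_nonneg (h : Par r s l b) : 0 ≤ pa l r := by
  have := h.l0
  have : 0 < r := by linarith [h.r1]
  unfold pa
  positivity

lemma pa_le (h : Par r s l b) : pa l r ≤ r := by
  have h1 := h.l0
  have h2 : 0 < r := by linarith [h.r1]
  unfold pa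
  rw [div_le_iff₀ (by positivity)]
  nlinarith [h.lr]

lemma pm_pos (h : Par r s l b) : 0 < pm l r := by
  have h1 := h.l0
  have h2 : 0 < r := by linarith [h.r1]
  unfold pm
  positivity

lemma one_le_pm (h : Par r s l b) : 1 ≤ pm l r := by
  have h1 := h.l0
  have h2 : 0 < r := by linarith [h.r1]
  unfold pm
  rw [le_div_iff₀ (by positivity)]
  nlinarith [sq_nonneg (l - r)]

lemma pm_pa (h : Par r s l b) : 2 * pm l r * pa l r = l + r := by
  have h1 := h.l0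
  have h2 : 0 < r := by linarith [h.r1]
  have h3 : 0 < l + r := by positivity
  unfold pm pa
  field_simp
  try ring

lemma pm_pa2 (h : Par r s l b) : pm l r * pa l r ^ 2 = l * r := by
  have h1 := h.l0
  have h2 : 0 < r := by linarith [h.r1]
  have h3 : 0 < l + r := by positivity
  unfold pm pa
  field_simp
  try ring

lemma pm_pn (h : Par r s l b) : pm l r + pn b l r = 1 + b * (1 - r ^ 2) / 2 := by
  have h1 := h.l0
  have h2 : 0 < r := by linarith [h.r1]
  unfold pm pn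
  field_simp
  ring

/-- The value of `1 - a`. -/
lemma one_sub_pa (h : Par r s l b) : 1 - pa l r = l * (1 - r) * (1 + s) / (l + r) := by
  have h1 := h.l0
  have h2 : 0 < r := by linarith [h.r1]
  have h3 : 0 < l + r := by positivity
  unfold pa
  rw [eq_div_iff h3.ne', sub_mul, div_mul_cancel₀ _ h3.ne']
  linear_combination h.br - r * h.lb

lemma le_one_sub_pa (h : Par r s l b) : 49 / 20 * (l * (1 - r)) ≤ 1 - pa l r := by
  have h1 := h.l0
  have h2 : 0 < r := by linarith [h.r1]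
  have h3 : 0 < l + r := by positivity
  have h4 : l + r ≤ 2 := by linarith [h.lr, h.r2]
  have h5 : 0 ≤ l * (1 - r) := mul_nonneg h.l0.le (by linarith [h.r2])
  rw [one_sub_pa h, le_div_iff₀ h3]
  have h6 : 49 / 20 * (l * (1 - r)) * (l + r) ≤ 49 / 20 * (l * (1 - r)) * 2 :=
    mul_le_mul_of_nonneg_left h4 (by positivity)
  have h7 : l * (1 - r) * (49 / 10) ≤ l * (1 - r) * (1 + s) :=
    mul_le_mul_of_nonneg_left (by linarith [h.s1]) h5
  linarith

lemma abs_pn (h : Par r s l b) : |pn b l r / pm l r| ≤ 1 / 2 * (1 - pa l r) ^ 2 := by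
  have h1 := h.l0
  have h2 : 0 < r := by linarith [h.r1]
  have h3 : 0 < l + r := by positivity
  have hD : (1 - pa l r) ^ 2 * pm l r * (4 * l * r) = (l * (1 - r) * (1 + s)) ^ 2 := by
    rw [one_sub_pa h]
    unfold pm
    field_simp
  have hN : pn b l r * (4 * l * r) =
      2 * s * (l * (1 - r)) ^ 2 * (3 + r) - (l * (1 - r) * (1 + s)) ^ 2 := by
    have e1 : pn b l r * (4 * l * r) = 2 * l * r * b * (1 - r ^ 2) - (r - l) ^ 2 := by
      unfold pn
      field_simp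
      ring
    have e2 : l * (1 - r) * (1 + s) = l + r - 2 * l * r := by
      linear_combination r * h.lb - h.br
    have e3 : 2 * s * (l * (1 - r)) ^ 2 * (3 + r) = 2 * l * (b * r) * (1 - r) * (3 + r) := by
      rw [h.br]
      ring
    rw [e1, e2, e3]
    have e4 : b = 1 - l := by linarith [h.lb]
    rw [e4]
    ring
  have hm := pm_pos h
  rw [abs_div, abs_of_pos hm, div_le_iff₀ hm]
  have h4 : 0 < 4 * l * r := by positivity
  have h5 : |pn b l r| * (4 * l * r) ≤ 1 / 2 * (1 - pa l r) ^ 2 * pm l r * (4 * l * r) := by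
    have e5 : |pn b l r| * (4 * l * r) = |pn b l r * (4 * l * r)| := by
      rw [abs_mul, abs_of_pos h4]
    have e6 : 1 / 2 * (1 - pa l r) ^ 2 * pm l r * (4 * l * r) =
        1 / 2 * (l * (1 - r) * (1 + s)) ^ 2 := by
      rw [← hD]
      ring
    rw [e5, e6, hN]
    have e7 : 0 ≤ (l * (1 - r)) ^ 2 := sq_nonneg _
    have e8 : 2 * s * (l * (1 - r)) ^ 2 * (3 + r) - (l * (1 - r) * (1 + s)) ^ 2 =
        (l * (1 - r)) ^ 2 * (2 * s * (3 + r) - (1 + s) ^ 2) := by ring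
    have e9 : 1 / 2 * (l * (1 - r) * (1 + s)) ^ 2 =
        (l * (1 - r)) ^ 2 * (1 / 2 * (1 + s) ^ 2) := by ring
    rw [e8, e9, abs_mul, abs_of_nonneg e7]
    refine mul_le_mul_of_nonneg_left ?_ e7
    rw [abs_le]
    have hs1 := h.s1
    have hs2 := h.s2
    have hr1 := h.r1
    have hr2 := h.r2
    constructor
    · nlinarith
    · nlinarith
  exact le_of_mul_le_mul_right h5 h4

end

end PfAux

open PfAux in
/-- (A3) the tensor function -/
theorem stPf (h : StBin) : StPf := by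
  obtain ⟨hB1, hB2, hB3, -⟩ := h
  intro r h1 h2
  have hp := par h1 h2
  set s := sF r with hs
  set l := lamF r with hl
  set b := beF r with hb
  have hPf : ∀ x, Pf r x = l * x + b * ((1 - r ^ 2) / (1 - r ^ 2 * x ^ 2)) := fun x => rfl
  have hr0 : 0 < r := by linarith
  have hr2 : 0 < 1 - r ^ 2 := by nlinarith
  have hd : 0 < 1 - r := by linarith
  have hl0 := hp.l0
  have hb0 := hp.b0
  have hrel : l * (1 - r ^ 4) ^ 2 = 2 * r ^ 3 * (1 - r ^ 2) * b := by
    have e1 : s * (2 * r ^ 2) = (1 + r) * (1 + r ^ 2) ^ 2 := by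
      rw [hs]
      unfold sF
      rw [div_mul_cancel₀ _ (by positivity)]
    have e2 : 2 * r ^ 3 * (1 - r ^ 2) * b = 2 * r ^ 2 * (1 - r ^ 2) * (b * r) := by ring
    rw [e2, hp.br]
    linear_combination (-(l * (1 - r) * (1 - r ^ 2))) * e1
  have hNN : NN (Pf r) 1 := nn_Pf hp
  have hval : 1 + Pf r (-r) = b + l * (1 - r) + b * (1 + r ^ 2)⁻¹ := by
    rw [hPf]
    exact val hp
  have hpos : 0 < 1 + Pf r (-r) := by
    rw [hval]
    positivity
  have ht0 : 0 < tF r := Real.sqrt_pos.mpr (by linarith)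
  have ht2 : tF r ^ 2 = (1 + Pf r (-r)) / 2 := Real.sq_sqrt (by linarith)
  have ht3 : tF r ^ 2 ≤ 73 / 20 * (l * (1 - r)) := by
    rw [ht2, hval]
    linarith [val_le hp]
  refine ⟨hNN, fun x hx => ?_, ht0, ?_, ?_⟩
  · rw [hPf, hPf]
    exact min_Pf hp hrel hx
  · refine abs_le_of_sq_le_sq' ?_ (by positivity) |>.2
    rw [mul_pow, Real.sq_sqrt hd.le]
    have hl1 : l ≤ 1 := by linarith [hp.lb]
    nlinarith
  -- the norm
  set a := pa l r with ha
  set m := pm l r with hm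
  set ν := pn b l r with hν
  have ha0 : 0 ≤ a := pa_nonneg hp
  have har : a ≤ r := pa_le hp
  have ha1 : a < 1 := lt_of_le_of_lt har h2
  have hm0 : 0 < m := pm_pos hp
  have hm1 : 1 ≤ m := one_le_pm hp
  have hax : BN (fun x => a * x) a := by
    have := BN.of_NN (NN.id.smul ha0)
    rwa [mul_one] at this
  have hA : BN (fun x => (1 + a * x)⁻¹) (1 - a)⁻¹ := hB3 _ _ hax ha1
  have hR : BN (fun x => (1 - r * x)⁻¹) (1 - r)⁻¹ := by
    have e1 : BN (fun x => -(r * x)) r := by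
      have := (BN.of_NN (NN.id.smul hr0.le)).neg
      rwa [mul_one] at this
    exact (hB3 _ _ e1 h2).congr fun x _ => by rw [← sub_eq_add_neg]
  have hy : BN (fun x => ν / m * ((1 + a * x)⁻¹) ^ 2) (1 / 2) := by
    refine ((hA.pow 2).smul (ν / m)).mono ?_
    have e1 := abs_pn hp
    rw [← hν, ← hm, ← ha] at e1
    have e2 : 0 < (1 - a) ^ 2 := by
      have : 0 < 1 - a := by linarith
      positivity
    rw [inv_pow, ← div_eq_mul_inv, div_le_iff₀ e2]
    exact e1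
  set y : ℝ → ℝ := fun x => ν / m * ((1 + a * x)⁻¹) ^ 2 with hydef
  have h1a : 0 < 1 - a := by linarith
  have hW : BN (fun x => (r - a) * (x * (1 + a * x)⁻¹)) ((r - a) * (1 - a)⁻¹) := by
    have e1 := ((BN.id).mul hA).smul (r - a)
    rw [abs_of_nonneg (by linarith), one_mul] at e1
    exact e1
  have hWc : (r - a) * (1 - a)⁻¹ < 1 := by
    rw [← div_eq_mul_inv, div_lt_one h1a]
    linarith
  have b2 : BN (fun x => √(1 + (r - a) * (x * (1 + a * x)⁻¹))) 2 := hB2 _ _ hW hWc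
  have b3 : BN (fun x => (√(1 + a * x))⁻¹) (√(1 - a))⁻¹ := hB1 _ _ hax ha1
  have b4 : BN (fun x => (√(1 + y x))⁻¹) (√(1 - 1 / 2))⁻¹ := hB1 _ _ hy (by norm_num)
  have b5 : BN (fun x => (1 + y x)⁻¹) (1 - 1 / 2)⁻¹ := hB3 _ _ hy (by norm_num)
  have b6 : BN (fun x => (1 - r * x)⁻¹ * (1 + a * x)⁻¹) (1 - r)⁻¹ := by
    have e1 := ((hR.smul r).add (hA.smul a)).smul (r + a)⁻¹
    rw [abs_of_nonneg hr0.le, abs_of_nonneg ha0, abs_of_nonneg (by positivity)] at e1
    refine (e1.mono ?_).congr fun x hx => ?_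
    · have e2 : (1 - a)⁻¹ ≤ (1 - r)⁻¹ := inv_anti₀ hd (by linarith)
      have e3 : r * (1 - r)⁻¹ + a * (1 - a)⁻¹ ≤ (r + a) * (1 - r)⁻¹ := by
        have := mul_le_mul_of_nonneg_left e2 ha0
        linarith
      have e4 : 0 < r + a := by linarith
      calc (r + a)⁻¹ * (r * (1 - r)⁻¹ + a * (1 - a)⁻¹)
          ≤ (r + a)⁻¹ * ((r + a) * (1 - r)⁻¹) :=
            mul_le_mul_of_nonneg_left e3 (by positivity)
        _ = (1 - r)⁻¹ := by rw [inv_mul_cancel_left₀ e4.ne']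
    · have e4 : 0 < r + a := by linarith
      obtain ⟨hx1, hx2⟩ := abs_le.mp hx
      have e5 : 0 < 1 - r * x := by nlinarith
      have e6 : 0 < 1 + a * x := by nlinarith
      have e5' : (1 - r * x) * (1 - r * x)⁻¹ = 1 := mul_inv_cancel₀ e5.ne'
      have e6' : (1 + a * x) * (1 + a * x)⁻¹ = 1 := mul_inv_cancel₀ e6.ne'
      rw [eq_comm, inv_mul_eq_iff_eq_mul₀ e4.ne']
      linear_combination (-(r * (1 - r * x)⁻¹)) * e6' - (a * (1 + a * x)⁻¹) * e5'
  have b7 : BN (fun x => 1 + (r - a) * (x * (1 + a * x)⁻¹)) 2 := by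
    refine ((BN.const 1).add hW).mono ?_
    rw [abs_one]
    linarith
  have b8 : BN (fun x => b * (1 - r ^ 2) / (2 * m) * ((1 - r * x)⁻¹ * (1 + a * x)⁻¹ *
      (1 + (r - a) * (x * (1 + a * x)⁻¹)) * (1 + y x)⁻¹)) (47 / 125) := by
    refine (((b6.mul b7).mul b5).smul (b * (1 - r ^ 2) / (2 * m))).mono ?_
    rw [abs_of_nonneg (by positivity)]
    have e1 : b * (1 - r ^ 2) / (2 * m) * ((1 - r)⁻¹ * 2 * (1 - 1 / 2)⁻¹) =
        2 * b * (1 + r) / m := by
      field_simp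
      ring
    rw [e1, div_le_iff₀ hm0]
    have e2 := hp.b1
    nlinarith
  set z : ℝ → ℝ := fun x => b * (1 - r ^ 2) / (2 * m) * ((1 - r * x)⁻¹ * (1 + a * x)⁻¹ *
      (1 + (r - a) * (x * (1 + a * x)⁻¹)) * (1 + y x)⁻¹) with hz
  have b9 : BN (fun x => (√(1 + z x))⁻¹) (√(1 - 47 / 125))⁻¹ := hB1 _ _ b8 (by norm_num)
  have hfin := ((((b2.mul b3).mul b4).mul b9).smul (√m)⁻¹)
  refine (hfin.mono ?_).congr fun x hx => ?_
  · -- the constant
    have hsm : 1 ≤ √m := Real.one_le_sqrt.mpr hm1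
    have e1 : |(√m)⁻¹| ≤ 1 := by
      rw [abs_of_nonneg (by positivity)]
      exact inv_le_one_of_one_le₀ hsm
    have e2 : (√(1 - 1 / 2 : ℝ))⁻¹ ≤ 1415 / 1000 := by
      rw [inv_le_comm₀ (Real.sqrt_pos.mpr (by norm_num)) (by norm_num)]
      exact Real.le_sqrt_of_sq_le (by norm_num)
    have e3 : (√(1 - 47 / 125 : ℝ))⁻¹ ≤ 1267 / 1000 := by
      rw [inv_le_comm₀ (Real.sqrt_pos.mpr (by norm_num)) (by norm_num)]
      exact Real.le_sqrt_of_sq_le (by norm_num)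
    have hsa : 0 < √(1 - a) := Real.sqrt_pos.mpr h1a
    have e4 : tF r ≤ 1415 / 1000 * √(1 - a) := by
      refine abs_le_of_sq_le_sq' ?_ (by positivity) |>.2
      rw [mul_pow, Real.sq_sqrt h1a.le]
      have := le_one_sub_pa hp
      rw [← ha] at this
      have h5 : 0 ≤ l * (1 - r) := by positivity
      nlinarith
    have e5 : (√(1 - a))⁻¹ ≤ 1415 / 1000 / tF r := by
      rw [le_div_iff₀ ht0, inv_mul_le_iff₀ hsa]
      linarith
    have e6 : 2 * (√(1 - a))⁻¹ * (√(1 - 1 / 2 : ℝ))⁻¹ * (√(1 - 47 / 125 : ℝ))⁻¹ ≤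
        2 * (1415 / 1000 / tF r) * (1415 / 1000) * (1267 / 1000) := by
      gcongr
    have e7 : 0 ≤ 2 * (√(1 - a))⁻¹ * (√(1 - 1 / 2 : ℝ))⁻¹ * (√(1 - 47 / 125 : ℝ))⁻¹ := by
      positivity
    calc |(√m)⁻¹| * (2 * (√(1 - a))⁻¹ * (√(1 - 1 / 2 : ℝ))⁻¹ * (√(1 - 47 / 125 : ℝ))⁻¹)
        ≤ 1 * (2 * (√(1 - a))⁻¹ * (√(1 - 1 / 2 : ℝ))⁻¹ * (√(1 - 47 / 125 : ℝ))⁻¹) :=
          mul_le_mul_of_nonneg_right e1 e7
      _ ≤ 2 * (1415 / 1000 / tF r) * (1415 / 1000) * (1267 / 1000) := by rw [one_mul]; exact e6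
      _ = 2 * (1415 / 1000) * (1415 / 1000) * (1267 / 1000) / tF r := by ring
      _ ≤ 6 / tF r := by
          gcongr
          norm_num
  · -- the identity
    obtain ⟨hx1, hx2⟩ := abs_le.mp hx
    have e5 : 0 < 1 - r * x := by nlinarith
    have e6 : 0 < 1 + a * x := by nlinarith
    have e7 : 0 < 1 + r * x := by nlinarith
    have hyb : |y x| ≤ 1 / 2 := hy.abs_le hx
    have hzb : |z x| ≤ 47 / 125 := b8.abs_le hx
    have hy0 : 0 < 1 + y x := by
      have := (abs_le.mp hyb).1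
      linarith
    have hz0 : 0 < 1 + z x := by
      have := (abs_le.mp hzb).1
      linarith
    have hWx : 1 + (r - a) * (x * (1 + a * x)⁻¹) = (1 + r * x) / (1 + a * x) := by
      field_simp
      ring
    have hWp : 0 < (1 + r * x) / (1 + a * x) := div_pos e7 e6
    have hQ : m * (1 + a * x) ^ 2 * (1 + y x) = (1 + l * x) * (1 + r * x) +
        b * (1 - r ^ 2) / 2 := by
      have e8 : m * (1 + a * x) ^ 2 * (1 + y x) = m * (1 + a * x) ^ 2 + ν := by
        rw [hydef]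
        field_simp
      rw [e8]
      have e9 := pm_pa hp
      have e10 := pm_pa2 hp
      have e11 := pm_pn hp
      rw [← hm, ← ha] at e9 e10
      rw [← hm, ← hν] at e11
      linear_combination e11 + x * e9 + x ^ 2 * e10
    have hQ0 : 0 < m * (1 + a * x) ^ 2 * (1 + y x) := by positivity
    have hzx : m * (1 + a * x) ^ 2 * (1 + y x) * z x =
        b * (1 - r ^ 2) / 2 * ((1 + r * x) / (1 - r * x)) := by
      rw [hz]
      dsimp only
      rw [hWx]
      field_simp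
    have hP : 1 + Pf r x = m * (1 + a * x) * (1 + y x) * (1 + z x) /
        ((1 + r * x) / (1 + a * x)) := by
      rw [eq_div_iff hWp.ne']
      have e12 : (1 + Pf r x) * (1 + r * x) =
          m * (1 + a * x) ^ 2 * (1 + y x) * (1 + z x) := by
        rw [mul_add (m * (1 + a * x) ^ 2 * (1 + y x)) 1 (z x), hzx, mul_one, hQ, hPf]
        have e13 : (1 : ℝ) - r ^ 2 * x ^ 2 = (1 - r * x) * (1 + r * x) := by ring
        have e5' := e5.ne'
        have e7' := e7.ne'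
        rw [e13]
        have e14 : (1 - r ^ 2) / ((1 - r * x) * (1 + r * x)) * (1 + r * x) =
            (1 - r ^ 2) / (1 - r * x) := by
          rw [← div_div, div_mul_cancel₀ _ e7']
        have e15 : (1 + r * x) / (1 - r * x) = 2 / (1 - r * x) - 1 := by
          rw [eq_sub_iff_add_eq, div_add_one e5']
          congr 1
          ring
        rw [e15]
        linear_combination b * e14
      rw [mul_div_assoc', e12]
      field_simp
    rw [hP, hWx]
    rw [Real.sqrt_div (by positivity), Real.sqrt_mul (by positivity),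
      Real.sqrt_mul (by positivity), Real.sqrt_mul (by positivity)]
    have f1 : 0 < √((1 + r * x) / (1 + a * x)) := Real.sqrt_pos.mpr hWp
    have f2 : 0 < √m := Real.sqrt_pos.mpr hm0
    have f3 : 0 < √(1 + a * x) := Real.sqrt_pos.mpr e6
    have f4 : 0 < √(1 + y x) := Real.sqrt_pos.mpr hy0
    have f5 : 0 < √(1 + z x) := Real.sqrt_pos.mpr hz0
    rw [inv_div]
    field_simp

end Pool.Agent.Lib.MP_cff830_lc.SDP
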