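import Pool.Agent.Lib.MP_cff830_lc.SDP.Stmts

/-!
# The first two coordinates of a random point of the ball (C2)
-/

set_option autoImplicit false

namespace Pool.Agent.Lib.MP_cff830_lc.SDP

open MeasureTheory Real

namespace PlaneAux

/-- Splitting off the first two coordinates. -/
def Phi (j : ℕ) (u : E j) : (ℝ × ℝ) × (Fin (2 * j) → ℝ) :=
  ((u (Sum.inl 0), u (Sum.inl 1)), fun i => u (Sum.inr i))

theorem phi_mp (j : ℕ) : MeasurePreserving (Phi j) volume volume := by
  have h1 := PiLp.volume_preserving_ofLp (Fin 2 ⊕ Fin (2 * j))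
  have h2 := volume_measurePreserving_sumPiEquivProdPi (fun _ : Fin 2 ⊕ Fin (2 * j) => ℝ)
  have h3 : MeasurePreserving (Prod.map (MeasurableEquiv.finTwoArrow (α := ℝ))
      (id : (Fin (2 * j) → ℝ) → (Fin (2 * j) → ℝ))) volume volume :=
    (volume_preserving_finTwoArrow ℝ).prod (MeasurePreserving.id _)
  exact (h3.comp h2).comp h1

theorem vol_sec (j : ℕ) (ρ : ℝ) (hρ : 0 < ρ) :
    volume {y : Fin (2 * j) → ℝ | ∑ i, y i ^ 2 < ρ} =
      ENNReal.ofReal (π ^ j / (j.factorial : ℝ) * ρ ^ j) := by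
  rcases Nat.eq_zero_or_pos j with h | h
  · subst h
    have : {y : Fin (2 * 0) → ℝ | ∑ i, y i ^ 2 < ρ} = Set.univ := by
      ext y; simp [hρ]
    rw [this, MeasureTheory.volume_pi, Measure.pi_univ]
    simp
  · have hne : Nonempty (Fin (2 * j)) := ⟨⟨0, by omega⟩⟩
    have hmp := PiLp.volume_preserving_ofLp (Fin (2 * j))
    have hms : MeasurableSet {y : Fin (2 * j) → ℝ | ∑ i, y i ^ 2 < ρ} :=
      measurableSet_lt (by fun_prop) measurable_const
    rw [← hmp.measure_preimage hms.nullMeasurableSet]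
    have hpre : (WithLp.ofLp ⁻¹' {y : Fin (2 * j) → ℝ | ∑ i, y i ^ 2 < ρ} :
        Set (EuclideanSpace ℝ (Fin (2 * j)))) = Metric.ball 0 (√ρ) := by
      ext y
      rw [Metric.mem_ball, dist_zero_right, EuclideanSpace.norm_eq, Set.mem_preimage,
        Set.mem_ofPred_eq, Real.sqrt_lt_sqrt_iff (Finset.sum_nonneg fun i _ => sq_nonneg _)]
      simp
    rw [hpre, InnerProductSpace.volume_ball_of_dim_even (k := j) (by simp)]
    rw [← ENNReal.ofReal_pow (Real.sqrt_nonneg _), ← ENNReal.ofReal_mul (by positivity)]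
    congr 1
    rw [finrank_euclideanSpace, Fintype.card_fin, pow_mul, Real.sq_sqrt hρ.le]
    ring

end PlaneAux

open PlaneAux in
/-- (C2). -/
theorem stPlane : StPlane := by
  intro j Ω hΩ
  set D : Set (ℝ × ℝ) := {z : ℝ × ℝ | z.1 ^ 2 + z.2 ^ 2 < 1} with hD
  have hDm : MeasurableSet D := measurableSet_lt (by fun_prop) measurable_const
  set c : ℝ := π ^ j / (j.factorial : ℝ) with hc
  have hc0 : 0 < c := by positivity
  -- the total volume
  have htot : (volume (Metric.ball (0 : E j) 1)).toReal =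
      π ^ (j + 1) / ((j + 1).factorial : ℝ) := by
    have hnt : Nontrivial (E j) := by infer_instance
    rw [InnerProductSpace.volume_ball_of_dim_even (k := j + 1)
      (by simp; ring)]
    rw [ENNReal.ofReal_one, one_pow, one_mul, ENNReal.toReal_ofReal (by positivity)]
  -- the numerator
  let B : Set ((ℝ × ℝ) × (Fin (2 * j) → ℝ)) :=
    {w | w.1 ∈ Ω ∧ w.1.1 ^ 2 + w.1.2 ^ 2 + ∑ i, w.2 i ^ 2 < 1}
  have hBf : Measurable fun w : (ℝ × ℝ) × (Fin (2 * j) → ℝ) =>
      w.1.1 ^ 2 + w.1.2 ^ 2 + ∑ i, w.2 i ^ 2 := by fun_prop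
  have hB : MeasurableSet B :=
    (measurable_fst hΩ).inter (measurableSet_lt hBf measurable_const)
  have hset : {u : E j | (u (Sum.inl 0), u (Sum.inl 1)) ∈ Ω} ∩ Metric.ball (0 : E j) 1 =
      Phi j ⁻¹' B := by
    ext u
    simp only [Set.mem_inter_iff, Set.mem_ofPred_eq, Metric.mem_ball, dist_zero_right,
      Set.mem_preimage, B, Phi]
    rw [EuclideanSpace.norm_eq, Fintype.sum_sum_type, Fin.sum_univ_two,
      Real.sqrt_lt' one_pos]
    simp
  have hnum : volume ({u : E j | (u (Sum.inl 0), u (Sum.inl 1)) ∈ Ω} ∩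
      Metric.ball (0 : E j) 1) =
      ∫⁻ z in Ω ∩ D, ENNReal.ofReal (c * (1 - z.1 ^ 2 - z.2 ^ 2) ^ j) := by
    rw [hset, (phi_mp j).measure_preimage hB.nullMeasurableSet, Measure.volume_eq_prod,
      Measure.prod_apply hB, ← lintegral_indicator (hΩ.inter hDm)]
    apply lintegral_congr
    intro z
    by_cases hz : z ∈ Ω ∩ D
    · rw [Set.indicator_of_mem hz]
      have hz2 : z.1 ^ 2 + z.2 ^ 2 < 1 := hz.2
      have e : Prod.mk z ⁻¹' B =
          {y : Fin (2 * j) → ℝ | ∑ i, y i ^ 2 < 1 - z.1 ^ 2 - z.2 ^ 2} := by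
        ext y
        simp only [B, Set.mem_preimage, Set.mem_ofPred_eq]
        constructor
        · rintro ⟨-, h⟩; linarith
        · intro h; exact ⟨hz.1, by linarith⟩
      rw [e, vol_sec j _ (by linarith)]
    · rw [Set.indicator_of_notMem hz]
      have e : Prod.mk z ⁻¹' B = ∅ := by
        ext y
        simp only [B, Set.mem_preimage, Set.mem_ofPred_eq, Set.mem_empty_iff_false, iff_false]
        rintro ⟨h1, h2⟩
        apply hz
        refine ⟨h1, ?_⟩
        have : 0 ≤ ∑ i, y i ^ 2 := Finset.sum_nonneg fun i _ => sq_nonneg _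
        show z.1 ^ 2 + z.2 ^ 2 < 1
        linarith
      rw [e, measure_empty]
  have hint : (∫⁻ z in Ω ∩ D, ENNReal.ofReal (c * (1 - z.1 ^ 2 - z.2 ^ 2) ^ j)).toReal =
      c * ∫ z in Ω ∩ D, (1 - z.1 ^ 2 - z.2 ^ 2) ^ j := by
    rw [← integral_const_mul, integral_eq_lintegral_of_nonneg_ae]
    · filter_upwards [ae_restrict_mem (hΩ.inter hDm)] with z hz
      have hz2 : z.1 ^ 2 + z.2 ^ 2 < 1 := hz.2
      have : 0 ≤ 1 - z.1 ^ 2 - z.2 ^ 2 := by linarith
      show 0 ≤ c * (1 - z.1 ^ 2 - z.2 ^ 2) ^ j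
      positivity
    · exact (by fun_prop : Measurable fun z : ℝ × ℝ =>
        c * (1 - z.1 ^ 2 - z.2 ^ 2) ^ j).aestronglyMeasurable
  unfold pr
  rw [hnum, hint, htot, hc, Nat.factorial_succ]
  push_cast
  have h1 : (j.factorial : ℝ) ≠ 0 := by positivity
  have h2 : ((j : ℝ) + 1) ≠ 0 := by positivity
  field_simp
  ring

end Pool.Agent.Lib.MP_cff830_lc.SDP
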