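import Pool.Agent.Lib.MP_cff830_lc.SDP.Stmts

/-!
# A plane integral in polar coordinates
-/

set_option autoImplicit false

namespace Pool.Agent.Lib.MP_cff830_lc.SDP

namespace PolarAux

open Set MeasureTheory Real

/-- The integrand in polar coordinates. -/
noncomputable def G (j : ℕ) (t θ r φ : ℝ) : ℝ :=
  if t < r * cos (|φ| + θ) then r * (1 - r ^ 2) ^ j else 0

/-- The inner integral. -/
noncomputable def H (j : ℕ) (t v : ℝ) : ℝ :=
  if v < arccos t then (1 - t ^ 2 / cos v ^ 2) ^ (j + 1) / (2 * (j + 1)) else 0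

theorem cond_iff {t θ r φ : ℝ} (hθ : 0 ≤ θ) (hθ2 : θ ≤ π / 2) (hr : 0 < r) (h1 : -π < φ)
    (h2 : φ < π) :
    (t < cos θ * (r * cos φ) + sin θ * (r * sin φ) ∧
      t < cos θ * (r * cos φ) - sin θ * (r * sin φ)) ↔ t < r * cos (|φ| + θ) := by
  have hs : 0 ≤ sin θ := sin_nonneg_of_nonneg_of_le_pi hθ (by linarith [pi_pos])
  rw [cos_add, cos_abs]
  rcases le_or_gt 0 φ with h | h
  · have hp : 0 ≤ sin φ := sin_nonneg_of_nonneg_of_le_pi h h2.le
    have h3 : 0 ≤ r * (sin φ * sin θ) := by positivity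
    rw [abs_of_nonneg h]
    constructor
    · rintro ⟨-, h4⟩
      linarith
    · intro h4
      constructor <;> linarith
  · have hp : 0 ≤ sin (-φ) := sin_nonneg_of_nonneg_of_le_pi (by linarith) (by linarith)
    have h3 : 0 ≤ r * (sin (-φ) * sin θ) := by positivity
    rw [abs_of_neg h]
    rw [sin_neg] at h3 ⊢
    constructor
    · rintro ⟨h4, -⟩
      linarith
    · intro h4
      constructor <;> linarith

theorem measurable_G (j : ℕ) (t θ : ℝ) : Measurable fun p : ℝ × ℝ => G j t θ p.2 p.1 := by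
  unfold G
  refine Measurable.ite (measurableSet_lt measurable_const (by fun_prop)) (by fun_prop)
    measurable_const

theorem norm_G_le {j : ℕ} {t θ r φ : ℝ} (hr : 0 < r) (hr1 : r < 1) : ‖G j t θ r φ‖ ≤ 1 := by
  unfold G
  split_ifs
  · have h1 : 0 ≤ 1 - r ^ 2 := by nlinarith
    have h2 : 1 - r ^ 2 ≤ 1 := by nlinarith
    have h3 : (1 - r ^ 2) ^ j ≤ 1 := pow_le_one₀ h1 h2
    have h4 : 0 ≤ (1 - r ^ 2) ^ j := pow_nonneg h1 j
    rw [Real.norm_eq_abs, abs_of_nonneg (by positivity)]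
    nlinarith
  · simp

theorem inner {j : ℕ} {t θ φ : ℝ} (ht : 0 < t) (ht1 : t < 1) (hθ : 0 ≤ θ) (hθ2 : θ ≤ π / 2)
    (hφ : |φ| < π) : ∫ r in Ioo (0 : ℝ) 1, G j t θ r φ = H j t (|φ| + θ) := by
  have h0 : 0 ≤ |φ| + θ := by positivity
  unfold H
  split_ifs with h
  · have hc : t < cos (|φ| + θ) := by
      have h1 := cos_lt_cos_of_nonneg_of_le_pi h0 (arccos_le_pi t) h
      rwa [cos_arccos (by linarith) ht1.le] at h1
    set c := cos (|φ| + θ) with hcdef
    have hc0 : 0 < c := ht.trans hc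
    have htc : t / c < 1 := (div_lt_one hc0).2 hc
    have htc0 : 0 < t / c := div_pos ht hc0
    have h1 : ∫ r in Ioo (0 : ℝ) 1, G j t θ r φ = ∫ r in Ioo (t / c) 1, G j t θ r φ := by
      refine setIntegral_eq_of_subset_of_forall_sdiff_eq_zero measurableSet_Ioo
        (Ioo_subset_Ioo_left htc0.le) ?_
      rintro r ⟨hr, hr'⟩
      have h2 : r ≤ t / c := by
        by_contra h3
        exact hr' ⟨not_le.1 h3, hr.2⟩
      unfold G
      rw [if_neg]
      rw [not_lt, ← hcdef]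
      rwa [le_div_iff₀ hc0] at h2
    have h2 : ∫ r in Ioo (t / c) 1, G j t θ r φ = ∫ r in Ioo (t / c) 1, r * (1 - r ^ 2) ^ j := by
      refine setIntegral_congr_fun measurableSet_Ioo fun r hr => ?_
      have h3 : t < r * c := by
        have := hr.1
        rwa [div_lt_iff₀ hc0] at this
      simp only [G, ← hcdef, if_pos h3]
    rw [h1, h2, ← integral_Ioc_eq_integral_Ioo, ← intervalIntegral.integral_of_le htc.le]
    have hd : ∀ r : ℝ, HasDerivAt (fun r : ℝ => -((1 - r ^ 2) ^ (j + 1) / (2 * (j + 1))))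
        (r * (1 - r ^ 2) ^ j) r := by
      intro r
      have h3 : HasDerivAt (fun r : ℝ => 1 - r ^ 2) (-(2 * r)) r := by
        simpa using ((hasDerivAt_pow 2 r).const_sub 1)
      have h4 := ((h3.pow (j + 1)).div_const (2 * ((j : ℝ) + 1))).neg
      have h5 : ((j : ℝ) + 1) ≠ 0 := by positivity
      have h6 : -(((j + 1 : ℕ) : ℝ) * (1 - r ^ 2) ^ (j + 1 - 1) * -(2 * r) /
          (2 * ((j : ℝ) + 1))) = r * (1 - r ^ 2) ^ j := by
        rw [Nat.add_sub_cancel]
        push_cast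
        field_simp
      rw [← h6]
      exact h4
    rw [intervalIntegral.integral_eq_sub_of_hasDerivAt (fun r _ => hd r)
      (Continuous.intervalIntegrable (by fun_prop) _ _)]
    have h6 : (1 - (1 : ℝ) ^ 2) ^ (j + 1) = 0 := by simp
    rw [h6, div_pow]
    ring
  · have hc : cos (|φ| + θ) ≤ t := by
      rw [not_lt] at h
      rcases le_or_gt (|φ| + θ) π with h1 | h1
      · have h2 := cos_le_cos_of_nonneg_of_le_pi (arccos_nonneg t) h1 h
        rwa [cos_arccos (by linarith) ht1.le] at h2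
      · have h2 : cos (|φ| + θ) ≤ 0 :=
          cos_nonpos_of_pi_div_two_le_of_le (by linarith) (by linarith)
        linarith
    have h1 : ∀ r ∈ Ioo (0 : ℝ) 1, G j t θ r φ = 0 := by
      intro r hr
      unfold G
      rw [if_neg]
      rw [not_lt]
      rcases le_or_gt (cos (|φ| + θ)) 0 with h2 | h2
      · nlinarith [hr.1, hr.2]
      · nlinarith [hr.1, hr.2]
    rw [setIntegral_congr_fun measurableSet_Ioo h1]
    simp

end PolarAux

open PolarAux Set MeasureTheory Real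

theorem stPolar : StPolar := by
  intro j t θ ht ht1 hθ hθ1
  have ha : arccos t ≤ π / 2 := arccos_le_pi_div_two.2 ht.le
  have hθ2 : θ ≤ π / 2 := hθ1.trans ha
  set A : Set (ℝ × ℝ) := {z : ℝ × ℝ | t < cos θ * z.1 + sin θ * z.2 ∧
      t < cos θ * z.1 - sin θ * z.2} ∩ {z : ℝ × ℝ | z.1 ^ 2 + z.2 ^ 2 < 1} with hA
  have hAm : MeasurableSet A := by
    refine MeasurableSet.inter (MeasurableSet.inter ?_ ?_) ?_
    · exact measurableSet_lt (f := fun _ : ℝ × ℝ => t)
        (g := fun z : ℝ × ℝ => cos θ * z.1 + sin θ * z.2) measurable_const (by fun_prop)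
    · exact measurableSet_lt (f := fun _ : ℝ × ℝ => t)
        (g := fun z : ℝ × ℝ => cos θ * z.1 - sin θ * z.2) measurable_const (by fun_prop)
    · exact measurableSet_lt (f := fun z : ℝ × ℝ => z.1 ^ 2 + z.2 ^ 2) (g := fun _ => (1 : ℝ))
        (by fun_prop) measurable_const
  have h1 : ∫ z in A, (1 - z.1 ^ 2 - z.2 ^ 2) ^ j =
      ∫ p in Ioi (0 : ℝ) ×ˢ Ioo (-π) π, if p.1 < 1 then G j t θ p.1 p.2 else 0 := by
    rw [← integral_indicator hAm, ← integral_comp_polarCoord_symm, polarCoord_target]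
    refine setIntegral_congr_fun (measurableSet_Ioi.prod measurableSet_Ioo) ?_
    rintro ⟨r, φ⟩ ⟨hr, hφ⟩
    simp only [mem_Ioi, mem_Ioo] at hr hφ
    have hsq : (r * cos φ) ^ 2 + (r * sin φ) ^ 2 = r ^ 2 := by
      have := sin_sq_add_cos_sq φ
      linear_combination r ^ 2 * this
    have hsq' : 1 - (r * cos φ) ^ 2 - (r * sin φ) ^ 2 = 1 - r ^ 2 := by linarith
    have hr1 : r ^ 2 < 1 ↔ r < 1 := by
      constructor
      · intro h
        nlinarith
      · intro h
        nlinarith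
    have hmem : (r * cos φ, r * sin φ) ∈ A ↔ t < r * cos (|φ| + θ) ∧ r < 1 := by
      rw [← cond_iff hθ hθ2 hr hφ.1 hφ.2, ← hr1, ← hsq]
      exact Iff.rfl
    simp only [polarCoord_symm_apply, smul_eq_mul]
    by_cases h2 : t < r * cos (|φ| + θ) ∧ r < 1
    · rw [indicator_of_mem (hmem.2 h2)]
      simp [G, h2.1, h2.2, hsq']
    · rw [indicator_of_notMem fun h => h2 (hmem.1 h)]
      unfold G
      by_cases h3 : t < r * cos (|φ| + θ)
      · have h4 : ¬ r < 1 := fun h => h2 ⟨h3, h⟩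
        simp [h4]
      · simp [h3]
  have h2 : ∫ p in Ioi (0 : ℝ) ×ˢ Ioo (-π) π, (if p.1 < 1 then G j t θ p.1 p.2 else 0) =
      ∫ p in Ioo (0 : ℝ) 1 ×ˢ Ioo (-π) π, G j t θ p.1 p.2 := by
    rw [setIntegral_eq_of_subset_of_forall_sdiff_eq_zero
      (s := Ioo (0 : ℝ) 1 ×ˢ Ioo (-π) π) (measurableSet_Ioi.prod measurableSet_Ioo)
      (prod_mono Ioo_subset_Ioi_self subset_rfl)]
    · refine setIntegral_congr_fun (measurableSet_Ioo.prod measurableSet_Ioo) ?_
      rintro ⟨r, φ⟩ ⟨hr, -⟩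
      simp only [mem_Ioo] at hr
      simp [hr.2]
    · rintro ⟨r, φ⟩ ⟨⟨hr, hφ⟩, h3⟩
      simp only [mem_Ioi, mem_Ioo, mem_prod, not_and] at hr hφ h3
      have h4 : ¬ r < 1 := fun h => h3 ⟨hr, h⟩ hφ.1 hφ.2
      simp [h4]
  have h3 : ∫ p in Ioo (0 : ℝ) 1 ×ˢ Ioo (-π) π, G j t θ p.1 p.2 =
      ∫ φ in Ioo (-π) π, ∫ r in Ioo (0 : ℝ) 1, G j t θ r φ := by
    have h4 := setIntegral_prod_swap (μ := (volume : Measure ℝ)) (ν := (volume : Measure ℝ))
      (Ioo (0 : ℝ) 1) (Ioo (-π) π) (fun p : ℝ × ℝ => G j t θ p.1 p.2)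
    rw [Measure.volume_eq_prod, ← h4]
    refine setIntegral_prod _ ?_
    refine Measure.integrableOn_of_bounded (M := 1) ?_ ?_ ?_
    · rw [Measure.prod_prod]
      simp only [volume_Ioo]
      exact ENNReal.mul_ne_top ENNReal.ofReal_ne_top ENNReal.ofReal_ne_top
    · exact (measurable_G j t θ).aestronglyMeasurable
    · refine (ae_restrict_iff' (measurableSet_Ioo.prod measurableSet_Ioo)).2 ?_
      refine Filter.Eventually.of_forall ?_
      rintro ⟨φ, r⟩ ⟨-, hr⟩
      exact norm_G_le hr.1 hr.2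
  have h4 : ∫ φ in Ioo (-π) π, ∫ r in Ioo (0 : ℝ) 1, G j t θ r φ =
      ∫ φ : ℝ, H j t (|φ| + θ) := by
    have h5 : ∫ φ in Ioo (-π) π, ∫ r in Ioo (0 : ℝ) 1, G j t θ r φ =
        ∫ φ in Ioo (-π) π, H j t (|φ| + θ) := by
      refine setIntegral_congr_fun measurableSet_Ioo fun φ hφ => ?_
      exact inner ht ht1 hθ hθ2 (abs_lt.2 ⟨hφ.1, hφ.2⟩)
    rw [h5, ← setIntegral_univ (μ := volume) (f := fun φ : ℝ => H j t (|φ| + θ))]
    symm
    refine setIntegral_eq_of_subset_of_forall_sdiff_eq_zero MeasurableSet.univ (subset_univ _) ?_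
    rintro φ ⟨-, hφ⟩
    have h6 : π ≤ |φ| := by
      by_contra h7
      exact hφ (abs_lt.1 (not_le.1 h7))
    unfold H
    rw [if_neg]
    rw [not_lt]
    linarith [pi_pos]
  have h5 : ∫ φ : ℝ, H j t (|φ| + θ) = 2 * ∫ v in θ..(arccos t), H j t v := by
    rw [integral_comp_abs (f := fun x => H j t (x + θ))]
    congr 1
    rw [setIntegral_eq_of_subset_of_forall_sdiff_eq_zero (s := Ioc 0 (arccos t - θ))
      measurableSet_Ioi Ioc_subset_Ioi_self]
    · rw [← intervalIntegral.integral_of_le (by linarith),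
        intervalIntegral.integral_comp_add_right (fun v => H j t v)]
      simp
    · rintro x ⟨hx, hx'⟩
      have h6 : arccos t - θ < x := by
        by_contra h7
        exact hx' ⟨hx, not_lt.1 h7⟩
      unfold H
      rw [if_neg]
      rw [not_lt]
      linarith
  have h6 : ∫ v in θ..(arccos t), H j t v =
      ∫ v in θ..(arccos t), (1 - t ^ 2 / cos v ^ 2) ^ (j + 1) / (2 * ((j : ℝ) + 1)) := by
    rw [intervalIntegral.integral_of_le hθ1, intervalIntegral.integral_of_le hθ1,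
      integral_Ioc_eq_integral_Ioo, integral_Ioc_eq_integral_Ioo]
    refine setIntegral_congr_fun measurableSet_Ioo fun v hv => ?_
    simp only [H, if_pos hv.2]
  rw [h1, h2, h3, h4, h5, h6, intervalIntegral.integral_div]
  have h7 : ((j : ℝ) + 1) ≠ 0 := by positivity
  have h8 := pi_ne_zero
  field_simp

end Pool.Agent.Lib.MP_cff830_lc.SDP
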