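import Pool.Agent.Lib.MP_cff830_lc.SDP.Stmts

set_option autoImplicit false

/-! (B1) power series kernels on the cube are positive semidefinite. -/

namespace Pool.Agent.Lib.MP_cff830_lc.SDP

open Finset MeasureTheory Real

namespace PsdAux

/-- the characters of weight one -/
def ep {m : ℕ} (i : Fin m) (x : Fin m → Bool) : ℝ := if x i then -1 else 1

theorem ep_mul {m : ℕ} (i : Fin m) (x y : Fin m → Bool) :
    ep i x * ep i y = 1 - 2 * (if x i ≠ y i then 1 else 0) := by
  unfold ep
  cases x i <;> cases y i <;> norm_num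

theorem rho_eq {m : ℕ} (hm : 1 ≤ m) (x y : Fin m → Bool) :
    rho x y = (1 / m : ℝ) * ∑ i, ep i x * ep i y := by
  have hm0 : (m : ℝ) ≠ 0 := by
    have : m ≠ 0 := by omega
    exact_mod_cast this
  have h1 : ∑ i, ep i x * ep i y = (m : ℝ) - 2 * (hammingDist x y : ℝ) := by
    simp only [ep_mul]
    rw [Finset.sum_sub_distrib, ← Finset.mul_sum]
    simp only [Finset.sum_const, Finset.card_univ, Fintype.card_fin, nsmul_eq_mul, mul_one]
    rw [hammingDist, Finset.sum_boole]
  rw [h1, rho]
  field_simp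

theorem abs_rho {m : ℕ} (hm : 1 ≤ m) (x y : Fin m → Bool) : |rho x y| ≤ 1 := by
  have hm0 : (0 : ℝ) < m := by exact_mod_cast hm
  have h1 : (hammingDist x y : ℝ) ≤ m := by
    have := hammingDist_le_card_fintype (x := x) (y := y)
    rw [Fintype.card_fin] at this
    exact_mod_cast this
  have h2 : (0 : ℝ) ≤ hammingDist x y := Nat.cast_nonneg _
  have h3 : (hammingDist x y : ℝ) / m ≤ 1 := (div_le_one hm0).2 h1
  have h4 : 0 ≤ (hammingDist x y : ℝ) / m := div_nonneg h2 hm0.le
  rw [rho, abs_le]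
  rw [mul_div_assoc]
  constructor <;> linarith

theorem psd_pow {m : ℕ} (hm : 1 ≤ m) (k : ℕ) :
    PSD fun x y : Fin m → Bool => rho x y ^ k := by
  induction k with
  | zero =>
    intro c
    have : ∑ x, ∑ y, c x * c y * (rho x y ^ 0) = (∑ x, c x) ^ 2 := by
      simp only [pow_zero, mul_one]
      rw [sq, Finset.sum_mul_sum]
    rw [this]
    exact sq_nonneg _
  | succ k ih =>
    intro c
    have h1 : ∑ x, ∑ y, c x * c y * (rho x y ^ (k + 1)) =
        (1 / m : ℝ) * ∑ i : Fin m, ∑ x, ∑ y, (c x * ep i x) * (c y * ep i y) * rho x y ^ k := by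
      rw [Finset.mul_sum]
      have e : ∀ i : Fin m, (1 / m : ℝ) * ∑ x, ∑ y, (c x * ep i x) * (c y * ep i y) * rho x y ^ k =
          ∑ x, ∑ y, (1 / m : ℝ) * ((c x * ep i x) * (c y * ep i y) * rho x y ^ k) := by
        intro i
        rw [Finset.mul_sum]
        exact Finset.sum_congr rfl fun x _ => Finset.mul_sum _ _ _
      rw [Finset.sum_congr rfl fun i _ => e i]
      conv_rhs => rw [Finset.sum_comm]
      refine Finset.sum_congr rfl fun x _ => ?_
      conv_rhs => rw [Finset.sum_comm]
      refine Finset.sum_congr rfl fun y _ => ?_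
      rw [pow_succ]
      conv_lhs => rw [show rho x y ^ k * rho x y =
        rho x y ^ k * ((1 / m : ℝ) * ∑ i, ep i x * ep i y) by rw [← rho_eq hm]]
      rw [Finset.mul_sum, Finset.mul_sum, Finset.mul_sum]
      exact Finset.sum_congr rfl fun i _ => by ring
    rw [h1]
    refine mul_nonneg (by positivity) (Finset.sum_nonneg fun i _ => ?_)
    have h2 := ih fun x => c x * ep i x
    exact h2

end PsdAux

open PsdAux

theorem stPsd : StPsd := by
  intro m f c hm hf v
  obtain ⟨a, ha, -, hx⟩ := hf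
  have h1 : HasSum (fun k => ∑ x : Fin m → Bool, ∑ y, v x * v y * (a k * rho x y ^ k))
      (∑ x, ∑ y, v x * v y * f (rho x y)) :=
    hasSum_sum fun x _ => hasSum_sum fun y _ => (hx _ (abs_rho hm x y)).mul_left _
  refine h1.nonneg fun k => ?_
  have h2 : ∑ x : Fin m → Bool, ∑ y, v x * v y * (a k * rho x y ^ k) =
      a k * ∑ x, ∑ y, v x * v y * rho x y ^ k := by
    rw [Finset.mul_sum]
    refine Finset.sum_congr rfl fun x _ => ?_
    rw [Finset.mul_sum]
    exact Finset.sum_congr rfl fun y _ => by ring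
  rw [h2]
  exact mul_nonneg (ha k) (psd_pow hm k v)

end Pool.Agent.Lib.MP_cff830_lc.SDP
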