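import Pool.Agent.Lib.MP_cff830_lc.SDP.Stmts

/-!
# Families with equal Gram matrices, and invariance under rotations
-/

set_option autoImplicit false

namespace Pool.Agent.Lib.MP_cff830_lc.SDP

open Finset MeasureTheory Real
open scoped InnerProductSpace

namespace RotAux

theorem inner_comb {j : ℕ} {ι : Type} (a : ι → E j) (c : ι →₀ ℝ) :
    ⟪Finsupp.linearCombination ℝ a c, Finsupp.linearCombination ℝ a c⟫_ℝ =
      c.sum fun x s => c.sum fun y t => s * (t * ⟪a x, a y⟫_ℝ) := by
  rw [Finsupp.linearCombination_apply, Finsupp.sum_inner]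
  refine Finsupp.sum_congr fun x _ => ?_
  rw [Finsupp.inner_sum]
  refine Finsupp.sum_congr fun y _ => ?_
  rw [real_inner_smul_left, real_inner_smul_right]

theorem norm_comb {j : ℕ} {ι : Type} {a b : ι → E j} (h : ∀ x y, ⟪a x, a y⟫_ℝ = ⟪b x, b y⟫_ℝ)
    (c : ι →₀ ℝ) :
    ‖Finsupp.linearCombination ℝ b c‖ = ‖Finsupp.linearCombination ℝ a c‖ := by
  have h1 : ‖Finsupp.linearCombination ℝ b c‖ ^ 2 = ‖Finsupp.linearCombination ℝ a c‖ ^ 2 := by
    rw [← real_inner_self_eq_norm_sq, ← real_inner_self_eq_norm_sq, inner_comb, inner_comb]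
    simp only [h]
  exact (sq_eq_sq₀ (norm_nonneg _) (norm_nonneg _)).1 h1

theorem exists_iso {j : ℕ} {ι : Type} (a b : ι → E j)
    (h : ∀ x y, ⟪a x, a y⟫_ℝ = ⟪b x, b y⟫_ℝ) : ∃ O : E j ≃ₗᵢ[ℝ] E j, ∀ x, O (a x) = b x := by
  classical
  set La := Finsupp.linearCombination ℝ a with hLa
  set Lb := Finsupp.linearCombination ℝ b with hLb
  obtain ⟨g, hg⟩ := La.rangeRestrict.exists_rightInverse_of_surjective La.range_rangeRestrict
  have hg' : ∀ v : LinearMap.range La, La (g v) = v := fun v =>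
    congrArg Subtype.val (LinearMap.congr_fun hg v)
  let T : LinearMap.range La →ₗᵢ[ℝ] E j :=
    { toLinearMap := Lb ∘ₗ g
      norm_map' := fun v => by
        rw [LinearMap.comp_apply, norm_comb h, hg']
        rfl }
  have hT : ∀ c : ι →₀ ℝ, T ⟨La c, LinearMap.mem_range_self La c⟩ = Lb c := by
    intro c
    have h1 : La (g ⟨La c, LinearMap.mem_range_self La c⟩ - c) = 0 := by
      rw [map_sub, hg', sub_self]
    have h2 : Lb (g ⟨La c, LinearMap.mem_range_self La c⟩ - c) = 0 := by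
      rw [← norm_eq_zero, norm_comb h, h1, norm_zero]
    rw [map_sub, sub_eq_zero] at h2
    exact h2
  refine ⟨T.extend.toLinearIsometryEquiv rfl, fun x => ?_⟩
  have h3 : La (Finsupp.single x 1) = a x := by simp [hLa]
  have h4 : Lb (Finsupp.single x 1) = b x := by simp [hLb]
  have h5 := T.extend_apply ⟨La (Finsupp.single x 1), LinearMap.mem_range_self La _⟩
  rw [hT, h4] at h5
  simp only [h3] at h5
  exact h5

theorem pr_preimage {j : ℕ} (O : E j ≃ₗᵢ[ℝ] E j) (A : Set (E j)) : pr j (O ⁻¹' A) = pr j A := by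
  have h1 : O ⁻¹' A ∩ Metric.ball (0 : E j) 1 = O ⁻¹' (A ∩ Metric.ball (0 : E j) 1) := by
    ext u
    simp
  have h2 : volume (O ⁻¹' (A ∩ Metric.ball (0 : E j) 1)) = volume (A ∩ Metric.ball (0 : E j) 1) :=
    (show MeasurePreserving O.toMeasurableEquiv volume volume from
      O.measurePreserving).measure_preimage_equiv _
  unfold pr
  rw [h1, h2]

end RotAux

/-- (C4) rotations -/
theorem stRot : StRot := fun _ =>
  ⟨fun _ a b h => RotAux.exists_iso a b h, fun O A => RotAux.pr_preimage O A⟩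

end Pool.Agent.Lib.MP_cff830_lc.SDP
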