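import Pool.Agent.Lib.MP_cff830_lc.SDP.Stmts

/-!
# SDP, module B2: random sets with kernel `(1 + w) / 4`
-/

set_option autoImplicit false

namespace Pool.Agent.Lib.MP_cff830_lc.SDP

open Finset

namespace SignAux

variable {V : Type} [Fintype V] [DecidableEq V]

/-- The sign of a point with respect to a set. -/
def sg (R : Finset V) (x : V) : ℝ := if x ∈ R then 1 else -1

/-- Kernels of random signs. -/
def Rep (W : V → V → ℝ) : Prop :=
  ∃ ν : Finset V → ℝ, (∀ R, 0 ≤ ν R) ∧ ∑ R, ν R = 1 ∧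
    ∀ x y, ∑ R, ν R * (sg R x * sg R y) = W x y

theorem push_sum {ι : Type} [Fintype ι] (ν : ι → ℝ) (F : ι → Finset V) (c : Finset V → ℝ) :
    ∑ R, (∑ i, if F i = R then ν i else 0) * c R = ∑ i, ν i * c (F i) := by
  simp_rw [Finset.sum_mul]
  rw [Finset.sum_comm]
  refine Finset.sum_congr rfl fun i _ => ?_
  rw [Finset.sum_eq_single (F i)]
  · simp
  · intro R _ hR
    rw [if_neg (Ne.symm hR), zero_mul]
  · intro h
    exact absurd (mem_univ _) h

theorem Rep.of_fam {ι : Type} [Fintype ι] {W : V → V → ℝ} (ν : ι → ℝ) (F : ι → Finset V)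
    (h0 : ∀ i, 0 ≤ ν i) (h1 : ∑ i, ν i = 1)
    (hW : ∀ x y, ∑ i, ν i * (sg (F i) x * sg (F i) y) = W x y) : Rep W := by
  refine ⟨fun R => ∑ i, if F i = R then ν i else 0, ?_, ?_, ?_⟩
  · intro R
    refine Finset.sum_nonneg fun i _ => ?_
    split_ifs
    · exact h0 i
    · exact le_rfl
  · have := push_sum ν F (fun _ => 1)
    simp only [mul_one] at this
    rw [this, h1]
  · intro x y
    rw [← hW x y]
    exact push_sum ν F (fun R => sg R x * sg R y)

theorem Rep.one : Rep (fun _ _ : V => (1 : ℝ)) := by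
  refine Rep.of_fam (ι := Unit) (fun _ => 1) (fun _ => ∅) (fun _ => zero_le_one) (by simp) ?_
  intro x y
  simp [sg]

theorem sg_eq (R S : Finset V) (x : V) :
    sg (univ.filter fun z => (z ∈ R ↔ z ∈ S)) x = sg R x * sg S x := by
  unfold sg
  simp only [mem_filter, mem_univ, true_and]
  by_cases h1 : x ∈ R <;> by_cases h2 : x ∈ S <;> simp [h1, h2]

theorem Rep.mul {W U : V → V → ℝ} (hW : Rep W) (hU : Rep U) : Rep (fun x y => W x y * U x y) := by
  obtain ⟨ν, h0, h1, h2⟩ := hW
  obtain ⟨μ, k0, k1, k2⟩ := hU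
  refine Rep.of_fam (ι := Finset V × Finset V) (fun p => ν p.1 * μ p.2)
    (fun p => univ.filter fun z => (z ∈ p.1 ↔ z ∈ p.2)) (fun p => mul_nonneg (h0 _) (k0 _)) ?_ ?_
  · rw [Fintype.sum_prod_type]
    simp_rw [← Finset.mul_sum, k1, mul_one]
    exact h1
  · intro x y
    rw [Fintype.sum_prod_type, ← h2 x y, ← k2 x y, Finset.sum_mul]
    refine Finset.sum_congr rfl fun R _ => ?_
    rw [Finset.mul_sum]
    refine Finset.sum_congr rfl fun S _ => ?_
    rw [sg_eq, sg_eq]
    ring

theorem Rep.pow {W : V → V → ℝ} (hW : Rep W) (k : ℕ) : Rep (fun x y => W x y ^ k) := by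
  induction k with
  | zero => simpa using Rep.one (V := V)
  | succ k ih => simpa [pow_succ] using ih.mul hW

theorem Rep.series {W U : V → V → ℝ} (hW : Rep W) (a : ℕ → ℝ) (ha : ∀ k, 0 ≤ a k)
    (h1 : HasSum a 1) (hU : ∀ x y, HasSum (fun k => a k * W x y ^ k) (U x y)) : Rep U := by
  have hp : ∀ k, ∃ ν : Finset V → ℝ, (∀ R, 0 ≤ ν R) ∧ ∑ R, ν R = 1 ∧
    ∀ x y, ∑ R, ν R * (sg R x * sg R y) = W x y ^ k := fun k => hW.pow k
  choose ν n0 n1 n2 using hp
  have hle : ∀ k R, ν k R ≤ 1 := by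
    intro k R
    rw [← n1 k]
    exact Finset.single_le_sum (f := ν k) (fun S _ => n0 k S) (mem_univ R)
  have hs : ∀ R, Summable (fun k => a k * ν k R) := fun R =>
    Summable.of_nonneg_of_le (fun k => mul_nonneg (ha k) (n0 k R))
      (fun k => mul_le_of_le_one_right (ha k) (hle k R)) h1.summable
  refine ⟨fun R => ∑' k, a k * ν k R, fun R => tsum_nonneg fun k => mul_nonneg (ha k) (n0 k R),
    ?_, ?_⟩
  · have h2 : HasSum (fun k => ∑ R, a k * ν k R) (∑ R, ∑' k, a k * ν k R) :=
      hasSum_sum fun R _ => (hs R).hasSum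
    have h3 : (fun k => ∑ R, a k * ν k R) = a := by
      funext k
      rw [← Finset.mul_sum, n1 k, mul_one]
    rw [h3] at h2
    exact h2.unique h1
  · intro x y
    have h2 : HasSum (fun k => ∑ R, a k * ν k R * (sg R x * sg R y))
        (∑ R, (∑' k, a k * ν k R) * (sg R x * sg R y)) :=
      hasSum_sum fun R _ => (hs R).hasSum.mul_right _
    have h3 : (fun k => ∑ R, a k * ν k R * (sg R x * sg R y)) = fun k => a k * W x y ^ k := by
      funext k
      rw [← n2 k x y, Finset.mul_sum]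
      exact Finset.sum_congr rfl fun R _ => by ring
    rw [h3] at h2
    exact h2.unique (hU x y)

theorem Rep.rho {m : ℕ} (hm : 1 ≤ m) : Rep (fun x y : Fin m → Bool => rho x y) := by
  have hm' : (m : ℝ) ≠ 0 := by positivity
  refine Rep.of_fam (ι := Fin m) (fun _ => 1 / m) (fun i => univ.filter fun x => x i = true)
    (fun _ => by positivity) ?_ ?_
  · rw [Finset.sum_const, card_univ, Fintype.card_fin, nsmul_eq_mul]
    field_simp
  · intro x y
    have h1 : ∀ i : Fin m, (1 / (m : ℝ)) * (sg (univ.filter fun x : Fin m → Bool => x i = true) x *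
        sg (univ.filter fun x : Fin m → Bool => x i = true) y) =
        1 / m - 2 / m * (if x i ≠ y i then 1 else 0) := by
      intro i
      unfold sg
      simp only [mem_filter, mem_univ, true_and]
      cases hx : x i <;> cases hy : y i <;> simp <;> ring
    simp_rw [h1]
    rw [Finset.sum_sub_distrib, Finset.sum_const, card_univ, Fintype.card_fin, nsmul_eq_mul,
      ← Finset.mul_sum, Finset.sum_boole]
    unfold SDP.rho hammingDist
    field_simp

end SignAux

open SignAux in
theorem stSign : StSign := by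
  intro m w hm hw
  obtain ⟨a, ha, h1, hx⟩ := hw
  have hrho : ∀ x y : Fin m → Bool, |rho x y| ≤ 1 := by
    intro x y
    have hmpos : (0 : ℝ) < m := by exact_mod_cast hm
    have h2 : ((hammingDist x y : ℕ) : ℝ) ≤ m := by
      have := hammingDist_le_card_fintype (x := x) (y := y)
      rw [Fintype.card_fin] at this
      exact_mod_cast this
    have h3 : 2 * ((hammingDist x y : ℕ) : ℝ) / m ≤ 2 := by
      rw [div_le_iff₀ hmpos]
      linarith
    have h4 : 0 ≤ 2 * ((hammingDist x y : ℕ) : ℝ) / m := by positivity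
    unfold rho
    rw [abs_le]
    constructor <;> linarith
  have hrep : Rep (fun x y : Fin m → Bool => w (rho x y)) :=
    (Rep.rho hm).series a ha h1 fun x y => hx (rho x y) (hrho x y)
  obtain ⟨ν, n0, n1, n2⟩ := hrep
  have hcompl : ∀ g : Finset (Fin m → Bool) → ℝ, ∑ R, g Rᶜ = ∑ R, g R := fun g =>
    Equiv.sum_comp ⟨fun R : Finset (Fin m → Bool) => Rᶜ, fun R => Rᶜ, fun R => compl_compl R,
      fun R => compl_compl R⟩ g
  refine ⟨fun R => (ν R + ν Rᶜ) / 2, fun R => by have := n0 R; have := n0 Rᶜ; linarith, ?_, ?_⟩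
  · rw [← Finset.sum_div, Finset.sum_add_distrib, hcompl ν, n1]
    norm_num
  · intro x y
    have h2 : ∑ R, (if x ∈ R ∧ y ∈ R then (ν R + ν Rᶜ) / 2 else 0) =
        ∑ R, (if x ∈ R ∧ y ∈ R then ν R / 2 else 0) +
        ∑ R, (fun S : Finset (Fin m → Bool) => if x ∉ S ∧ y ∉ S then ν S / 2 else 0) Rᶜ := by
      rw [← Finset.sum_add_distrib]
      refine Finset.sum_congr rfl fun R _ => ?_
      simp only [mem_compl, not_not]
      split_ifs <;> ring
    rw [h2, hcompl (fun S : Finset (Fin m → Bool) => if x ∉ S ∧ y ∉ S then ν S / 2 else 0),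
      ← Finset.sum_add_distrib]
    have h3 : ∀ R : Finset (Fin m → Bool), (if x ∈ R ∧ y ∈ R then ν R / 2 else 0) +
        (if x ∉ R ∧ y ∉ R then ν R / 2 else 0) =
        ν R / 4 + ν R * (sg R x * sg R y) / 4 := by
      intro R
      unfold sg
      by_cases hx : x ∈ R <;> by_cases hy : y ∈ R <;> simp [hx, hy] <;> ring
    simp_rw [h3]
    rw [Finset.sum_add_distrib, ← Finset.sum_div, ← Finset.sum_div, n1, n2]
    ring

end Pool.Agent.Lib.MP_cff830_lc.SDP
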