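import Pool.Agent.Lib.MP_cff830_lc.SDP.Stmts

/-!
# Module (A4) `Tan`: the integral as a polynomial in the tangent
-/

set_option autoImplicit false

namespace Pool.Agent.Lib.MP_cff830_lc.SDP

open Finset MeasureTheory Real

namespace TanAux

/-- the coefficients -/
noncomputable def S (n : ℕ) (a : ℝ) (l : ℕ) : ℝ :=
  ∑ i ∈ range n, (i.choose l : ℝ) * (1 - a) ^ (i - l)

theorem sum_choose (n l : ℕ) : ∑ i ∈ range n, i.choose l = n.choose (l + 1) := by
  induction n with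
  | zero => simp
  | succ n ih => rw [sum_range_succ, ih, Nat.choose_succ_succ' n l, add_comm]

theorem S_nonneg (n : ℕ) {a : ℝ} (ha : a ≤ 1) (l : ℕ) : 0 ≤ S n a l :=
  sum_nonneg fun i _ => mul_nonneg (Nat.cast_nonneg _) (pow_nonneg (by linarith) _)

theorem S_le (n : ℕ) {a : ℝ} (h0 : 0 ≤ a) (ha : a ≤ 1) (l : ℕ) :
    S n a l ≤ (n.choose (l + 1) : ℝ) := by
  rw [← sum_choose, Nat.cast_sum]
  refine sum_le_sum fun i _ => ?_
  have h1 : (1 - a) ^ (i - l) ≤ 1 := pow_le_one₀ (by linarith) (by linarith)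
  calc (i.choose l : ℝ) * (1 - a) ^ (i - l) ≤ (i.choose l : ℝ) * 1 :=
        mul_le_mul_of_nonneg_left h1 (Nat.cast_nonneg _)
    _ = _ := mul_one _

theorem key (n : ℕ) (a T : ℝ) : (1 - a * (1 + T ^ 2)) ^ n =
    1 + ∑ l ∈ range n, ((-1) ^ (l + 1) * a ^ (l + 1) * S n a l) * (T ^ (2 * l) * (1 + T ^ 2)) := by
  have h1 := mul_neg_geom_sum (1 - a * (1 + T ^ 2)) n
  have h2 : ∀ i ∈ range n, (1 - a * (1 + T ^ 2)) ^ i =
      ∑ l ∈ range n, (-(a * T ^ 2)) ^ l * (1 - a) ^ (i - l) * (i.choose l : ℝ) := by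
    intro i hi
    have h3 : (1 - a * (1 + T ^ 2)) = -(a * T ^ 2) + (1 - a) := by ring
    rw [h3, add_pow]
    refine sum_subset (fun m hm => ?_) (fun m _ hm => ?_)
    · rw [mem_range] at *
      omega
    · rw [mem_range, not_lt] at hm
      rw [Nat.choose_eq_zero_of_lt (by omega), Nat.cast_zero, mul_zero]
  have h4 : (1 - a * (1 + T ^ 2)) ^ n =
      1 - (a * (1 + T ^ 2)) * ∑ i ∈ range n, (1 - a * (1 + T ^ 2)) ^ i := by
    linear_combination h1
  rw [h4, sum_congr rfl h2, sum_comm, mul_sum, sub_eq_add_neg, ← sum_neg_distrib]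
  congr 1
  refine sum_congr rfl fun l _ => ?_
  unfold S
  rw [mul_sum, ← sum_neg_distrib, mul_sum, sum_mul]
  refine sum_congr rfl fun i _ => ?_
  rw [neg_pow (a * T ^ 2) l, mul_pow a (T ^ 2) l, pow_mul T 2 l]
  ring

end TanAux

open TanAux

theorem stTan : StTan := by
  intro n t ht0 ht1
  have ht2 : t ^ 2 ≤ 1 := pow_le_one₀ ht0.le ht1.le
  have ht3 : 0 ≤ t ^ 2 := sq_nonneg t
  let α : ℕ → ℝ := fun l => (-1) ^ (l + 1) * (t ^ 2) ^ (l + 1) * S n (t ^ 2) l / (2 * l + 1)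
  refine ⟨α, fun l => ?_, ?_⟩
  · have h1 : |α l| = (t ^ 2) ^ (l + 1) * S n (t ^ 2) l / (2 * l + 1) := by
      show |(-1) ^ (l + 1) * (t ^ 2) ^ (l + 1) * S n (t ^ 2) l / (2 * l + 1)| = _
      rw [abs_div, abs_mul, abs_mul, abs_pow, abs_neg, abs_one, one_pow, one_mul,
        abs_of_nonneg (pow_nonneg ht3 _), abs_of_nonneg (S_nonneg n ht2 l),
        abs_of_pos (by positivity : (0 : ℝ) < 2 * l + 1)]
    have h2 := S_le n ht3 ht2 l
    have h3 : 0 ≤ (t ^ 2) ^ (l + 1) := pow_nonneg ht3 _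
    rw [h1, div_le_iff₀ (by positivity)]
    have h4 : t ^ (2 * l + 2) = (t ^ 2) ^ (l + 1) := by
      rw [← pow_mul]
      congr 1
    rw [h4]
    have h5 : (t ^ 2) ^ (l + 1) * S n (t ^ 2) l ≤ (n.choose (l + 1) : ℝ) * (t ^ 2) ^ (l + 1) := by
      rw [mul_comm]
      exact mul_le_mul_of_nonneg_right h2 h3
    have h6 : 0 ≤ (n.choose (l + 1) : ℝ) * (t ^ 2) ^ (l + 1) :=
      mul_nonneg (Nat.cast_nonneg _) h3
    have h7 : (1 : ℝ) ≤ 2 * l + 1 := by
      have : (0 : ℝ) ≤ l := Nat.cast_nonneg l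
      linarith
    nlinarith
  · have hA : arccos t < π / 2 := arccos_lt_pi_div_two.2 ht0
    have hcos : ∀ v : ℝ, 0 ≤ v → v ≤ arccos t → 0 < cos v := fun v h0 h1 =>
      cos_pos_of_mem_Ioo ⟨by linarith [pi_pos], by linarith⟩
    have hder : ∀ v : ℝ, 0 ≤ v → v ≤ arccos t →
        HasDerivAt (fun v => v + ∑ l ∈ range n, α l * tan v ^ (2 * l + 1))
          ((1 - t ^ 2 / cos v ^ 2) ^ n) v := by
      intro v h0 h1
      have hc := (hcos v h0 h1).ne'
      have h2 : ∀ l ∈ range n, HasDerivAt (fun v => α l * tan v ^ (2 * l + 1))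
          (α l * (((2 * l + 1 : ℕ) : ℝ) * tan v ^ (2 * l + 1 - 1) * (1 / cos v ^ 2))) v :=
        fun l _ => ((hasDerivAt_tan hc).pow (2 * l + 1)).const_mul (α l)
      have h3 := (hasDerivAt_id v).add (HasDerivAt.fun_sum h2)
      have h4 : 1 / cos v ^ 2 = 1 + tan v ^ 2 := by
        rw [tan_eq_sin_div_cos]
        field_simp
        linarith [sin_sq_add_cos_sq v]
      have h5 : (1 - t ^ 2 / cos v ^ 2) ^ n =
          1 + ∑ l ∈ range n, α l * (((2 * l + 1 : ℕ) : ℝ) * tan v ^ (2 * l + 1 - 1) *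
            (1 / cos v ^ 2)) := by
        have h6 : t ^ 2 / cos v ^ 2 = t ^ 2 * (1 + tan v ^ 2) := by
          rw [← h4]; ring
        rw [h6, key, h4]
        congr 1
        refine sum_congr rfl fun l _ => ?_
        have h7 : (2 * (l : ℝ) + 1) ≠ 0 := by positivity
        show _ = (-1) ^ (l + 1) * (t ^ 2) ^ (l + 1) * S n (t ^ 2) l / (2 * l + 1) * _
        rw [Nat.add_sub_cancel]
        push_cast
        field_simp
      rw [h5]
      exact h3
    have hint : ∀ a b : ℝ, 0 ≤ a → a ≤ arccos t → 0 ≤ b → b ≤ arccos t →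
        ∫ v in a..b, (1 - t ^ 2 / cos v ^ 2) ^ n =
          (b + ∑ l ∈ range n, α l * tan b ^ (2 * l + 1)) -
            (a + ∑ l ∈ range n, α l * tan a ^ (2 * l + 1)) := by
      intro a b ha0 ha1 hb0 hb1
      have hsub : ∀ v ∈ Set.uIcc a b, 0 ≤ v ∧ v ≤ arccos t := fun v hv => by
        rw [Set.mem_uIcc] at hv
        rcases hv with h | h
        · exact ⟨ha0.trans h.1, h.2.trans hb1⟩
        · exact ⟨hb0.trans h.1, h.2.trans ha1⟩
      refine intervalIntegral.integral_eq_sub_of_hasDerivAt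
        (f := fun v => v + ∑ l ∈ range n, α l * tan v ^ (2 * l + 1))
        (fun v hv => hder v (hsub v hv).1 (hsub v hv).2) ?_
      refine ContinuousOn.intervalIntegrable ?_
      refine ContinuousOn.pow (continuousOn_const.sub (continuousOn_const.div
        (continuous_cos.continuousOn.pow 2) fun v hv => ?_)) n
      exact pow_ne_zero 2 (hcos v (hsub v hv).1 (hsub v hv).2).ne'
    intro θ h0 h1
    have hA0 : 0 ≤ arccos t := arccos_nonneg t
    rw [hint θ _ h0 h1 hA0 le_rfl, hint 0 _ le_rfl hA0 hA0 le_rfl]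
    have h8 : ∑ l ∈ range n, α l * tan 0 ^ (2 * l + 1) = 0 :=
      sum_eq_zero fun l _ => by rw [tan_zero, zero_pow (by omega), mul_zero]
    rw [h8]
    ring

end Pool.Agent.Lib.MP_cff830_lc.SDP
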