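import Mathlib

/-!
# Power series with non-negative coefficients on `[-1, 1]`

`NN f c`: on `[-1, 1]` the function `f` is the sum of a power series with non-negative coefficients
of sum `c`.  `BN f c`: on `[-1, 1]` the function `f` is a difference of two such functions, with sum
of coefficients at most `c` in total.
-/

set_option autoImplicit false

namespace Pool.Agent.Lib.MP_cff830_lc.SDP

open Finset

/-- On `[-1, 1]` the function `f` is the sum of a power series with non-negative coefficients of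
sum `c`. -/
def NN (f : ℝ → ℝ) (c : ℝ) : Prop :=
  ∃ a : ℕ → ℝ, (∀ k, 0 ≤ a k) ∧ HasSum a c ∧
    ∀ x : ℝ, |x| ≤ 1 → HasSum (fun k => a k * x ^ k) (f x)

/-- On `[-1, 1]` the function `f` is a difference of two functions with `NN`, with constants of sum
at most `c`. -/
def BN (f : ℝ → ℝ) (c : ℝ) : Prop :=
  ∃ (g h : ℝ → ℝ) (c₁ c₂ : ℝ), NN g c₁ ∧ NN h c₂ ∧ c₁ + c₂ ≤ c ∧
    ∀ x : ℝ, |x| ≤ 1 → f x = g x - h x

variable {f g : ℝ → ℝ} {c d : ℝ}

theorem NN.nonneg (h : NN f c) : 0 ≤ c := by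
  obtain ⟨a, ha, hc, -⟩ := h
  exact hc.nonneg ha

theorem NN.congr (h : NN f c) (hfg : ∀ x : ℝ, |x| ≤ 1 → g x = f x) : NN g c := by
  obtain ⟨a, ha, hc, hx⟩ := h
  exact ⟨a, ha, hc, fun x h1 => by rw [hfg x h1]; exact hx x h1⟩

theorem NN.at_one (h : NN f c) : f 1 = c := by
  obtain ⟨a, ha, hc, hx⟩ := h
  have h1 := hx 1 (by norm_num)
  simp only [one_pow, mul_one] at h1
  exact h1.unique hc

theorem NN.abs_le (h : NN f c) {x : ℝ} (hx : |x| ≤ 1) : |f x| ≤ c := by
  obtain ⟨a, ha, hc, hf⟩ := h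
  have h1 : ∀ k, ‖a k * x ^ k‖ ≤ a k := by
    intro k
    rw [Real.norm_eq_abs, abs_mul, abs_of_nonneg (ha k), abs_pow]
    exact mul_le_of_le_one_right (ha k) (pow_le_one₀ (abs_nonneg x) hx)
  have h2 := tsum_of_norm_bounded hc h1
  rwa [(hf x hx).tsum_eq, Real.norm_eq_abs] at h2

theorem NN.const (hc : 0 ≤ c) : NN (fun _ => c) c := by
  refine ⟨fun k => if k = 0 then c else 0, fun k => by dsimp only; split_ifs <;> simp [hc], ?_, ?_⟩
  · exact hasSum_ite_eq 0 c
  · intro x _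
    have h1 : (fun k : ℕ => (if k = 0 then c else 0) * x ^ k) = fun k => if k = 0 then c else 0 := by
      funext k
      by_cases hk : k = 0
      · simp [hk]
      · simp [hk]
    rw [h1]
    exact hasSum_ite_eq 0 c

theorem NN.id : NN (fun x => x) 1 := by
  refine ⟨fun k => if k = 1 then 1 else 0, fun k => by dsimp only; split_ifs <;> simp, ?_, ?_⟩
  · exact hasSum_ite_eq 1 1
  · intro x _
    have h1 : (fun k : ℕ => (if k = 1 then (1 : ℝ) else 0) * x ^ k) =
        fun k => if k = 1 then x else 0 := by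
      funext k
      by_cases hk : k = 1
      · simp [hk]
      · simp [hk]
    rw [h1]
    exact hasSum_ite_eq 1 x

theorem NN.add (hf : NN f c) (hg : NN g d) : NN (fun x => f x + g x) (c + d) := by
  obtain ⟨a, ha, hc, hx⟩ := hf
  obtain ⟨b, hb, hd, hy⟩ := hg
  refine ⟨fun k => a k + b k, fun k => add_nonneg (ha k) (hb k), hc.add hd, fun x h1 => ?_⟩
  have h2 := (hx x h1).add (hy x h1)
  simp only [← add_mul] at h2
  exact h2

theorem NN.smul {s : ℝ} (hs : 0 ≤ s) (hf : NN f c) : NN (fun x => s * f x) (s * c) := by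
  obtain ⟨a, ha, hc, hx⟩ := hf
  refine ⟨fun k => s * a k, fun k => mul_nonneg hs (ha k), hc.mul_left s, fun x h1 => ?_⟩
  have h2 := (hx x h1).mul_left s
  simp only [← mul_assoc] at h2
  exact h2

theorem NN.mul (hf : NN f c) (hg : NN g d) : NN (fun x => f x * g x) (c * d) := by
  obtain ⟨a, ha, hc, hx⟩ := hf
  obtain ⟨b, hb, hd, hy⟩ := hg
  have key : ∀ (u v : ℕ → ℝ) (p q : ℝ), Summable (fun k => ‖u k‖) → Summable (fun k => ‖v k‖) →
      HasSum u p → HasSum v q →
        HasSum (fun n => ∑ kl ∈ antidiagonal n, u kl.1 * v kl.2) (p * q) := by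
    intro u v p q hu hv hp hq
    have h1 := (summable_norm_sum_mul_antidiagonal_of_summable_norm hu hv).of_norm.hasSum
    rwa [← tsum_mul_tsum_eq_tsum_sum_antidiagonal_of_summable_norm hu hv, hp.tsum_eq,
      hq.tsum_eq] at h1
  refine ⟨fun n => ∑ kl ∈ antidiagonal n, a kl.1 * b kl.2,
    fun n => Finset.sum_nonneg fun kl _ => mul_nonneg (ha _) (hb _), ?_, ?_⟩
  · refine key a b c d ?_ ?_ hc hd
    · exact hc.summable.congr fun k => (Real.norm_of_nonneg (ha k)).symm
    · exact hd.summable.congr fun k => (Real.norm_of_nonneg (hb k)).symm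
  · intro x h1
    have hs : ∀ (u : ℕ → ℝ), (∀ k, 0 ≤ u k) → Summable u → Summable fun k => ‖u k * x ^ k‖ := by
      intro u hu hus
      refine Summable.of_nonneg_of_le (fun _ => norm_nonneg _) (fun k => ?_) hus
      rw [Real.norm_eq_abs, abs_mul, abs_of_nonneg (hu k), abs_pow]
      exact mul_le_of_le_one_right (hu k) (pow_le_one₀ (abs_nonneg x) h1)
    have h2 := key _ _ _ _ (hs a ha hc.summable) (hs b hb hd.summable) (hx x h1) (hy x h1)
    refine h2.congr_fun ?_
    intro n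
    rw [Finset.sum_mul]
    refine Finset.sum_congr rfl fun kl hkl => ?_
    rw [← Finset.HasAntidiagonal.mem_antidiagonal.mp hkl, pow_add]
    ring

theorem NN.pow (hf : NN f c) (n : ℕ) : NN (fun x => f x ^ n) (c ^ n) := by
  induction n with
  | zero => simpa using NN.const (c := 1) zero_le_one
  | succ n ih => simpa [pow_succ] using ih.mul hf

theorem NN.tsum {F : ℕ → ℝ → ℝ} {C : ℕ → ℝ} (h : ∀ i, NN (F i) (C i)) (hC : Summable C) :
    NN (fun x => ∑' i, F i x) (∑' i, C i) := by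
  choose a ha hc hx using h
  have hs : Summable fun p : ℕ × ℕ => a p.1 p.2 := by
    refine (summable_prod_of_nonneg fun p => ha p.1 p.2).mpr ⟨fun i => (hc i).summable, ?_⟩
    exact hC.congr fun i => (hc i).tsum_eq.symm
  have hs' : Summable fun p : ℕ × ℕ => a p.2 p.1 := (Equiv.prodComm ℕ ℕ).summable_iff.mp hs
  refine ⟨fun k => ∑' i, a i k, fun k => tsum_nonneg fun i => ha i k, ?_, ?_⟩
  · have h1 := hs'.hasSum.prod_fiberwise fun k => (hs'.prod_factor k).hasSum
    have h2 : ∑' p : ℕ × ℕ, a p.2 p.1 = ∑' i, C i := by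
      have h3 : ∑' p : ℕ × ℕ, a p.2 p.1 = ∑' p : ℕ × ℕ, a p.1 p.2 :=
        (Equiv.prodComm ℕ ℕ).tsum_eq fun p : ℕ × ℕ => a p.1 p.2
      rw [h3, hs.tsum_prod]
      exact tsum_congr fun i => (hc i).tsum_eq
    rwa [h2] at h1
  · intro x h1
    have hb : ∀ i k, ‖a i k * x ^ k‖ ≤ a i k := by
      intro i k
      rw [Real.norm_eq_abs, abs_mul, abs_of_nonneg (ha i k), abs_pow]
      exact mul_le_of_le_one_right (ha i k) (pow_le_one₀ (abs_nonneg x) h1)
    have ht : Summable fun p : ℕ × ℕ => a p.1 p.2 * x ^ p.2 :=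
      Summable.of_norm_bounded hs fun p => hb p.1 p.2
    have ht' : Summable fun p : ℕ × ℕ => a p.2 p.1 * x ^ p.1 :=
      Summable.of_norm_bounded hs' fun p => hb p.2 p.1
    have h2 := ht'.hasSum.prod_fiberwise fun k => (ht'.prod_factor k).hasSum
    have h3 : ∑' p : ℕ × ℕ, a p.2 p.1 * x ^ p.1 = ∑' i, F i x := by
      have h4 : ∑' p : ℕ × ℕ, a p.2 p.1 * x ^ p.1 = ∑' p : ℕ × ℕ, a p.1 p.2 * x ^ p.2 :=
        (Equiv.prodComm ℕ ℕ).tsum_eq fun p : ℕ × ℕ => a p.1 p.2 * x ^ p.2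
      rw [h4, ht.tsum_prod]
      exact tsum_congr fun i => (hx i x h1).tsum_eq
    rw [h3] at h2
    refine h2.congr_fun fun k => ?_
    dsimp only
    rw [tsum_mul_right]

/-! ### Differences -/

theorem BN.of_NN (h : NN f c) : BN f c :=
  ⟨f, fun _ => 0, c, 0, h, NN.const le_rfl, by simp, fun x _ => by simp⟩

theorem BN.nonneg (h : BN f c) : 0 ≤ c := by
  obtain ⟨g, h, c₁, c₂, h1, h2, h3, -⟩ := h
  have := h1.nonneg
  have := h2.nonneg
  linarith

theorem BN.mono (h : BN f c) (hcd : c ≤ d) : BN f d := by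
  obtain ⟨g, h, c₁, c₂, h1, h2, h3, h4⟩ := h
  exact ⟨g, h, c₁, c₂, h1, h2, h3.trans hcd, h4⟩

theorem BN.congr (h : BN f c) (hfg : ∀ x : ℝ, |x| ≤ 1 → g x = f x) : BN g c := by
  obtain ⟨g', h, c₁, c₂, h1, h2, h3, h4⟩ := h
  exact ⟨g', h, c₁, c₂, h1, h2, h3, fun x hx => (hfg x hx).trans (h4 x hx)⟩

theorem BN.abs_le (h : BN f c) {x : ℝ} (hx : |x| ≤ 1) : |f x| ≤ c := by
  obtain ⟨g, h, c₁, c₂, h1, h2, h3, h4⟩ := h
  rw [h4 x hx]
  calc |g x - h x| ≤ |g x| + |h x| := abs_sub _ _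
    _ ≤ c₁ + c₂ := add_le_add (h1.abs_le hx) (h2.abs_le hx)
    _ ≤ c := h3

theorem BN.neg (h : BN f c) : BN (fun x => -f x) c := by
  obtain ⟨g, h, c₁, c₂, h1, h2, h3, h4⟩ := h
  exact ⟨h, g, c₂, c₁, h2, h1, by linarith, fun x hx => by dsimp only; rw [h4 x hx]; ring⟩

theorem BN.add (hf : BN f c) (hg : BN g d) : BN (fun x => f x + g x) (c + d) := by
  obtain ⟨g₁, h₁, c₁, c₂, h1, h2, h3, h4⟩ := hf
  obtain ⟨g₂, h₂, d₁, d₂, k1, k2, k3, k4⟩ := hg
  exact ⟨_, _, _, _, h1.add k1, h2.add k2, by linarith,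
    fun x hx => by dsimp only; rw [h4 x hx, k4 x hx]; ring⟩

theorem BN.sub (hf : BN f c) (hg : BN g d) : BN (fun x => f x - g x) (c + d) :=
  (hf.add hg.neg).congr fun x _ => by ring

theorem BN.mul (hf : BN f c) (hg : BN g d) : BN (fun x => f x * g x) (c * d) := by
  obtain ⟨g₁, h₁, c₁, c₂, h1, h2, h3, h4⟩ := hf
  obtain ⟨g₂, h₂, d₁, d₂, k1, k2, k3, k4⟩ := hg
  refine ⟨_, _, _, _, (h1.mul k1).add (h2.mul k2), (h1.mul k2).add (h2.mul k1), ?_,
    fun x hx => by dsimp only; rw [h4 x hx, k4 x hx]; ring⟩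
  have := h1.nonneg
  have := h2.nonneg
  have := k1.nonneg
  have := k2.nonneg
  calc c₁ * d₁ + c₂ * d₂ + (c₁ * d₂ + c₂ * d₁) = (c₁ + c₂) * (d₁ + d₂) := by ring
    _ ≤ c * d := mul_le_mul h3 k3 (by linarith) (by linarith)

theorem BN.const (s : ℝ) : BN (fun _ => s) |s| := by
  rcases le_total 0 s with hs | hs
  · rw [abs_of_nonneg hs]
    exact BN.of_NN (NN.const hs)
  · rw [abs_of_nonpos hs]
    exact ((BN.of_NN (NN.const (neg_nonneg.mpr hs))).neg).congr fun x _ => by ring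

theorem BN.smul (s : ℝ) (hf : BN f c) : BN (fun x => s * f x) (|s| * c) := (BN.const s).mul hf

theorem BN.pow (hf : BN f c) (n : ℕ) : BN (fun x => f x ^ n) (c ^ n) := by
  induction n with
  | zero => simpa using BN.of_NN (NN.const (c := 1) zero_le_one)
  | succ n ih => simpa [pow_succ] using ih.mul hf

theorem BN.id : BN (fun x => x) 1 := BN.of_NN NN.id

theorem BN.tsum {F : ℕ → ℝ → ℝ} {C : ℕ → ℝ} (h : ∀ i, BN (F i) (C i)) (hC : Summable C) :
    BN (fun x => ∑' i, F i x) (∑' i, C i) := by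
  choose g h c₁ c₂ h1 h2 h3 h4 using h
  have s1 : Summable c₁ := Summable.of_nonneg_of_le (fun i => (h1 i).nonneg)
    (fun i => by have := (h2 i).nonneg; linarith [h3 i]) hC
  have s2 : Summable c₂ := Summable.of_nonneg_of_le (fun i => (h2 i).nonneg)
    (fun i => by have := (h1 i).nonneg; linarith [h3 i]) hC
  refine ⟨_, _, _, _, NN.tsum h1 s1, NN.tsum h2 s2, ?_, ?_⟩
  · rw [← s1.tsum_add s2]
    exact (s1.add s2).tsum_le_tsum h3 hC
  · intro x hx
    have t1 : Summable fun i => g i x :=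
      Summable.of_norm_bounded s1 fun i => by rw [Real.norm_eq_abs]; exact (h1 i).abs_le hx
    have t2 : Summable fun i => h i x :=
      Summable.of_norm_bounded s2 fun i => by rw [Real.norm_eq_abs]; exact (h2 i).abs_le hx
    rw [← t1.tsum_sub t2]
    exact tsum_congr fun i => h4 i x hx

theorem BN.sum {ι : Type} (s : Finset ι) {F : ι → ℝ → ℝ} {C : ι → ℝ} (h : ∀ i ∈ s, BN (F i) (C i)) :
    BN (fun x => ∑ i ∈ s, F i x) (∑ i ∈ s, C i) := by
  classical
  induction s using Finset.induction_on with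
  | empty => simpa using BN.of_NN (NN.const (c := 0) le_rfl)
  | insert a s ha ih =>
    have h1 := (h a (Finset.mem_insert_self a s)).add
      (ih fun i hi => h i (Finset.mem_insert_of_mem hi))
    rw [Finset.sum_insert ha]
    exact h1.congr fun x _ => by rw [Finset.sum_insert ha]

end Pool.Agent.Lib.MP_cff830_lc.SDP
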