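import Pool.Agent.Lib.MP_cff830_lc.SDP.Stmts

/-!
# Binomial series as differences of power series with non-negative coefficients
-/

set_option autoImplicit false

namespace Pool.Agent.Lib.MP_cff830_lc.SDP

open Finset

namespace BinAux

/-- The coefficients of `1 / √(1 - x)`. -/
noncomputable def q (k : ℕ) : ℝ := Ring.choose ((1 / 2 : ℝ) + k - 1) k

theorem q_eq (k : ℕ) : (k.factorial : ℝ) * q k = (ascPochhammer ℕ k).smeval (1 / 2 : ℝ) := by
  have h : q k = Ring.multichoose (1 / 2 : ℝ) k := by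
    unfold q
    unfold Ring.choose
    congr 1
    ring
  rw [h, ← Ring.factorial_nsmul_multichoose_eq_ascPochhammer, nsmul_eq_mul]

theorem q_zero : q 0 = 1 := by
  unfold q
  simp

theorem q_succ (k : ℕ) : ((k : ℝ) + 1) * q (k + 1) = (k + 1 / 2) * q k := by
  have h1 := q_eq (k + 1)
  have h2 := q_eq k
  rw [ascPochhammer_succ_right, Polynomial.smeval_mul, ← h2] at h1
  simp only [Polynomial.smeval_add, Polynomial.smeval_X, pow_one, Polynomial.smeval_natCast,
    pow_zero] at h1
  rw [Nat.factorial_succ] at h1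
  push_cast at h1
  have h3 : (k.factorial : ℝ) ≠ 0 := by positivity
  apply mul_left_cancel₀ h3
  rw [nsmul_eq_mul, mul_one] at h1
  linarith

theorem q_nonneg (k : ℕ) : 0 ≤ q k := by
  induction k with
  | zero => rw [q_zero]; exact zero_le_one
  | succ k ih =>
    have h := q_succ k
    have h1 : 0 ≤ ((k : ℝ) + 1) * q (k + 1) := by rw [h]; positivity
    have h2 : (0 : ℝ) < (k : ℝ) + 1 := by positivity
    exact nonneg_of_mul_nonneg_right h1 h2

theorem q_anti (k : ℕ) : q (k + 1) ≤ q k := by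
  have h := q_succ k
  have h0 := q_nonneg k
  have h2 : (0 : ℝ) < (k : ℝ) + 1 := by positivity
  have h3 : ((k : ℝ) + 1) * q (k + 1) ≤ ((k : ℝ) + 1) * q k := by rw [h]; nlinarith
  exact le_of_mul_le_mul_left h3 h2

theorem hasSum_q {x : ℝ} (hx : |x| < 1) : HasSum (fun k => q k * x ^ k) (√(1 - x))⁻¹ := by
  have h := Real.one_div_one_sub_rpow_hasFPowerSeriesOnBall_zero (1 / 2)
  have h1 := h.hasSum (y := x) (by
    rw [← ENNReal.ofReal_one, Metric.eball_ofReal]
    simpa using hx)
  simp only [zero_add, FormalMultilinearSeries.ofScalars_apply_eq, smul_eq_mul] at h1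
  rw [Real.sqrt_eq_rpow, ← one_div]
  exact h1

/-- The coefficients of `1 - √(1 - x)`, shifted by one. -/
noncomputable def b (k : ℕ) : ℝ := q k - q (k + 1)

theorem b_nonneg (k : ℕ) : 0 ≤ b k := sub_nonneg.mpr (q_anti k)

theorem b_sum (n : ℕ) : ∑ k ∈ range n, b k ≤ 1 := by
  have h : ∑ k ∈ range n, b k = q 0 - q n := by
    unfold b
    exact Finset.sum_range_sub' q n
  rw [h, q_zero]
  linarith [q_nonneg n]

theorem b_summable : Summable b := summable_of_sum_range_le b_nonneg b_sum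

theorem b_tsum : ∑' k, b k ≤ 1 := Summable.tsum_le_of_sum_range_le b_summable b_sum

theorem hasSum_b_lt {x : ℝ} (hx : |x| < 1) :
    HasSum (fun k => b k * x ^ (k + 1)) (1 - √(1 - x)) := by
  have h := hasSum_q hx
  have h1 : HasSum (fun k => q (k + 1) * x ^ (k + 1)) ((√(1 - x))⁻¹ - 1) := by
    have := (hasSum_nat_add_iff' 1).mpr h
    simpa [q_zero] using this
  have h2 := (h.mul_left x).sub h1
  have h3 : 0 < 1 - x := by
    have := (abs_lt.mp hx).2
    linarith
  have h4 : √(1 - x) ≠ 0 := (Real.sqrt_pos.mpr h3).ne'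
  have h5 : x * (√(1 - x))⁻¹ - ((√(1 - x))⁻¹ - 1) = 1 - √(1 - x) := by
    field_simp
    have := Real.sq_sqrt h3.le
    nlinarith
  rw [h5] at h2
  refine h2.congr_fun fun k => ?_
  unfold b
  ring

theorem hasSum_b {x : ℝ} (hx : |x| ≤ 1) :
    HasSum (fun k => b k * x ^ (k + 1)) (1 - √(1 - x)) := by
  have hb : ∀ (k : ℕ) (z : ℝ), z ∈ Set.Icc (-1 : ℝ) 1 → ‖b k * z ^ (k + 1)‖ ≤ b k := by
    intro k z hz
    rw [Real.norm_eq_abs, abs_mul, abs_of_nonneg (b_nonneg k), abs_pow]
    exact mul_le_of_le_one_right (b_nonneg k) (pow_le_one₀ (abs_nonneg z) (abs_le.mpr hz))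
  have hc : ContinuousOn (fun z : ℝ => ∑' k, b k * z ^ (k + 1)) (Set.Icc (-1) 1) := by
    refine continuousOn_tsum (fun k => by fun_prop) b_summable fun k z hz => hb k z hz
  have hd : ContinuousOn (fun z : ℝ => 1 - √(1 - z)) (Set.Icc (-1) 1) := by fun_prop
  have he : Set.EqOn (fun z : ℝ => ∑' k, b k * z ^ (k + 1)) (fun z => 1 - √(1 - z))
      (Set.Ioo (-1) 1) := by
    intro z hz
    exact (hasSum_b_lt (abs_lt.mpr hz)).tsum_eq
  have hf := he.of_subset_closure hc hd Set.Ioo_subset_Icc_self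
    (by rw [closure_Ioo (by norm_num)])
  have hx' : x ∈ Set.Icc (-1 : ℝ) 1 := abs_le.mp hx
  have hs : Summable fun k => b k * x ^ (k + 1) :=
    Summable.of_norm_bounded b_summable fun k => hb k x hx'
  have := hf hx'
  simp only at this
  rw [← this]
  exact hs.hasSum

theorem sqrt_BN {z : ℝ → ℝ} {c : ℝ} (hz : BN z c) (hc : c ≤ 1) : BN (fun x => √(1 - z x)) 2 := by
  have h0 := hz.nonneg
  have hb : ∀ k, b k * c ^ (k + 1) ≤ b k := fun k =>
    mul_le_of_le_one_right (b_nonneg k) (pow_le_one₀ h0 hc)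
  have hS : Summable fun k => b k * c ^ (k + 1) :=
    Summable.of_nonneg_of_le (fun k => mul_nonneg (b_nonneg k) (by positivity)) hb b_summable
  have h1 : ∀ k : ℕ, BN (fun x => b k * z x ^ (k + 1)) (b k * c ^ (k + 1)) := by
    intro k
    have := (hz.pow (k + 1)).smul (b k)
    rwa [abs_of_nonneg (b_nonneg k)] at this
  have h2 := BN.tsum h1 hS
  have h3 : ∑' k, b k * c ^ (k + 1) ≤ 1 := (hS.tsum_le_tsum hb b_summable).trans b_tsum
  have h4 := (BN.const 1).sub h2
  rw [abs_one] at h4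
  refine (h4.mono (by linarith)).congr fun x hx => ?_
  have h5 := (hasSum_b ((hz.abs_le hx).trans hc)).tsum_eq
  rw [h5]
  ring

end BinAux

open BinAux in
theorem stBin : StBin := by
  refine ⟨?_, ?_, ?_, ?_⟩
  · intro y c hy hc
    have h0 := hy.nonneg
    have hS := hasSum_q (x := c) (by rw [abs_of_nonneg h0]; exact hc)
    have h1 : ∀ k : ℕ, BN (fun x => q k * (-y x) ^ k) (q k * c ^ k) := by
      intro k
      have := (hy.neg.pow k).smul (q k)
      rwa [abs_of_nonneg (q_nonneg k)] at this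
    have h2 := BN.tsum h1 hS.summable
    rw [hS.tsum_eq] at h2
    refine h2.congr fun x hx => ?_
    have h3 := hasSum_q (x := -y x) (by
      rw [abs_neg]; exact (hy.abs_le hx).trans_lt hc)
    rw [h3.tsum_eq, sub_neg_eq_add]
  · intro y c hy hc
    refine (sqrt_BN hy.neg hc.le).congr fun x _ => ?_
    rw [sub_neg_eq_add]
  · intro y c hy hc
    have h0 := hy.nonneg
    have hS := hasSum_geometric_of_lt_one h0 hc
    have h1 : ∀ k : ℕ, BN (fun x => (-y x) ^ k) (c ^ k) := fun k => hy.neg.pow k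
    have h2 := BN.tsum h1 hS.summable
    rw [hS.tsum_eq] at h2
    refine h2.congr fun x hx => ?_
    have h3 := hasSum_geometric_of_abs_lt_one (r := -y x) (by
      rw [abs_neg]; exact (hy.abs_le hx).trans_lt hc)
    rw [h3.tsum_eq, sub_neg_eq_add]
  · intro P hP
    exact sqrt_BN (BN.of_NN hP) le_rfl

end Pool.Agent.Lib.MP_cff830_lc.SDP
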