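import Pool.Agent.Lib.MP_cff830_lc.SDP.Stmts

/-!
# Module B4: the tail of the binomial distribution by the variance
-/

set_option autoImplicit false

namespace Pool.Agent.Lib.MP_cff830_lc.SDP

open Finset

namespace CntAux

/-- The variance of the binomial distribution. -/
lemma variance (M : ℕ) :
    ∑ i ∈ range (M + 1), ((M : ℝ) - 2 * i) ^ 2 * (M.choose i : ℝ) = (M : ℝ) * 2 ^ M := by
  induction M with
  | zero => simp
  | succ n ih =>
    have hsum : ∑ i ∈ range (n + 1), (n.choose i : ℝ) = 2 ^ n := by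
      exact_mod_cast Nat.sum_range_choose n
    -- the two parts of Pascal's rule
    have h1 : ∑ i ∈ range (n + 1 + 1), (((n + 1 : ℕ) : ℝ) - 2 * i) ^ 2 *
        ((n + 1).choose i : ℝ) =
        ∑ i ∈ range (n + 1), (((n + 1 : ℕ) : ℝ) - 2 * ((i + 1 : ℕ) : ℝ)) ^ 2 *
          ((n.choose i : ℝ) + (n.choose (i + 1) : ℝ)) + ((n + 1 : ℕ) : ℝ) ^ 2 := by
      rw [Finset.sum_range_succ']
      congr 1
      · refine Finset.sum_congr rfl fun i _ => ?_
        rw [Nat.choose_succ_succ]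
        push_cast
        ring
      · simp
    have h2 : ∑ i ∈ range (n + 1), (((n + 1 : ℕ) : ℝ) - 2 * ((i + 1 : ℕ) : ℝ)) ^ 2 *
        (n.choose (i + 1) : ℝ) + ((n + 1 : ℕ) : ℝ) ^ 2 =
        ∑ i ∈ range (n + 1), (((n + 1 : ℕ) : ℝ) - 2 * i) ^ 2 * (n.choose i : ℝ) := by
      have h3 := Finset.sum_range_succ' (fun i : ℕ => (((n + 1 : ℕ) : ℝ) - 2 * (i : ℝ)) ^ 2 *
        (n.choose i : ℝ)) (n + 1)
      have h4 := Finset.sum_range_succ (fun i : ℕ => (((n + 1 : ℕ) : ℝ) - 2 * (i : ℝ)) ^ 2 *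
        (n.choose i : ℝ)) (n + 1)
      simp only [Nat.choose_succ_self, Nat.cast_zero, mul_zero, add_zero, Nat.choose_zero_right,
        Nat.cast_one, mul_one, sub_zero] at h3 h4
      rw [← h3, h4]
    rw [h1]
    simp only [mul_add]
    rw [Finset.sum_add_distrib, add_assoc, h2, ← Finset.sum_add_distrib]
    have h5 : ∀ i ∈ range (n + 1),
        (((n + 1 : ℕ) : ℝ) - 2 * ((i + 1 : ℕ) : ℝ)) ^ 2 * (n.choose i : ℝ) +
          (((n + 1 : ℕ) : ℝ) - 2 * i) ^ 2 * (n.choose i : ℝ) =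
        2 * (((n : ℝ) - 2 * i) ^ 2 * (n.choose i : ℝ)) + 2 * (n.choose i : ℝ) := by
      intro i _
      push_cast
      ring
    have h6 : ∑ i ∈ range (n + 1), ((((n + 1 : ℕ) : ℝ) - (2 * ((i + 1 : ℕ) : ℝ))) ^ 2 *
          (n.choose i : ℝ) + (((n + 1 : ℕ) : ℝ) - 2 * i) ^ 2 * (n.choose i : ℝ)) =
        2 * ((n : ℝ) * 2 ^ n) + 2 * 2 ^ n := by
      rw [Finset.sum_congr rfl h5, Finset.sum_add_distrib, ← Finset.mul_sum, ← Finset.mul_sum, ih,
        hsum]
    rw [h6]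
    push_cast
    ring

end CntAux

/-- (B4) tail of the binomial distribution -/
theorem stCnt : StCnt := by
  intro ε p j hj h
  set M := 2 * p + j with hM
  have hj0 : (0 : ℝ) < j := by exact_mod_cast hj
  have h1 : (j : ℝ) ^ 2 * ∑ i ∈ range p, (M.choose i : ℝ) ≤ (M : ℝ) * 2 ^ M := by
    rw [← CntAux.variance M, Finset.mul_sum]
    have hsub : range p ⊆ range (M + 1) := by
      intro i hi
      rw [mem_range] at hi ⊢
      omega
    refine le_trans (Finset.sum_le_sum fun i hi => ?_)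
      (Finset.sum_le_sum_of_subset_of_nonneg hsub fun i _ _ => by positivity)
    have hi' : i < p := mem_range.1 hi
    have h2 : (j : ℝ) ≤ (M : ℝ) - 2 * i := by
      have : j + 2 * i ≤ M := by omega
      have h3 : ((j + 2 * i : ℕ) : ℝ) ≤ M := by exact_mod_cast this
      push_cast at h3
      linarith
    exact mul_le_mul_of_nonneg_right (pow_le_pow_left₀ hj0.le h2 2) (by positivity)
  have h2 : (0 : ℝ) < 2 ^ M := by positivity
  have h3 : (j : ℝ) ^ 2 * (2 * ∑ i ∈ range p, (M.choose i : ℝ)) ≤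
      (j : ℝ) ^ 2 * (ε * 2 ^ M) := by
    have h4 : 2 * ((M : ℕ) : ℝ) * 2 ^ M ≤ ε * (j : ℝ) ^ 2 * 2 ^ M :=
      mul_le_mul_of_nonneg_right h h2.le
    nlinarith [h1, h4]
  exact le_of_mul_le_mul_left h3 (by positivity)

end Pool.Agent.Lib.MP_cff830_lc.SDP
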